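import Pool.Agent.H73.KP.Defs
import Mathlib.Probability.Distributions.Poisson.PoissonLimitThm

/-!
# KP: the binomial laws converge to the Poisson law
-/

set_option autoImplicit false

open MeasureTheory Filter Topology Set

namespace Pool.Agent.H73.KP

theorem bin_poisson (k : ℕ) {l : ℝ} (hl : 0 < l) {u : ℕ → ℕ}
    (hu : Tendsto (fun m => (u m : ℝ) / m) atTop (𝓝 l)) :
    Tendsto (fun m : ℕ => ∑ j ∈ Finset.range (k + 1), (m.choose j : ℝ) * ((u m : ℝ) / (m : ℝ) ^ 2) ^ j *
      (1 - (u m : ℝ) / (m : ℝ) ^ 2) ^ (m - j)) atTop (𝓝 (Q k l)) := by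
  unfold Q
  refine tendsto_finsetSum _ fun j _ => ?_
  refine ProbabilityTheory.tendsto_choose_mul_pow_of_tendsto_mul_atTop
    (p := fun m : ℕ => (u m : ℝ) / (m : ℝ) ^ 2) j (hu.congr' ?_)
  filter_upwards [eventually_ge_atTop 1] with m hm
  have hm0 : (m : ℝ) ≠ 0 := by
    have : m ≠ 0 := by omega
    exact_mod_cast this
  field_simp

theorem Q_cont (k : ℕ) : Continuous (Q k) := by
  unfold Q
  refine continuous_finsetSum _ fun j _ => ?_
  exact ((Real.continuous_exp.comp continuous_neg).mul (continuous_pow j)).div_const _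

end Pool.Agent.H73.KP
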