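import Pool.Agent.H73.KP.Win
import Pool.Agent.H73.KZ.Gap

/-!
# KP: the Poisson law for the block systems
-/

set_option autoImplicit false

open MeasureTheory Filter Topology Set

namespace Pool.Agent.H73.KP

open Pool.Agent.H49.BP (pc lt_pc pc_mono)
open Pool.Agent.H49.BZ (Dens md MM md_int MM_sub MM_le MM_nonneg md_nonneg md_le_one md_meas)
open Pool.Agent.H73.TR (rot un bint)
open Pool.Agent.H73.KT (Mb Slow exists_index pos)
open Pool.Agent.H73.KZ (DV Blocks Enum tb ln tb_mono ln_up ln_short MM_block MM_tb tb_zero tb_one_le tb_two tb_ge exists_block md_le)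

theorem Q_nonneg (k : ℕ) {l : ℝ} (hl : 0 ≤ l) : 0 ≤ Q k l := by
  unfold Q
  exact Finset.sum_nonneg fun j _ => by positivity

theorem Q_le_one (k : ℕ) {l : ℝ} (hl : 0 ≤ l) : Q k l ≤ 1 := by
  unfold Q
  have h1 := Real.sum_le_exp_of_nonneg hl (k + 1)
  have h2 : ∑ j ∈ Finset.range (k + 1), Real.exp (-l) * l ^ j / (j.factorial : ℝ) =
      Real.exp (-l) * ∑ j ∈ Finset.range (k + 1), l ^ j / (j.factorial : ℝ) := by
    rw [Finset.mul_sum]
    exact Finset.sum_congr rfl fun j _ => by ring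
  rw [h2]
  calc Real.exp (-l) * ∑ j ∈ Finset.range (k + 1), l ^ j / (j.factorial : ℝ) ≤ Real.exp (-l) * Real.exp l :=
        mul_le_mul_of_nonneg_left h1 (Real.exp_pos _).le
    _ = 1 := by rw [← Real.exp_add]; simp

theorem MM_log [Dens] [DV] {X : ℝ} (hX : 4 ≤ X) : MM X * Real.log X ≤ 6 * X := by
  have hs : 2 ≤ √X := by
    rw [Real.le_sqrt' (by norm_num)]
    linarith
  have hsX : √X ≤ X := by
    rw [Real.sqrt_le_left (by linarith)]
    nlinarith
  have hl : 0 < Real.log X := Real.log_pos (by linarith)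
  have h1 : MM X = MM (√X) + (MM X - MM (√X)) := by ring
  have h2 : MM (√X) ≤ √X := by
    have := Pool.Agent.H49.BZ.MM_le_self (x := √X) (by linarith)
    linarith
  have h3 := Pool.Agent.H73.KZ.MM_inc_le (a := √X) (b := X) (by linarith) hsX
  rw [Real.log_sqrt (by linarith)] at h3
  have h4 : 2 * (X - √X) / (Real.log X / 2) * Real.log X = 4 * (X - √X) := by
    field_simp
    ring
  have h5 : √X * Real.log X ≤ 2 * X := by
    have h6 : Real.log X ≤ 2 * √X := by
      have h7 : Real.log X = 2 * Real.log (√X) := by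
        rw [Real.log_sqrt (by linarith)]
        ring
      have h8 := Real.log_le_self (Real.sqrt_nonneg X)
      linarith
    have h9 : √X * √X = X := Real.mul_self_sqrt (by linarith)
    nlinarith
  have h10 := mul_le_mul_of_nonneg_right h2 hl.le
  have h11 := mul_le_mul_of_nonneg_right h3 hl.le
  rw [h4] at h11
  rw [h1, add_mul]
  nlinarith [Real.sqrt_nonneg X]

section
variable [Dens] [DV] {a : ℕ → ℕ} {S : ℕ → Finset ℝ} {q : ℕ → ℝ}

/-- the spacing of a late block -/
theorem spacing (ha : Slow a) (hasy : ∀ ε : ℝ, 0 < ε → ∀ᶠ u in atTop, |md u * Real.log u - 1| ≤ ε) {δ : ℝ} (hδ : 0 < δ)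
    (hδ1 : δ < 1) : ∃ b0 : ℕ, ∀ b, b0 ≤ b → ∀ x, tb a b < x → x ≤ tb a (b + 1) →
      (1 - δ) / (1 + δ) * (ln a b / ((a b : ℝ) + 1)) ≤ Real.log x ∧
        Real.log x ≤ (1 + δ) ^ 2 * (ln a b / ((a b : ℝ) + 1)) := by
  obtain ⟨u0, hu0⟩ := eventually_atTop.1 (hasy δ hδ)
  obtain ⟨b2, hb2⟩ := ln_short ha
  obtain ⟨n1, hn1⟩ := exists_nat_ge u0
  obtain ⟨n2, hn2⟩ := exists_nat_ge (Real.exp (Real.log 2 / δ))
  refine ⟨max (max b2 n1) (max n2 1), fun b hb x hx1 hx2 => ?_⟩
  have hbb2 : b2 ≤ b := le_trans (le_trans (le_max_left _ _) (le_max_left _ _)) hb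
  have hbn1 : n1 ≤ b := le_trans (le_trans (le_max_right _ _) (le_max_left _ _)) hb
  have hbn2 : n2 ≤ b := le_trans (le_trans (le_max_left _ _) (le_max_right _ _)) hb
  have hb1 : 1 ≤ b := le_trans (le_trans (le_max_right _ _) (le_max_right _ _)) hb
  have hge := tb_ge (a := a) b
  have h2 := tb_two (a := a) hb1
  have hbr1 : (n1 : ℝ) ≤ b := by exact_mod_cast hbn1
  have hbr2 : (n2 : ℝ) ≤ b := by exact_mod_cast hbn2
  have hab : tb a b < tb a (b + 1) := tb_mono (Nat.lt_succ_self b)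
  have hln : ln a b = tb a (b + 1) - tb a b := rfl
  have hsh := hb2 b hbb2
  set α := tb a b with hα
  set β := tb a (b + 1) with hβ
  have hN : (0 : ℝ) < (a b : ℝ) + 1 := by positivity
  have hα1 : 1 < α := by linarith
  have hlα : 0 < Real.log α := Real.log_pos hα1
  have hlβ : 0 < Real.log β := Real.log_pos (by linarith)
  -- the mass
  have hmass : ∫ u in α..β, md u = (a b : ℝ) + 1 := by
    rw [← MM_sub (by linarith) (by linarith)]
    exact MM_block b
  have hup : (a b : ℝ) + 1 ≤ (1 + δ) / Real.log α * (β - α) := by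
    rw [← hmass]
    have h3 := intervalIntegral.integral_mono_on hab.le (md_int (by linarith) (by linarith))
      (intervalIntegrable_const (c := (1 + δ) / Real.log α)) (fun u hu => by
        have h4 := (abs_le.1 (hu0 u (by linarith [hu.1]))).2
        have h5 : Real.log α ≤ Real.log u := Real.log_le_log (by linarith) hu.1
        have h6 : md u * Real.log α ≤ 1 + δ := by
          have h7 := md_nonneg (u := u) (by linarith [hu.1])
          nlinarith
        rw [le_div_iff₀ hlα]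
        exact h6)
    refine h3.trans (le_of_eq ?_)
    rw [intervalIntegral.integral_const, smul_eq_mul]
    ring
  have hlo : (1 - δ) / Real.log β * (β - α) ≤ (a b : ℝ) + 1 := by
    rw [← hmass]
    have h3 := intervalIntegral.integral_mono_on hab.le (intervalIntegrable_const (c := (1 - δ) / Real.log β))
      (md_int (by linarith) (by linarith)) (fun u hu => by
        have h4 := (abs_le.1 (hu0 u (by linarith [hu.1]))).1
        have h5 : Real.log u ≤ Real.log β := Real.log_le_log (by linarith [hu.1]) hu.2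
        have h6 : 1 - δ ≤ md u * Real.log β := by
          have h7 := md_nonneg (u := u) (by linarith [hu.1])
          nlinarith
        rw [div_le_iff₀ hlβ]
        exact h6)
    refine le_trans (le_of_eq ?_) h3
    rw [intervalIntegral.integral_const, smul_eq_mul]
    ring
  set s := ln a b / ((a b : ℝ) + 1) with hs
  have hs1 : (1 - δ) * s ≤ Real.log β := by
    rw [hs, hln, ← mul_div_assoc, div_le_iff₀ hN]
    rw [div_mul_eq_mul_div, div_le_iff₀ hlβ] at hlo
    linarith
  have hs2 : Real.log α ≤ (1 + δ) * s := by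
    rw [hs, hln, ← mul_div_assoc, le_div_iff₀ hN]
    rw [div_mul_eq_mul_div, le_div_iff₀ hlα] at hup
    linarith
  have hββ : Real.log β ≤ (1 + δ) * Real.log α := by
    have h3 : β ≤ 2 * α := by
      have h4 : √α ≤ α := by
        rw [Real.sqrt_le_left (by linarith)]
        nlinarith
      linarith
    have h5 := Real.log_le_log (by linarith) h3
    rw [Real.log_mul two_ne_zero (by linarith)] at h5
    have h6 : Real.log 2 / δ ≤ Real.log α := by
      rw [Real.le_log_iff_exp_le (by linarith)]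
      linarith
    rw [div_le_iff₀ hδ] at h6
    linarith
  have hxα : Real.log α ≤ Real.log x := Real.log_le_log (by linarith) hx1.le
  have hxβ : Real.log x ≤ Real.log β := Real.log_le_log (by linarith) hx2
  constructor
  · rw [div_mul_eq_mul_div, div_le_iff₀ (by linarith)]
    nlinarith
  · nlinarith

end

/-- the sum over the blocks -/
theorem glob_aux [Dens] [DV] {a : ℕ → ℕ} {D : ℕ → Finset ℕ} (ha : Slow a)
    (hbad : ∀ η : ℝ, 0 < η → ∀ᶠ J : ℕ in atTop,
        ∑ b ∈ (Finset.range J).filter (fun b => D b ≠ ∅), ((a b : ℝ) + 1) ≤ η * Mb a J)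
    {φ : ℝ → ℝ} (hφ : Measurable φ) (hφ1 : ∀ u, |φ u| ≤ 1)
    (hgood : ∀ η : ℝ, 0 < η → ∃ b0 : ℕ, ∀ b, b0 ≤ b → D b = ∅ → |∫ u in (tb a b)..(tb a (b + 1)), φ u| ≤ η * ln a b)
    {η : ℝ} (hη : 0 < η) : ∀ᶠ X : ℝ in atTop, |∫ u in (1 : ℝ)..X, φ u| ≤ η * X := by
  classical
  obtain ⟨b0, hb0⟩ := hgood (η / 8) (by positivity)
  obtain ⟨J0, hJ0⟩ := eventually_atTop.1 (hbad (η / 8 / 288) (by positivity))
  obtain ⟨b2, hb2⟩ := ln_short ha
  have hint : ∀ x y : ℝ, IntervalIntegrable φ volume x y := fun x y => bint hφ hφ1 x y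
  have hsq : ∀ᶠ X : ℝ in atTop, √X ≤ η / 8 * X := by
    have hs : Tendsto (fun u : ℝ => √u) atTop atTop := Real.tendsto_sqrt_atTop
    filter_upwards [hs.eventually (eventually_ge_atTop (8 / η)), eventually_gt_atTop (0 : ℝ)] with X hX hX0
    have h1 : √X * √X = X := Real.mul_self_sqrt hX0.le
    have h2 : 8 ≤ η * √X := by
      rw [div_le_iff₀ hη] at hX
      linarith
    nlinarith [Real.sqrt_nonneg X]
  filter_upwards [hsq, eventually_ge_atTop (tb a (max (max b0 J0) (max b2 1))), eventually_ge_atTop (4 : ℝ),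
    eventually_ge_atTop ((tb a b0 + tb a 1) * (8 / η))] with X hX1 hX2 hX3 hX4
  obtain ⟨J, hJ1, hJ2⟩ := exists_block (a := a) (x := X) (by linarith)
  have hJ : max (max b0 J0) (max b2 1) ≤ J := by
    by_contra h
    push Not at h
    have := (tb_mono (a := a)).monotone (show J + 1 ≤ max (max b0 J0) (max b2 1) by omega)
    linarith
  have hJb0 : b0 ≤ J := le_trans (le_trans (le_max_left _ _) (le_max_left _ _)) hJ
  have hJJ0 : J0 ≤ J := le_trans (le_trans (le_max_right _ _) (le_max_left _ _)) hJ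
  have hJb2 : b2 ≤ J := le_trans (le_trans (le_max_left _ _) (le_max_right _ _)) hJ
  have hJ1' : 1 ≤ J := le_trans (le_trans (le_max_right _ _) (le_max_right _ _)) hJ
  have hlog : 0 < Real.log X := Real.log_pos (by linarith)
  -- the length of the blocks
  have hlen : ∀ b, |∫ u in (tb a b)..(tb a (b + 1)), φ u| ≤ ln a b := by
    intro b
    have hab : tb a b < tb a (b + 1) := tb_mono (Nat.lt_succ_self b)
    have h1 := intervalIntegral.norm_integral_le_of_norm_le_const (a := tb a b) (b := tb a (b + 1)) (f := φ) (C := 1)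
      (fun u _ => hφ1 u)
    rw [one_mul, abs_of_pos (sub_pos.2 hab)] at h1
    exact h1
  have hlnn : ∀ b, 0 ≤ ln a b := fun b => (abs_nonneg _).trans (hlen b)
  -- the pointwise bound
  have hpt : ∀ b, |∫ u in (tb a b)..(tb a (b + 1)), φ u| ≤ (if b < b0 then ln a b else 0) + η / 8 * ln a b +
      (if D b ≠ ∅ then ln a b else 0) := by
    intro b
    have h0 := hlnn b
    have h8 : 0 ≤ η / 8 * ln a b := by positivity
    by_cases hb : b < b0
    · rw [if_pos hb]
      have := hlen b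
      split_ifs <;> linarith
    · rw [if_neg hb]
      push Not at hb
      by_cases hD : D b ≠ ∅
      · rw [if_pos hD]
        have := hlen b
        linarith
      · rw [if_neg hD]
        push Not at hD
        have := hb0 b hb hD
        linarith
  have hsumln : ∀ n : ℕ, ∑ b ∈ Finset.range n, ln a b = tb a n - tb a 0 := by
    intro n
    exact Finset.sum_range_sub (tb a) n
  have hs1 : ∑ b ∈ Finset.range J, (if b < b0 then ln a b else 0) ≤ tb a b0 := by
    rw [← Finset.sum_filter]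
    have h1 : (Finset.range J).filter (fun b => b < b0) = Finset.range b0 := by
      ext b
      rw [Finset.mem_filter, Finset.mem_range, Finset.mem_range]
      omega
    rw [h1, hsumln, tb_zero]
    linarith
  have hs2 : ∑ b ∈ Finset.range J, η / 8 * ln a b ≤ η / 8 * X := by
    rw [← Finset.mul_sum, hsumln, tb_zero]
    refine mul_le_mul_of_nonneg_left ?_ (by positivity)
    linarith
  have hMb : (Mb a J : ℝ) * Real.log X ≤ 6 * X := by
    have h1 : (Mb a J : ℝ) ≤ MM X := by
      rw [← MM_tb]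
      exact MM_le (tb_one_le J) hJ1
    exact (mul_le_mul_of_nonneg_right h1 hlog.le).trans (MM_log hX3)
  have hs3 : ∑ b ∈ Finset.range J, (if D b ≠ ∅ then ln a b else 0) ≤ tb a 1 + η / 8 * X := by
    have h1 : ∀ b ∈ Finset.range J, (if D b ≠ ∅ then ln a b else 0) ≤
        (if b = 0 then ln a 0 else 0) + 48 * Real.log X * (if D b ≠ ∅ then ((a b : ℝ) + 1) else 0) := by
      intro b hb
      rw [Finset.mem_range] at hb
      have hp : 0 ≤ 48 * Real.log X * (if D b ≠ ∅ then ((a b : ℝ) + 1) else 0) := by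
        split_ifs <;> positivity
      by_cases hb0' : b = 0
      · subst hb0'
        rw [if_pos rfl]
        have := hlnn 0
        split_ifs at hp ⊢ <;> linarith
      · rw [if_neg hb0', zero_add]
        split_ifs
        · have h2 := ln_up (a := a) (b := b) (by omega)
          have h3 : Real.log (tb a (b + 1)) ≤ Real.log X := by
            refine Real.log_le_log (by linarith [tb_one_le (a := a) (b + 1)]) ?_
            exact ((tb_mono (a := a)).monotone (show b + 1 ≤ J by omega)).trans hJ1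
          have h4 : (0 : ℝ) ≤ 48 * ((a b : ℝ) + 1) := by positivity
          have h5 := mul_le_mul_of_nonneg_left h3 h4
          linarith
        · simp
    refine (Finset.sum_le_sum h1).trans ?_
    rw [Finset.sum_add_distrib, ← Finset.mul_sum]
    have h2 : ∑ b ∈ Finset.range J, (if b = 0 then ln a 0 else 0) ≤ tb a 1 := by
      rw [Finset.sum_ite_eq' (Finset.range J) 0 (fun _ => ln a 0)]
      have h3 : ln a 0 = tb a 1 - tb a 0 := rfl
      rw [tb_zero] at h3
      have h4 := tb_one_le (a := a) 1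
      split_ifs <;> linarith
    have h5 := hJ0 J hJJ0
    rw [Finset.sum_filter] at h5
    have h6 : 48 * Real.log X * ∑ b ∈ Finset.range J, (if D b ≠ ∅ then ((a b : ℝ) + 1) else 0) ≤
        48 * Real.log X * (η / 8 / 288 * Mb a J) := mul_le_mul_of_nonneg_left h5 (by positivity)
    have h7 : 48 * Real.log X * (η / 8 / 288 * Mb a J) = η / 8 / 6 * ((Mb a J : ℝ) * Real.log X) := by ring
    have h8 : η / 8 / 6 * ((Mb a J : ℝ) * Real.log X) ≤ η / 8 / 6 * (6 * X) :=
      mul_le_mul_of_nonneg_left hMb (by positivity)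
    linarith
  have hmain : ∫ u in (1 : ℝ)..X, φ u = (∑ b ∈ Finset.range J, ∫ u in (tb a b)..(tb a (b + 1)), φ u) +
      ∫ u in (tb a J)..X, φ u := by
    have h1 := intervalIntegral.sum_integral_adjacent_intervals (a := fun j => tb a j) (n := J) (μ := volume)
      (f := φ) (fun k _ => hint _ _)
    simp only [tb_zero] at h1
    rw [h1]
    exact (intervalIntegral.integral_add_adjacent_intervals (hint _ _) (hint _ _)).symm
  have hlast : |∫ u in (tb a J)..X, φ u| ≤ η / 8 * X := by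
    have h1 := intervalIntegral.norm_integral_le_of_norm_le_const (a := tb a J) (b := X) (f := φ) (C := 1)
      (fun u _ => hφ1 u)
    rw [one_mul, abs_of_nonneg (sub_nonneg.2 hJ1), Real.norm_eq_abs] at h1
    have h2 := hb2 J hJb2
    have h3 : ln a J = tb a (J + 1) - tb a J := rfl
    have h4 : √(tb a J) ≤ √X := Real.sqrt_le_sqrt hJ1
    linarith
  rw [hmain]
  have hsum : |∑ b ∈ Finset.range J, ∫ u in (tb a b)..(tb a (b + 1)), φ u| ≤
      tb a b0 + η / 8 * X + (tb a 1 + η / 8 * X) := by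
    refine (Finset.abs_sum_le_sum_abs _ _).trans ((Finset.sum_le_sum fun b _ => hpt b).trans ?_)
    rw [Finset.sum_add_distrib, Finset.sum_add_distrib]
    linarith
  have hc : tb a b0 + tb a 1 ≤ η / 8 * X := by
    have h8 : (tb a b0 + tb a 1) * (8 / η) * (η / 8) = tb a b0 + tb a 1 := by
      field_simp
    have := mul_le_mul_of_nonneg_right hX4 (show 0 ≤ η / 8 by positivity)
    rw [h8] at this
    linarith
  refine (abs_add_le _ _).trans ?_
  have hX0 : 0 ≤ η / 8 * X := by positivity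
  linarith

/-- the law -/
theorem glob [Dens] [DV] {a : ℕ → ℕ} {S : ℕ → Finset ℝ} {q : ℕ → ℝ} {D : ℕ → Finset ℕ} {v : ℕ → ℝ}
    (hasy : ∀ ε : ℝ, 0 < ε → ∀ᶠ u in atTop, |md u * Real.log u - 1| ≤ ε)
    (ha : Slow a) (hS : Blocks a S) (hq : Enum a S q) (hv : ∀ b, v b ∈ Ioc (0 : ℝ) 1)
    (hY : ∀ b, D b = ∅ → 1 ≤ a b → Nm (ms (a b)) = a b + 1 ∧ S b = ((Ym (ms (a b))).image fun y =>
        y * ((tb a (b + 1) - tb a b) / Nm (ms (a b)))).image fun c => rot (tb a b) (tb a (b + 1)) c (pos (tb a b) (tb a (b + 1)) (v b)))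
    (hbad : ∀ η : ℝ, 0 < η → ∀ᶠ J : ℕ in atTop,
        ∑ b ∈ (Finset.range J).filter (fun b => D b ≠ ∅), ((a b : ℝ) + 1) ≤ η * Mb a J)
    (hms : Tendsto ms atTop atTop) (k : ℕ) (hQ : Continuous (Q k))
    (hrot : ∀ l : ℝ, 0 < l → ∀ η : ℝ, 0 < η → ∀ᶠ m : ℕ in atTop, ∀ (α β v : ℝ), α < β →
      v ∈ Ioc (0 : ℝ) 1 →
      |volume.real {x : ℝ | α < x ∧ x ≤ β ∧ nw (((Ym m).image fun y => y * ((β - α) / Nm m)).image
        fun c => rot α β c (pos α β v)) x (l * ((β - α) / Nm m)) ≤ k} - (β - α) * Q k l| ≤ η * (β - α))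
    {l : ℝ} (hl : 0 < l) :
    Tendsto (fun X : ℝ => volume.real {x : ℝ | 2 ≤ x ∧ x ≤ X ∧ cw q x (l * Real.log x) ≤ k} / X) atTop (𝓝 (Q k l)) := by
  classical
  set E : Set ℝ := {x : ℝ | cw q x (l * Real.log x) ≤ k} with hE
  have hEm : MeasurableSet E := cw_meas hq.1 hq.2.1 l k
  set P := Q k l with hP
  have hP0 : 0 ≤ P := Q_nonneg k hl.le
  have hP1 : P ≤ 1 := Q_le_one k hl.le
  set φ : ℝ → ℝ := fun u => E.indicator (fun _ => (1 : ℝ)) u - P with hφ
  have hindm : Measurable (E.indicator (fun _ => (1 : ℝ))) := measurable_const.indicator hEm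
  have hφm : Measurable φ := hindm.sub measurable_const
  have hind0 : ∀ u, 0 ≤ E.indicator (fun _ => (1 : ℝ)) u := fun u => Set.indicator_nonneg (fun _ _ => zero_le_one) u
  have hind1 : ∀ u, E.indicator (fun _ => (1 : ℝ)) u ≤ 1 := fun u => Set.indicator_le_self' (fun _ _ => zero_le_one) u
  have hφ1 : ∀ u, |φ u| ≤ 1 := by
    intro u
    rw [abs_le, hφ]
    constructor
    · have := hind0 u
      beta_reduce
      linarith
    · have := hind1 u
      beta_reduce
      linarith
  have hindI : ∀ x y : ℝ, IntervalIntegrable (E.indicator (fun _ => (1 : ℝ))) volume x y := fun x y =>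
    bint hindm (B := 1) (fun u => by rw [abs_of_nonneg (hind0 u)]; exact hind1 u) x y
  have hintE : ∀ x y : ℝ, x ≤ y → ∫ u in x..y, E.indicator (fun _ => (1 : ℝ)) u = volume.real (E ∩ Ioc x y) := by
    intro x y hxy
    rw [intervalIntegral.integral_of_le hxy, setIntegral_indicator hEm, setIntegral_const, smul_eq_mul, mul_one,
      inter_comm]
  have hφint : ∀ x y : ℝ, x ≤ y → ∫ u in x..y, φ u = volume.real (E ∩ Ioc x y) - (y - x) * P := by
    intro x y hxy
    rw [hφ, intervalIntegral.integral_sub (hindI x y) intervalIntegrable_const, hintE x y hxy,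
      intervalIntegral.integral_const, smul_eq_mul]
  have hgood : ∀ η : ℝ, 0 < η → ∃ b0 : ℕ, ∀ b, b0 ≤ b → D b = ∅ →
      |∫ u in (tb a b)..(tb a (b + 1)), φ u| ≤ η * ln a b := by
    intro η hη
    have hη3 : 0 < η / 3 := by positivity
    -- the choice of δ
    have hc1 : Tendsto (fun δ : ℝ => Q k (l * ((1 - δ) / (1 + δ)))) (𝓝 0) (𝓝 P) := by
      have h1 : Tendsto (fun δ : ℝ => l * ((1 - δ) / (1 + δ))) (𝓝 0) (𝓝 l) := by
        have h2 : ContinuousAt (fun δ : ℝ => l * ((1 - δ) / (1 + δ))) 0 := by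
          refine continuousAt_const.mul (ContinuousAt.div (by fun_prop) (by fun_prop) (by norm_num))
        have h3 := h2.tendsto
        simpa using h3
      exact (hQ.tendsto l).comp h1
    have hc2 : Tendsto (fun δ : ℝ => Q k (l * (1 + δ) ^ 2)) (𝓝 0) (𝓝 P) := by
      have h1 : Tendsto (fun δ : ℝ => l * (1 + δ) ^ 2) (𝓝 0) (𝓝 l) := by
        have h2 : ContinuousAt (fun δ : ℝ => l * (1 + δ) ^ 2) 0 := by fun_prop
        have h3 := h2.tendsto
        simpa using h3
      exact (hQ.tendsto l).comp h1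
    have e1 : ∀ᶠ δ in 𝓝 (0 : ℝ), |Q k (l * ((1 - δ) / (1 + δ))) - P| ≤ η / 3 :=
      (hc1.eventually (Metric.closedBall_mem_nhds P hη3)).mono fun δ h => by
        rwa [Real.dist_eq] at h
    have e2 : ∀ᶠ δ in 𝓝 (0 : ℝ), |Q k (l * (1 + δ) ^ 2) - P| ≤ η / 3 :=
      (hc2.eventually (Metric.closedBall_mem_nhds P hη3)).mono fun δ h => by
        rwa [Real.dist_eq] at h
    have e3 : ∀ᶠ δ in 𝓝[>] (0 : ℝ), (|Q k (l * ((1 - δ) / (1 + δ))) - P| ≤ η / 3 ∧
        |Q k (l * (1 + δ) ^ 2) - P| ≤ η / 3) ∧ δ < 1 / 2 := by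
      refine ((e1.and e2).filter_mono nhdsWithin_le_nhds).and ?_
      exact (eventually_lt_nhds (show (0 : ℝ) < 1 / 2 by norm_num)).filter_mono nhdsWithin_le_nhds
    obtain ⟨δ, ⟨⟨hd1, hd2⟩, hd3⟩, hd4⟩ := (e3.and self_mem_nhdsWithin).exists
    have hδ : 0 < δ := hd4
    set l1 : ℝ := l * ((1 - δ) / (1 + δ)) with hl1
    set l2 : ℝ := l * (1 + δ) ^ 2 with hl2
    have hl10 : 0 < l1 := mul_pos hl (div_pos (by linarith) (by linarith))
    have hl20 : 0 < l2 := by positivity
    obtain ⟨b1, hb1⟩ := spacing ha hasy hδ (by linarith)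
    have hr1 := hrot l1 hl10 (η / 3) hη3
    have hr2 := hrot l2 hl20 (η / 3) hη3
    have hmsa : Tendsto (fun b => ms (a b)) atTop atTop := hms.comp ha.2.1
    have hacast : Tendsto (fun b => ((a b : ℕ) : ℝ)) atTop atTop := tendsto_natCast_atTop_atTop.comp ha.2.1
    obtain ⟨b2, hb2⟩ := eventually_atTop.1 ((hmsa.eventually (hr1.and hr2)).and
      ((hacast.eventually (eventually_ge_atTop (l2 * 3 / η))).and (ha.2.1.eventually (eventually_ge_atTop 1))))
    refine ⟨max b1 b2, fun b hb hDb => ?_⟩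
    obtain ⟨⟨hm1, hm2⟩, hbig, ha1⟩ := hb2 b ((le_max_right _ _).trans hb)
    have hsp := hb1 b ((le_max_left _ _).trans hb)
    have hab : tb a b < tb a (b + 1) := tb_mono (Nat.lt_succ_self b)
    obtain ⟨hN, hSb⟩ := hY b hDb ha1
    have hm1' := hm1 (tb a b) (tb a (b + 1)) (v b) hab (hv b)
    have hm2' := hm2 (tb a b) (tb a (b + 1)) (v b) hab (hv b)
    rw [← hSb] at hm1' hm2'
    have hNc : ((Nm (ms (a b)) : ℕ) : ℝ) = (a b : ℝ) + 1 := by
      rw [hN]
      push_cast
      ring
    rw [hNc] at hm1' hm2'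
    have hln : ln a b = tb a (b + 1) - tb a b := rfl
    rw [← hln] at hm1' hm2'
    have hlnpos : 0 < ln a b := by rw [hln]; linarith
    have hNpos : (0 : ℝ) < (a b : ℝ) + 1 := by positivity
    have hs0 : 0 < ln a b / ((a b : ℝ) + 1) := div_pos hlnpos hNpos
    have hkey := good_block hS hq (b := b) (l := l) (m1 := l1 * (ln a b / ((a b : ℝ) + 1)))
      (m2 := l2 * (ln a b / ((a b : ℝ) + 1))) (η := η / 3) (P := P) (P1 := Q k l1) (P2 := Q k l2) (k := k)
      (fun x hx1 hx2 => by
        obtain ⟨h3, h4⟩ := hsp x hx1 hx2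
        have h5 := mul_le_mul_of_nonneg_left h3 hl.le
        have h6 := mul_le_mul_of_nonneg_left h4 hl.le
        constructor
        · rw [hl1]
          linarith
        · rw [hl2]
          linarith) (by positivity) (by
        rw [← mul_div_assoc, div_le_iff₀ hNpos]
        have h7 : l2 * 3 / η ≤ (a b : ℝ) := hbig
        rw [div_le_iff₀ hη] at h7
        have h8 : l2 ≤ η / 3 * ((a b : ℝ) + 1) := by nlinarith
        have h9 := mul_le_mul_of_nonneg_right h8 hlnpos.le
        linarith) hm1' hm2' hd1 hd2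
    rw [hφint _ _ hab.le, ← hln]
    refine hkey.trans (le_of_eq ?_)
    ring
  -- the end
  rw [Metric.tendsto_nhds]
  intro ε hε
  have hfin := glob_aux ha hbad hφm hφ1 hgood (show 0 < ε / 4 by positivity)
  filter_upwards [hfin, eventually_ge_atTop (2 : ℝ), eventually_gt_atTop (8 / ε)] with X h1 h2 h3
  have hX0 : 0 < X := by linarith
  have hset : volume.real {x : ℝ | 2 ≤ x ∧ x ≤ X ∧ cw q x (l * Real.log x) ≤ k} = volume.real (E ∩ Ioc 2 X) := by
    have h4 : {x : ℝ | 2 ≤ x ∧ x ≤ X ∧ cw q x (l * Real.log x) ≤ k} =ᵐ[volume] (E ∩ Ioc 2 X : Set ℝ) := by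
      have h5 : {x : ℝ | 2 ≤ x ∧ x ≤ X ∧ cw q x (l * Real.log x) ≤ k} = E ∩ Icc 2 X := by
        ext x
        constructor
        · rintro ⟨h6, h7, h8⟩
          exact ⟨h8, h6, h7⟩
        · rintro ⟨h8, h6, h7⟩
          exact ⟨h6, h7, h8⟩
      rw [h5]
      exact (ae_eq_refl _).inter Ioc_ae_eq_Icc.symm
    exact measureReal_congr h4
  rw [hset]
  have e1 : ∫ u in (1 : ℝ)..X, φ u = (∫ u in (1 : ℝ)..2, φ u) + ∫ u in (2 : ℝ)..X, φ u :=
    (intervalIntegral.integral_add_adjacent_intervals (bint hφm hφ1 _ _) (bint hφm hφ1 _ _)).symm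
  have e2 := hφint 2 X h2
  have e3 : |∫ u in (1 : ℝ)..2, φ u| ≤ 1 := by
    have h1 := intervalIntegral.norm_integral_le_of_norm_le_const (a := (1 : ℝ)) (b := 2) (f := φ) (C := 1)
      (fun u _ => hφ1 u)
    norm_num at h1
    exact h1
  have e4 : volume.real (E ∩ Ioc 2 X) - X * P = (∫ u in (1 : ℝ)..X, φ u) - (∫ u in (1 : ℝ)..2, φ u) - 2 * P := by
    linarith
  rw [Real.dist_eq]
  have e5 : volume.real (E ∩ Ioc 2 X) / X - P = (volume.real (E ∩ Ioc 2 X) - X * P) / X := by
    field_simp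
  rw [e5, abs_div, abs_of_pos hX0, div_lt_iff₀ hX0, e4]
  have e6 := abs_sub ((∫ u in (1 : ℝ)..X, φ u) - ∫ u in (1 : ℝ)..2, φ u) (2 * P)
  have e7 := abs_sub (∫ u in (1 : ℝ)..X, φ u) (∫ u in (1 : ℝ)..2, φ u)
  have e8 : |2 * P| ≤ 2 := by
    rw [abs_of_nonneg (by linarith)]
    linarith
  have e9 : 8 < ε * X := by
    rw [div_lt_iff₀ hε] at h3
    linarith
  linarith

end Pool.Agent.H73.KP
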