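import Pool.Agent.H49.KZ.Asy
import Pool.Agent.H49.BZ.Win

/-!
# KP, module L1 (helper49): the density is close to `1 / log u`, pointwise and in the mean
-/

set_option autoImplicit false

open MeasureTheory Filter Topology Set

namespace Pool.Agent.H73.KP

open Pool.Agent.H49.BZ (Dens MM dens nd Windows md_int nd_asymp gam_top)

/-- the density is asymptotic to `1 / log u` -/
theorem nd_lim1 {γ : ℕ → ℝ} (h0 : ∀ k, 0 < γ k) (hm : Monotone γ) (hW : Windows γ) {η : ℝ} (hη : 0 < η) :
    ∀ᶠ u : ℝ in atTop, |nd γ u * Real.log u - 1| ≤ η := nd_asymp h0 (gam_top h0 hm hW) hη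

theorem nd_L1_int {γ : ℕ → ℝ} (h0 : ∀ k, 0 < γ k) {a b : ℝ} (ha : 2 ≤ a) (hb : 2 ≤ b) :
    IntervalIntegrable (fun u => |nd γ u * Real.log u - 1|) volume a b := by
  let _ : Dens := dens γ h0
  have h1 : IntervalIntegrable (nd γ) volume a b := md_int (by linarith) (by linarith)
  have h2 : ContinuousOn Real.log (uIcc a b) := by
    intro u hu
    have hu2 : 2 ≤ u := by
      rcases Set.mem_uIcc.1 hu with h | h <;> linarith [h.1]
    exact (Real.continuousAt_log (by linarith)).continuousWithinAt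
  exact ((h1.mul_continuousOn h2).sub intervalIntegrable_const).abs

theorem nd_L1 {γ : ℕ → ℝ} (h0 : ∀ k, 0 < γ k) (hm : Monotone γ) (hW : Windows γ) {η : ℝ} (hη : 0 < η) :
    ∀ᶠ X : ℝ in atTop, ∫ u in (2 : ℝ)..X, |nd γ u * Real.log u - 1| ≤ η * X := by
  obtain ⟨B, hB⟩ := (nd_lim1 h0 hm hW (half_pos hη)).exists_forall_of_atTop
  set B' := max B 2 with hB'
  have hB2 : 2 ≤ B' := le_max_right _ _
  have hBB : B ≤ B' := le_max_left _ _
  set c : ℝ := ∫ u in (2 : ℝ)..B', |nd γ u * Real.log u - 1| with hc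
  filter_upwards [eventually_ge_atTop B', eventually_ge_atTop (2 * c / η)] with X hX hX2
  rw [← intervalIntegral.integral_add_adjacent_intervals (nd_L1_int h0 le_rfl hB2)
    (nd_L1_int h0 hB2 (hB2.trans hX))]
  have h1 := intervalIntegral.integral_mono_on hX (nd_L1_int h0 hB2 (hB2.trans hX))
    (intervalIntegrable_const (c := η / 2)) (fun u hu => hB u (hBB.trans hu.1))
  rw [intervalIntegral.integral_const, smul_eq_mul] at h1
  rw [div_le_iff₀ hη] at hX2
  have h2 : (X - B') * (η / 2) ≤ X * (η / 2) := mul_le_mul_of_nonneg_right (by linarith) (by linarith)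
  linarith

end Pool.Agent.H73.KP
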