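import Pool.Agent.H73.KP.Defs
import Pool.Agent.H73.KT.Mov

/-!
# KP: moving few points to the right does not change the Poisson law
-/

set_option autoImplicit false

open MeasureTheory Filter Topology Set

namespace Pool.Agent.H73.KP

open Pool.Agent.H49.BP (pc pc_set lt_pc pc_mono)
open Pool.Agent.H73.KT (Moved moved_hg moved_pc le_fin)

theorem cw_eqM {q : ℕ → ℝ} (hq : StrictMono q) (hg : ∀ n : ℕ, (n : ℝ) + 1 ≤ q n) (x μ : ℝ) :
    cw q x μ = pc q (x + μ) - pc q x := by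
  unfold cw
  have h : {n : ℕ | x < q n ∧ q n ≤ x + μ} = ↑(Finset.Ico (pc q x) (pc q (x + μ))) := by
    ext n
    rw [mem_ofPred_eq, Finset.mem_coe, Finset.mem_Ico, lt_pc hq hg, ← not_lt (a := n), lt_pc hq hg,
      not_le]
  rw [h, ncard_coe_finset, Nat.card_Ico]

theorem cw_measM {q : ℕ → ℝ} (hq : StrictMono q) (hg : ∀ n : ℕ, (n : ℝ) + 1 ≤ q n) (l : ℝ) :
    Measurable fun x : ℝ => cw q x (l * Real.log x) := by
  have h1 : Measurable (pc q) := (pc_mono hq hg).measurable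
  have h2 : (fun x : ℝ => cw q x (l * Real.log x)) = fun x => pc q (x + l * Real.log x) - pc q x := by
    funext x
    exact cw_eqM hq hg x _
  rw [h2]
  have h3 : Measurable fun x : ℝ => x + l * Real.log x :=
    measurable_id.add (Real.measurable_log.const_mul l)
  exact (h1.comp h3).sub h1

section
variable {q q' : ℕ → ℝ} (hq : StrictMono q) (hg : ∀ n : ℕ, (n : ℝ) + 1 ≤ q n) (hm : Moved q q')

include hm in
/-- if the numbers of the points in the window differ, then a moved point is near -/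
theorem near {l X : ℝ} (hl : 0 < l) {x : ℝ} (h2 : 2 ≤ x) (hX : x ≤ X)
    (hne : cw q x (l * Real.log x) ≠ cw q' x (l * Real.log x)) :
    ∃ n, (q n ≤ X + l * Real.log X ∧ q' n ≠ q n) ∧
      (x ∈ Icc (q n - l * Real.log X) (q n) ∨ x ∈ Icc (q' n - l * Real.log X) (q' n)) := by
  by_contra hcon
  push Not at hcon
  apply hne
  have hlog : l * Real.log x ≤ l * Real.log X :=
    mul_le_mul_of_nonneg_left (Real.log_le_log (by linarith) hX) hl.le
  unfold cw
  congr 1
  ext n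
  rw [mem_ofPred_eq, mem_ofPred_eq]
  by_cases hn : q' n = q n
  · rw [hn]
  · have hqq := hm.2.1 n
    constructor
    · rintro ⟨h3, h4⟩
      exact absurd ⟨by linarith, h3.le⟩ (hcon n ⟨by linarith, hn⟩).1
    · rintro ⟨h3, h4⟩
      exact absurd ⟨by linarith, h3.le⟩ (hcon n ⟨by linarith, hn⟩).2

include hq hg hm in
/-- the two distribution functions are close -/
theorem vol_close {B : ℝ} (hB : ∀ x : ℝ, 1 ≤ x → ({n : ℕ | q n ≤ x ∧ q' n ≠ q n}.ncard : ℝ) ≤ B * √x)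
    {l : ℝ} (hl : 0 < l) (k : ℕ) {X : ℝ} (hX : 2 ≤ X) :
    |volume.real {x : ℝ | 2 ≤ x ∧ x ≤ X ∧ cw q' x (l * Real.log x) ≤ k} -
      volume.real {x : ℝ | 2 ≤ x ∧ x ≤ X ∧ cw q x (l * Real.log x) ≤ k}| ≤
      B * √(X + l * Real.log X) * (2 * (l * Real.log X)) := by
  have hlX : 0 ≤ l * Real.log X := mul_nonneg hl.le (Real.log_nonneg (by linarith))
  set μ := l * Real.log X with hμ
  have hfin : {n : ℕ | q n ≤ X + μ ∧ q' n ≠ q n}.Finite := (le_fin hq hg _).subset fun n hn => hn.1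
  set W : Set ℝ := ⋃ n ∈ hfin.toFinset, (Icc (q n - μ) (q n) ∪ Icc (q' n - μ) (q' n)) with hW
  have hWv : volume.real W ≤ B * √(X + μ) * (2 * μ) := by
    refine (measureReal_biUnion_finset_le _ _).trans ?_
    have h1 : ∀ n ∈ hfin.toFinset, volume.real (Icc (q n - μ) (q n) ∪ Icc (q' n - μ) (q' n)) ≤
        2 * μ := by
      intro n _
      refine (measureReal_union_le _ _).trans ?_
      rw [Real.volume_real_Icc_of_le (by linarith), Real.volume_real_Icc_of_le (by linarith)]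
      linarith
    refine (Finset.sum_le_sum h1).trans ?_
    rw [Finset.sum_const, nsmul_eq_mul]
    refine mul_le_mul_of_nonneg_right ?_ (by linarith)
    have h2 := hB (X + μ) (by linarith)
    rw [ncard_eq_toFinset_card _ hfin] at h2
    exact h2
  have hWf : volume W ≠ ⊤ := by
    refine ne_top_of_le_ne_top ?_ (measure_biUnion_finset_le _ _)
    refine ENNReal.sum_ne_top.2 fun n _ => ?_
    exact ((measure_union_lt_top measure_Icc_lt_top measure_Icc_lt_top).ne)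
  have hI : ∀ r : ℕ → ℝ, volume {x : ℝ | 2 ≤ x ∧ x ≤ X ∧ cw r x (l * Real.log x) ≤ k} ≠ ⊤ :=
    fun r => ne_top_of_le_ne_top (measure_Icc_lt_top (a := (2 : ℝ)) (b := X)).ne
      (measure_mono fun x hx => ⟨hx.1, hx.2.1⟩)
  have hcov : ∀ x : ℝ, 2 ≤ x → x ≤ X →
      cw q x (l * Real.log x) ≠ cw q' x (l * Real.log x) → x ∈ W := by
    intro x h2 hx hne
    obtain ⟨n, hn, hxn⟩ := near hm hl h2 hx hne
    rw [hW, mem_iUnion₂]
    exact ⟨n, hfin.mem_toFinset.2 hn, hxn⟩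
  have hab : ∀ r r' : ℕ → ℝ, (∀ x : ℝ, 2 ≤ x → x ≤ X →
      cw r x (l * Real.log x) ≠ cw r' x (l * Real.log x) → x ∈ W) →
      volume.real {x : ℝ | 2 ≤ x ∧ x ≤ X ∧ cw r x (l * Real.log x) ≤ k} ≤
        volume.real {x : ℝ | 2 ≤ x ∧ x ≤ X ∧ cw r' x (l * Real.log x) ≤ k} + volume.real W := by
    intro r r' h
    refine (measureReal_mono (s₂ := {x : ℝ | 2 ≤ x ∧ x ≤ X ∧ cw r' x (l * Real.log x) ≤ k} ∪ W)
      ?_ (measure_union_lt_top (hI r').lt_top hWf.lt_top).ne).trans (measureReal_union_le _ _)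
    intro x hx
    by_cases hne : cw r x (l * Real.log x) = cw r' x (l * Real.log x)
    · left
      refine ⟨hx.1, hx.2.1, ?_⟩
      rw [← hne]
      exact hx.2.2
    · right
      exact h x hx.1 hx.2.1 hne
  have h1 := hab q' q fun x h2 hx hne => hcov x h2 hx hne.symm
  have h2 := hab q q' hcov
  rw [abs_le]
  constructor <;> linarith

end

theorem moved_poisson {q q' : ℕ → ℝ} (hq : StrictMono q) (hg : ∀ n : ℕ, (n : ℝ) + 1 ≤ q n) (hm : Moved q q')
    {l : ℝ} (hl : 0 < l) (k : ℕ) {A : ℝ}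
    (h : Tendsto (fun X : ℝ => volume.real {x : ℝ | 2 ≤ x ∧ x ≤ X ∧ cw q x (l * Real.log x) ≤ k} / X) atTop (𝓝 A)) :
    Tendsto (fun X : ℝ => volume.real {x : ℝ | 2 ≤ x ∧ x ≤ X ∧ cw q' x (l * Real.log x) ≤ k} / X) atTop (𝓝 A) := by
  obtain ⟨B, hB0, hB⟩ := hm.2.2
  have h1 : Tendsto (fun X : ℝ => Real.log X / X ^ (1 / 2 : ℝ)) atTop (𝓝 0) :=
    (isLittleO_log_rpow_atTop (by norm_num)).tendsto_div_nhds_zero
  have h2 : Tendsto (fun X : ℝ => 2 * l * B * √(1 + l) * (Real.log X / X ^ (1 / 2 : ℝ))) atTop (𝓝 0) := by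
    have := h1.const_mul (2 * l * B * √(1 + l))
    rwa [mul_zero] at this
  have h3 : Tendsto (fun X : ℝ =>
      volume.real {x : ℝ | 2 ≤ x ∧ x ≤ X ∧ cw q' x (l * Real.log x) ≤ k} / X -
        volume.real {x : ℝ | 2 ≤ x ∧ x ≤ X ∧ cw q x (l * Real.log x) ≤ k} / X) atTop (𝓝 0) := by
    refine squeeze_zero_norm' ?_ h2
    filter_upwards [eventually_ge_atTop (2 : ℝ)] with X hX
    have hX0 : 0 < X := by linarith
    have h4 := vol_close hq hg hm hB hl k hX
    have hlX : 0 ≤ Real.log X := Real.log_nonneg (by linarith)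
    have hlX2 : Real.log X ≤ X := (Real.log_le_sub_one_of_pos hX0).trans (by linarith)
    have h5 : √(X + l * Real.log X) ≤ √(1 + l) * √X := by
      rw [← Real.sqrt_mul (by linarith)]
      refine Real.sqrt_le_sqrt ?_
      nlinarith
    have h6 : √X * √X = X := Real.mul_self_sqrt hX0.le
    have h7 : 0 < √X := Real.sqrt_pos.2 hX0
    rw [Real.norm_eq_abs, ← sub_div, abs_div, abs_of_pos hX0, div_le_iff₀ hX0]
    refine h4.trans ?_
    have h8 : X ^ (1 / 2 : ℝ) = √X := (Real.sqrt_eq_rpow X).symm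
    rw [h8]
    have h9 : 2 * l * B * √(1 + l) * (Real.log X / √X) * X =
        B * (√(1 + l) * √X) * (2 * (l * Real.log X)) := by
      have h10 : Real.log X / √X * X = Real.log X * √X := by
        rw [div_mul_eq_mul_div, div_eq_iff h7.ne', mul_assoc, h6]
      calc 2 * l * B * √(1 + l) * (Real.log X / √X) * X =
          2 * l * B * √(1 + l) * (Real.log X / √X * X) := by ring
        _ = _ := by rw [h10]; ring
    rw [h9]
    exact mul_le_mul_of_nonneg_right (mul_le_mul_of_nonneg_left h5 hB0)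
      (mul_nonneg (by norm_num) (mul_nonneg hl.le hlX))
  have h4 := h3.add h
  rw [zero_add] at h4
  refine h4.congr fun X => ?_
  ring

/-- from the distribution function to the single probabilities (`q'` strictly increasing, `k + 1 ≤ q' k`) -/
theorem single {q : ℕ → ℝ} (hq : StrictMono q) (hg : ∀ n : ℕ, (n : ℝ) + 1 ≤ q n) {l : ℝ} (hl : 0 < l)
    (h : ∀ k : ℕ, Tendsto (fun X : ℝ => volume.real {x : ℝ | 2 ≤ x ∧ x ≤ X ∧ cw q x (l * Real.log x) ≤ k} / X) atTop
      (𝓝 (Q k l))) (k : ℕ) :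
    Tendsto (fun X : ℝ => volume.real {x : ℝ | 2 ≤ x ∧ x ≤ X ∧ cw q x (l * Real.log x) = k} / X) atTop
      (𝓝 (Real.exp (-l) * l ^ k / (k.factorial : ℝ))) := by
  rcases k with _ | k
  · have h0 := h 0
    have e : Q 0 l = Real.exp (-l) * l ^ 0 / ((Nat.factorial 0 : ℕ) : ℝ) := by
      unfold Q
      rw [zero_add, Finset.sum_range_one]
    rw [e] at h0
    refine h0.congr fun X => ?_
    congr 2
    ext x
    simp only [mem_ofPred_eq, Nat.le_zero]
  · have h1 := (h (k + 1)).sub (h k)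
    have e : Q (k + 1) l - Q k l = Real.exp (-l) * l ^ (k + 1) / ((k + 1).factorial : ℝ) := by
      unfold Q
      rw [Finset.sum_range_succ _ (k + 1), add_sub_cancel_left]
    rw [e] at h1
    refine h1.congr fun X => ?_
    rw [← sub_div]
    congr 1
    have hm : MeasurableSet {x : ℝ | 2 ≤ x ∧ x ≤ X ∧ cw q x (l * Real.log x) ≤ k} := by
      have h2 : {x : ℝ | 2 ≤ x ∧ x ≤ X ∧ cw q x (l * Real.log x) ≤ k} =
          Icc 2 X ∩ (fun x => cw q x (l * Real.log x)) ⁻¹' Iic k := by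
        ext x
        exact ⟨fun hx => ⟨⟨hx.1, hx.2.1⟩, hx.2.2⟩, fun hx => ⟨hx.1.1, hx.1.2, hx.2⟩⟩
      rw [h2]
      exact measurableSet_Icc.inter (cw_measM hq hg l measurableSet_Iic)
    have hsub : {x : ℝ | 2 ≤ x ∧ x ≤ X ∧ cw q x (l * Real.log x) ≤ k} ⊆
        {x : ℝ | 2 ≤ x ∧ x ≤ X ∧ cw q x (l * Real.log x) ≤ k + 1} :=
      fun x hx => ⟨hx.1, hx.2.1, hx.2.2.trans (Nat.le_succ k)⟩
    have hf : volume {x : ℝ | 2 ≤ x ∧ x ≤ X ∧ cw q x (l * Real.log x) ≤ k + 1} ≠ ⊤ :=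
      ne_top_of_le_ne_top (measure_Icc_lt_top (a := (2 : ℝ)) (b := X)).ne
        (measure_mono fun x hx => ⟨hx.1, hx.2.1⟩)
    rw [← measureReal_sdiff hsub hm hf]
    congr 1
    ext x
    simp only [Set.mem_sdiff, mem_ofPred_eq]
    constructor
    · rintro ⟨⟨h2, h3, h4⟩, h5⟩
      refine ⟨h2, h3, ?_⟩
      by_contra h6
      exact h5 ⟨h2, h3, by omega⟩
    · rintro ⟨h2, h3, h4⟩
      refine ⟨⟨h2, h3, by omega⟩, fun h5 => ?_⟩
      have := h5.2.2
      omega

end Pool.Agent.H73.KP
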