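import Pool.Agent.H73.KP.Defs
import Pool.Agent.H73.KT.Off

/-!
# KP, module Off2 (helper82): the special configuration
-/

set_option autoImplicit false

open MeasureTheory Filter Topology Set

namespace Pool.Agent.H73.KP

open Pool.Agent.H73.TR (rot un)
open Pool.Agent.H73.KT (pat mult mx Mb off pos cnt Slow tc)

/-- `yp m f i` times `m (m + 1)` -/
noncomputable def zp (m : ℕ) (f : Fin m → Fin (m ^ 2)) (i : Fin m) : ℕ :=
  (m + 1) * (m ^ 2 * idx m f + (f i : ℕ)) + ((i : ℕ) + 1)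

theorem yp_zp {m : ℕ} (hm : 1 ≤ m) (f : Fin m → Fin (m ^ 2)) (i : Fin m) :
    yp m f i = (zp m f i : ℝ) / ((m : ℝ) * (m + 1)) := by
  have h1 : (0 : ℝ) < m := by exact_mod_cast hm
  unfold yp zp
  push_cast
  field_simp
  ring

theorem zp_inj {m : ℕ} {f f' : Fin m → Fin (m ^ 2)} {i i' : Fin m} (h : zp m f i = zp m f' i') :
    f = f' ∧ i = i' := by
  have hi := i.2
  have hi' := i'.2
  have h1 : zp m f i % (m + 1) = (i : ℕ) + 1 := by
    unfold zp
    rw [Nat.mul_add_mod, Nat.mod_eq_of_lt (by omega)]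
  have h1' : zp m f' i' % (m + 1) = (i' : ℕ) + 1 := by
    unfold zp
    rw [Nat.mul_add_mod, Nat.mod_eq_of_lt (by omega)]
  have h2 : zp m f i / (m + 1) = m ^ 2 * idx m f + (f i : ℕ) := by
    unfold zp
    rw [Nat.mul_add_div (by omega), Nat.div_eq_of_lt (by omega : (i : ℕ) + 1 < m + 1), add_zero]
  have h2' : zp m f' i' / (m + 1) = m ^ 2 * idx m f' + (f' i' : ℕ) := by
    unfold zp
    rw [Nat.mul_add_div (by omega), Nat.div_eq_of_lt (by omega : (i' : ℕ) + 1 < m + 1), add_zero]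
  rw [h, h1'] at h1
  rw [h, h2'] at h2
  have hpos : 0 < m ^ 2 := (Nat.zero_le _).trans_lt (f i).2
  have h3 : idx m f' = idx m f := by
    have h4 := congrArg (fun x => x / m ^ 2) h2
    rw [Nat.mul_add_div hpos, Nat.mul_add_div hpos, Nat.div_eq_of_lt (f i).2,
      Nat.div_eq_of_lt (f' i').2, add_zero, add_zero] at h4
    exact h4
  refine ⟨?_, Fin.ext (by omega)⟩
  unfold idx at h3
  exact (Fintype.equivFin _).injective (Fin.ext h3.symm)

theorem zp_le {m : ℕ} (f : Fin m → Fin (m ^ 2)) (i : Fin m) :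
    zp m f i + 1 ≤ Nm m * (m * (m + 1)) := by
  have hi := i.2
  have h1 : idx m f < (m ^ 2) ^ m := by
    have h2 : idx m f < Fintype.card (Fin m → Fin (m ^ 2)) := (Fintype.equivFin _ f).2
    rwa [Fintype.card_fun, Fintype.card_fin, Fintype.card_fin] at h2
  have h3 := (f i).2
  have h4 : m ^ 2 * idx m f + (f i : ℕ) + 1 ≤ m ^ 2 * (m ^ 2) ^ m := by
    have h5 : m ^ 2 * (idx m f + 1) ≤ m ^ 2 * (m ^ 2) ^ m := Nat.mul_le_mul_left _ h1
    rw [mul_add, mul_one] at h5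
    omega
  have h6 : (m + 1) * (m ^ 2 * idx m f + (f i : ℕ) + 1) ≤ (m + 1) * (m ^ 2 * (m ^ 2) ^ m) :=
    Nat.mul_le_mul_left _ h4
  have h7 : Nm m * (m * (m + 1)) = (m + 1) * (m ^ 2 * (m ^ 2) ^ m) := by
    unfold Nm
    ring
  unfold zp
  rw [h7]
  rw [mul_add, mul_one] at h6
  omega

theorem mem_Ym {m : ℕ} (hm : 1 ≤ m) {y : ℝ} (hy : y ∈ Ym m) :
    ∃ z : ℕ, 1 ≤ z ∧ z + 1 ≤ Nm m * (m * (m + 1)) ∧ y = (z : ℝ) / ((m : ℝ) * (m + 1)) := by
  unfold Ym at hy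
  rw [Finset.mem_image] at hy
  obtain ⟨⟨f, i⟩, _, rfl⟩ := hy
  exact ⟨zp m f i, by unfold zp; omega, zp_le f i, yp_zp hm f i⟩

theorem Ym_card {m : ℕ} (hm : 1 ≤ m) : (Ym m).card = Nm m := by
  have h0 : (0 : ℝ) < m := by exact_mod_cast hm
  unfold Ym
  rw [Finset.card_image_of_injective]
  · rw [Finset.card_univ, Fintype.card_prod, Fintype.card_fun, Fintype.card_fin, Fintype.card_fin]
    unfold Nm
    ring
  · rintro ⟨f, i⟩ ⟨f', i'⟩ h
    have h1 : yp m f i = yp m f' i' := h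
    rw [yp_zp hm, yp_zp hm] at h1
    have h2 : (0 : ℝ) < (m : ℝ) * (m + 1) := by positivity
    rw [div_left_inj' h2.ne'] at h1
    have h3 : zp m f i = zp m f' i' := by exact_mod_cast h1
    obtain ⟨h4, h5⟩ := zp_inj h3
    rw [h4, h5]

theorem Ym_mem {m : ℕ} (hm : 1 ≤ m) {y : ℝ} (hy : y ∈ Ym m) :
    1 / ((m : ℝ) * (m + 1)) ≤ y ∧ y + 1 / ((m : ℝ) * (m + 1)) ≤ Nm m := by
  have h0 : (0 : ℝ) < m := by exact_mod_cast hm
  have h2 : (0 : ℝ) < (m : ℝ) * (m + 1) := by positivity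
  obtain ⟨z, hz1, hz2, rfl⟩ := mem_Ym hm hy
  have h3 : (1 : ℝ) ≤ z := by exact_mod_cast hz1
  have h4 : (z : ℝ) + 1 ≤ Nm m * ((m : ℝ) * (m + 1)) := by exact_mod_cast hz2
  refine ⟨div_le_div_of_nonneg_right h3 h2.le, ?_⟩
  rw [← add_div, div_le_iff₀ h2]
  exact h4

theorem Ym_sep {m : ℕ} (hm : 1 ≤ m) {y y' : ℝ} (hy : y ∈ Ym m) (hy' : y' ∈ Ym m) (h : y < y') :
    y + 1 / ((m : ℝ) * (m + 1)) ≤ y' := by
  have h0 : (0 : ℝ) < m := by exact_mod_cast hm
  have h2 : (0 : ℝ) < (m : ℝ) * (m + 1) := by positivity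
  obtain ⟨z, _, _, rfl⟩ := mem_Ym hm hy
  obtain ⟨z', _, _, rfl⟩ := mem_Ym hm hy'
  rw [div_lt_div_iff_of_pos_right h2] at h
  have h3 : z < z' := by exact_mod_cast h
  have h4 : (z : ℝ) + 1 ≤ z' := by exact_mod_cast h3
  rw [← add_div]
  exact div_le_div_of_nonneg_right h4 h2.le

theorem Nm_strict : StrictMono Nm := by
  refine strictMono_nat_of_lt_succ fun m => ?_
  unfold Nm
  have h1 : (m ^ 2) ^ m ≤ ((m + 1) ^ 2) ^ (m + 1) :=
    (Nat.pow_le_pow_left (Nat.pow_le_pow_left (Nat.le_succ m) 2) m).trans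
      (Nat.pow_le_pow_right (by positivity) (Nat.le_succ m))
  have h2 : 0 < ((m + 1) ^ 2) ^ (m + 1) := by positivity
  calc m * (m ^ 2) ^ m ≤ m * ((m + 1) ^ 2) ^ (m + 1) := Nat.mul_le_mul_left _ h1
    _ < (m + 1) * ((m + 1) ^ 2) ^ (m + 1) := Nat.mul_lt_mul_of_pos_right (Nat.lt_succ_self m) h2

theorem Nm_mono {m m' : ℕ} (h : m ≤ m') : Nm m ≤ Nm m' := Nm_strict.monotone h

theorem Nm_ge (m : ℕ) : m ≤ Nm m := Nm_strict.le_apply

theorem Nm_one : Nm 1 = 1 := by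
  unfold Nm
  norm_num

/-- `φ a = Nm (ms a) - 1` -/
theorem ms_facts (a : ℕ) : 1 ≤ ms a ∧ Nm (ms a) ≤ a + 1 ∧ ms (Nm (ms a) - 1) = ms a := by
  have h1 : 1 ≤ ms a := by
    unfold ms
    refine Nat.le_findGreatest (by omega) ?_
    rw [Nm_one]
    omega
  have h2 : Nm (ms a) ≤ a + 1 := by
    have h3 := Nat.findGreatest_spec (P := fun m => Nm m ≤ a + 1) (m := 1) (n := a + 1) (by omega)
      (by simp only [Nm_one]; omega)
    exact h3
  refine ⟨h1, h2, ?_⟩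
  have h4 : 1 ≤ Nm (ms a) := h1.trans (Nm_ge _)
  have h5 : Nm (ms a) - 1 + 1 = Nm (ms a) := by omega
  apply le_antisymm
  · have h6 := Nat.findGreatest_spec (P := fun m => Nm m ≤ Nm (ms a) - 1 + 1) (m := 1)
      (n := Nm (ms a) - 1 + 1) (by omega) (by simp only [Nm_one]; omega)
    have h7 : Nm (ms (Nm (ms a) - 1)) ≤ Nm (ms a) := by
      rw [h5] at h6
      show Nm (Nat.findGreatest (fun m => Nm m ≤ Nm (ms a) - 1 + 1) (Nm (ms a) - 1 + 1)) ≤ Nm (ms a)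
      rw [h5]
      exact h6
    exact Nm_strict.le_iff_le.1 h7
  · show ms a ≤ Nat.findGreatest (fun m => Nm m ≤ Nm (ms a) - 1 + 1) (Nm (ms a) - 1 + 1)
    rw [h5]
    exact Nat.le_findGreatest (Nm_ge _) le_rfl

theorem ms_mono : Monotone ms := by
  intro a b hab
  unfold ms
  exact Nat.findGreatest_mono (fun m (hm : Nm m ≤ a + 1) => hm.trans (by omega)) (by omega)

theorem ms_top : Tendsto ms atTop atTop := by
  rw [tendsto_atTop]
  intro m
  filter_upwards [eventually_ge_atTop (Nm m)] with a ha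
  unfold ms
  exact Nat.le_findGreatest ((Nm_ge m).trans (by omega)) (by omega)

section
variable {a : ℕ} {α β : ℝ} (hαβ : α < β) (hL : a ≠ 0 → 2 * ((a : ℝ) + 2) ^ 2 ≤ β - α) {D : Finset ℕ}
  (hD : D ∈ insert ∅ (pat a))

/-- the special offsets: a multiple `d ≥ a + 2` such that all offsets are between `d` and `L - d` and have the distances at
least `d` -/
theorem sp_facts {a : ℕ} {L : ℝ} (h : Nm (ms a) = a + 1)
    (h2 : ((a : ℝ) + 2) ^ 2 * ((ms a : ℝ) + 1) ^ 2 ≤ L) :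
    ∃ d : ℝ, (a : ℝ) + 2 ≤ d ∧
      (∀ c ∈ (Ym (ms a)).image fun y => y * (L / ((a : ℝ) + 1)), d ≤ c ∧ c + d ≤ L) ∧
      (∀ c ∈ (Ym (ms a)).image fun y => y * (L / ((a : ℝ) + 1)),
        ∀ c' ∈ (Ym (ms a)).image fun y => y * (L / ((a : ℝ) + 1)), c < c' → c + d ≤ c') := by
  have ha0 : (0 : ℝ) ≤ a := Nat.cast_nonneg a
  have hm1 := (ms_facts a).1
  have hm : (0 : ℝ) < ms a := by exact_mod_cast hm1
  set m : ℕ := ms a with hmdef
  have hs : (0 : ℝ) < L / ((a : ℝ) + 1) := by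
    refine div_pos (lt_of_lt_of_le ?_ h2) (by linarith)
    positivity
  have hN : (Nm m : ℝ) = a + 1 := by exact_mod_cast h
  refine ⟨1 / ((m : ℝ) * (m + 1)) * (L / ((a : ℝ) + 1)), ?_, ?_, ?_⟩
  · rw [div_mul_div_comm, one_mul, le_div_iff₀ (by positivity)]
    refine le_trans ?_ h2
    have h3 : ((a : ℝ) + 2) * ((a : ℝ) + 1) ≤ ((a : ℝ) + 2) ^ 2 := by nlinarith
    have h4 : (m : ℝ) * (m + 1) ≤ ((m : ℝ) + 1) ^ 2 := by nlinarith
    calc ((a : ℝ) + 2) * ((m : ℝ) * (m + 1) * ((a : ℝ) + 1)) =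
        (((a : ℝ) + 2) * ((a : ℝ) + 1)) * ((m : ℝ) * (m + 1)) := by ring
      _ ≤ ((a : ℝ) + 2) ^ 2 * ((m : ℝ) + 1) ^ 2 :=
        mul_le_mul h3 h4 (by positivity) (by positivity)
  · intro c hc
    rw [Finset.mem_image] at hc
    obtain ⟨y, hy, rfl⟩ := hc
    obtain ⟨h3, h4⟩ := Ym_mem hm1 hy
    refine ⟨mul_le_mul_of_nonneg_right h3 hs.le, ?_⟩
    rw [← add_mul]
    calc (y + 1 / ((m : ℝ) * (m + 1))) * (L / ((a : ℝ) + 1)) ≤ (Nm m : ℝ) * (L / ((a : ℝ) + 1)) :=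
        mul_le_mul_of_nonneg_right h4 hs.le
      _ = L := by
        rw [hN]
        field_simp
  · intro c hc c' hc' hlt
    rw [Finset.mem_image] at hc hc'
    obtain ⟨y, hy, rfl⟩ := hc
    obtain ⟨y', hy', rfl⟩ := hc'
    have h3 : y < y' := lt_of_mul_lt_mul_right hlt hs.le
    rw [← add_mul]
    exact mul_le_mul_of_nonneg_right (Ym_sep hm1 hy hy' h3) hs.le

include hαβ hL hD

theorem off2_card : (off2 a (β - α) D).card = a + 1 := by
  unfold off2
  split_ifs with h1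
  · subst h1
    unfold sp
    split_ifs with h2
    · have ha0 : (0 : ℝ) ≤ a := Nat.cast_nonneg a
      have hs : (0 : ℝ) < (β - α) / ((a : ℝ) + 1) := div_pos (by linarith) (by linarith)
      rw [Finset.card_image_of_injective, Ym_card (ms_facts a).1, h2.1]
      intro x y hxy
      exact mul_right_cancel₀ hs.ne' hxy
    · exact Pool.Agent.H73.KT.off_card hαβ hL hD
  · exact Pool.Agent.H73.KT.off_card hαβ hL hD

theorem off2_mem {c : ℝ} (hc : c ∈ off2 a (β - α) D) : 0 ≤ c ∧ c < β - α := by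
  have ha0 : (0 : ℝ) ≤ a := Nat.cast_nonneg a
  unfold off2 at hc
  split_ifs at hc with h1
  · subst h1
    unfold sp at hc
    split_ifs at hc with h2
    · obtain ⟨d, hd, h3, _⟩ := sp_facts h2.1 h2.2
      obtain ⟨h4, h5⟩ := h3 c hc
      constructor <;> linarith
    · exact Pool.Agent.H73.KT.off_mem hαβ hL hD hc
  · exact Pool.Agent.H73.KT.off_mem hαβ hL hD hc

theorem off2_sep {c c' : ℝ} (hc : c ∈ off2 a (β - α) D) (hc' : c' ∈ off2 a (β - α) D) (h : c < c') :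
    c + 1 ≤ c' ∧ c' + 1 ≤ c + (β - α) := by
  have ha0 : (0 : ℝ) ≤ a := Nat.cast_nonneg a
  unfold off2 at hc hc'
  split_ifs at hc hc' with h1
  · subst h1
    unfold sp at hc hc'
    split_ifs at hc hc' with h2
    · obtain ⟨d, hd, h3, h4⟩ := sp_facts h2.1 h2.2
      have h5 := h3 c hc
      have h6 := h3 c' hc'
      have h7 := h4 c hc c' hc' h
      constructor <;> linarith
    · exact Pool.Agent.H73.KT.off_sep hαβ hL hD hc hc' h
  · exact Pool.Agent.H73.KT.off_sep hαβ hL hD hc hc' h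

theorem off2_diff {c c' : ℝ} (hc : c ∈ off2 a (β - α) D) (hc' : c' ∈ off2 a (β - α) D) {e : ℕ} (he1 : 1 ≤ e) (he : e ≤ a)
    (h : c' - c = e ∨ c' - c = e - (β - α) ∨ c' - c = e + (β - α)) :
    c' - c = e ∧ (∃ t ∈ D, c = (t : ℝ)) ∧ ∃ t ∈ D, c' = (t : ℝ) := by
  have ha0 : (0 : ℝ) ≤ a := Nat.cast_nonneg a
  have he1' : (1 : ℝ) ≤ e := by exact_mod_cast he1
  have he' : (e : ℝ) ≤ a := by exact_mod_cast he
  unfold off2 at hc hc'
  split_ifs at hc hc' with h1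
  · subst h1
    unfold sp at hc hc'
    split_ifs at hc hc' with h2
    · exfalso
      obtain ⟨d, hd, h3, h4⟩ := sp_facts h2.1 h2.2
      have h5 := h3 c hc
      have h6 := h3 c' hc'
      rcases h with h | h | h
      · have h7 := h4 c hc c' hc' (by linarith)
        linarith
      · linarith
      · linarith
    · exact Pool.Agent.H73.KT.off_diff hαβ hL hD hc hc' he1 he h
  · exact Pool.Agent.H73.KT.off_diff hαβ hL hD hc hc' he1 he h

end

end Pool.Agent.H73.KP
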