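import Pool.Agent.H73.KP.Defs

/-!
# KP, module Rot (helper49): scaling and rotation of the special configuration
-/

set_option autoImplicit false

open MeasureTheory Filter Topology Set

namespace Pool.Agent.H73.KP

open Pool.Agent.H73.TR (rot)
open Pool.Agent.H73.KT (pos pos_mem rot_inj)

theorem vol_affine {s : ℝ} (hs : 0 < s) (p : ℝ) (S : Set ℝ) :
    volume.real ((fun x => (x - p) / s) ⁻¹' S) = s * volume.real S := by
  have e : (fun x : ℝ => (x - p) / s) ⁻¹' S = (fun x : ℝ => x + (-p)) ⁻¹' ((fun x : ℝ => x * s⁻¹) ⁻¹' S) := by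
    ext x
    simp only [mem_preimage, div_eq_mul_inv, sub_eq_add_neg]
  rw [e]
  unfold Measure.real
  rw [measure_preimage_add_right, Real.volume_preimage_mul_right (inv_ne_zero hs.ne'), inv_inv, abs_of_pos hs,
    ENNReal.toReal_mul, ENNReal.toReal_ofReal hs.le]

theorem Ym_pos {m : ℕ} {y : ℝ} (hy : y ∈ Ym m) : 0 < y ∧ y < Nm m := by
  unfold Ym at hy
  obtain ⟨⟨f, i⟩, -, rfl⟩ := Finset.mem_image.1 hy
  have hm : 0 < m := i.pos
  have hmr : (0 : ℝ) < m := by exact_mod_cast hm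
  have h1 : idx m f + 1 ≤ (m ^ 2) ^ m := by
    unfold idx
    have hcard : Fintype.card (Fin m → Fin (m ^ 2)) = (m ^ 2) ^ m := by simp
    exact lt_of_lt_of_eq (Fintype.equivFin (Fin m → Fin (m ^ 2)) f).2 hcard
  have h1r : (idx m f : ℝ) + 1 ≤ ((m : ℝ) ^ 2) ^ m := by exact_mod_cast h1
  have h3 : ((f i : ℕ) : ℝ) + 1 ≤ (m : ℝ) ^ 2 := by exact_mod_cast (f i).2
  have h4 : ((i : ℕ) : ℝ) + 1 ≤ m := by exact_mod_cast i.2
  have h5 : (((i : ℕ) : ℝ) + 1) / ((m : ℝ) + 1) < 1 := by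
    rw [div_lt_one (by positivity)]
    linarith
  have h6 : 0 < (((i : ℕ) : ℝ) + 1) / ((m : ℝ) + 1) := by positivity
  have h7 : (((f i : ℕ) : ℝ) + (((i : ℕ) : ℝ) + 1) / ((m : ℝ) + 1)) / m < m := by
    rw [div_lt_iff₀ hmr]
    nlinarith
  have h8 : 0 < (((f i : ℕ) : ℝ) + (((i : ℕ) : ℝ) + 1) / ((m : ℝ) + 1)) / m := by positivity
  show 0 < yp m f i ∧ yp m f i < Nm m
  unfold yp Nm
  push_cast
  constructor
  · positivity
  · have h9 := mul_le_mul_of_nonneg_left h1r hmr.le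
    linarith

/-- the position in the special configuration -/
noncomputable def TT0 (α β p s x : ℝ) : ℝ := if p < x then (x - p) / s else (x - p + (β - α)) / s

theorem rot_count_iff {α β p s l x y : ℝ} (hs : 0 < s) (hl : 0 < l) (hp : α < p ∧ p ≤ β) (hx : α < x ∧ x ≤ β)
    (hB : x ∉ Ioc (β - l * s) β) (hB' : x ∉ Ioc (p - l * s) p) (hy : 0 < y ∧ y * s < β - α) :
    (x < rot α β (y * s) p ∧ rot α β (y * s) p ≤ x + l * s) ↔ (TT0 α β p s x < y ∧ y ≤ TT0 α β p s x + l) := by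
  have hys : 0 < y * s := mul_pos hy.1 hs
  have hls : 0 < l * s := mul_pos hl hs
  have hx1 : x ≤ β - l * s := by
    by_contra h
    push Not at h
    exact hB ⟨h, hx.2⟩
  have hT : ∀ a : ℝ, (a / s < y ↔ a < y * s) ∧ (y ≤ a / s + l ↔ y * s ≤ a + l * s) := by
    intro a
    refine ⟨div_lt_iff₀ hs, ?_⟩
    have e : (a / s + l) * s = a + l * s := by field_simp
    rw [← e, mul_le_mul_iff_of_pos_right hs]
  unfold TT0 rot
  by_cases h : p < x
  · rw [if_pos h, (hT _).1, (hT _).2]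
    split_ifs with h1
    · constructor
      · rintro ⟨h2, h3⟩
        constructor <;> nlinarith
      · rintro ⟨h2, h3⟩
        constructor <;> nlinarith
    · push Not at h1
      constructor
      · rintro ⟨h2, h3⟩
        exfalso
        linarith [hy.2]
      · rintro ⟨h2, h3⟩
        exfalso
        nlinarith
  · have hxp : x ≤ p - l * s := by
      by_contra h2
      push Not at h2 h
      exact hB' ⟨h2, h⟩
    rw [if_neg h, (hT _).1, (hT _).2]
    split_ifs with h1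
    · constructor
      · rintro ⟨h2, h3⟩
        exfalso
        linarith
      · rintro ⟨h2, h3⟩
        exfalso
        linarith
    · constructor
      · rintro ⟨h2, h3⟩
        constructor <;> nlinarith
      · rintro ⟨h2, h3⟩
        constructor <;> nlinarith

theorem nw_rot {m : ℕ} {α β v l x : ℝ} (hαβ : α < β) (hv : v ∈ Ioc (0 : ℝ) 1) (hl : 0 < l) (hm : 1 ≤ m)
    (hx : α < x ∧ x ≤ β) (hB : x ∉ Ioc (β - l * ((β - α) / Nm m)) β)
    (hB' : x ∉ Ioc (pos α β v - l * ((β - α) / Nm m)) (pos α β v)) :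
    nw (((Ym m).image fun y => y * ((β - α) / Nm m)).image fun c => rot α β c (pos α β v)) x (l * ((β - α) / Nm m)) =
      nw (Ym m) (TT0 α β (pos α β v) ((β - α) / Nm m) x) l := by
  have hN : (0 : ℝ) < Nm m := by
    unfold Nm
    have : 0 < m := hm
    positivity
  set s : ℝ := (β - α) / Nm m with hs
  have hs0 : 0 < s := div_pos (by linarith) hN
  have hsN : (Nm m : ℝ) * s = β - α := by
    rw [hs]
    field_simp
  have hys : ∀ y ∈ Ym m, 0 < y ∧ 0 ≤ y * s ∧ y * s < β - α := by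
    intro y hy
    obtain ⟨h1, h2⟩ := Ym_pos hy
    refine ⟨h1, by positivity, ?_⟩
    rw [← hsN]
    exact mul_lt_mul_of_pos_right h2 hs0
  have hp := pos_mem hαβ hv
  unfold nw
  rw [Finset.image_image, Finset.filter_image, Finset.card_image_of_injOn]
  · refine congrArg Finset.card (Finset.filter_congr fun y hy => ?_)
    obtain ⟨h1, h2, h3⟩ := hys y hy
    exact rot_count_iff hs0 hl hp hx hB hB' ⟨h1, h3⟩
  · intro y hy y' hy' h
    rw [Finset.mem_coe, Finset.mem_filter] at hy hy'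
    obtain ⟨h1, h2, h3⟩ := hys y hy.1
    obtain ⟨h1', h2', h3'⟩ := hys y' hy'.1
    have h4 := rot_inj h2 h3 h2' h3' h
    exact mul_right_cancel₀ hs0.ne' h4

theorem vol_TT {α β p s : ℝ} (hs : 0 < s) (hp : α < p ∧ p ≤ β) (F : Set ℝ) (hF : F ⊆ Ioc 0 ((β - α) / s)) :
    volume.real {x : ℝ | α < x ∧ x ≤ β ∧ TT0 α β p s x ∈ F} = s * volume.real F := by
  have hfinF : volume F ≠ ⊤ := ne_top_of_le_ne_top (by simp) (measure_mono hF)
  have hsub : {x : ℝ | α < x ∧ x ≤ β ∧ TT0 α β p s x ∈ F} ⊆ Ioc α β := fun x hx => ⟨hx.1, hx.2.1⟩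
  have hfin : volume {x : ℝ | α < x ∧ x ≤ β ∧ TT0 α β p s x ∈ F} ≠ ⊤ := ne_top_of_le_ne_top (by simp) (measure_mono hsub)
  rw [← measureReal_inter_add_sdiff (s := {x : ℝ | α < x ∧ x ≤ β ∧ TT0 α β p s x ∈ F}) (t := Ioi p) measurableSet_Ioi hfin,
    ← measureReal_inter_add_sdiff (s := F) (t := Iic ((β - p) / s)) measurableSet_Iic hfinF, mul_add]
  congr 1
  · rw [← vol_affine hs p]
    congr 1
    ext x
    simp only [mem_inter_iff, mem_ofPred_eq, mem_Ioi, mem_preimage, mem_Iic]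
    constructor
    · rintro ⟨⟨h1, h2, h3⟩, h4⟩
      unfold TT0 at h3
      rw [if_pos h4] at h3
      exact ⟨h3, div_le_div_of_nonneg_right (by linarith) hs.le⟩
    · rintro ⟨h1, h2⟩
      have h3 := (hF h1).1
      have h4 : 0 < x - p := by
        by_contra h5
        push Not at h5
        have := div_nonpos_of_nonpos_of_nonneg h5 hs.le
        linarith
      rw [div_le_div_iff_of_pos_right hs] at h2
      have h5 : p < x := by linarith
      refine ⟨⟨by linarith [hp.1], by linarith, ?_⟩, h5⟩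
      unfold TT0
      rw [if_pos h5]
      exact h1
  · rw [← vol_affine hs (p - (β - α))]
    congr 1
    ext x
    simp only [Set.mem_sdiff, mem_ofPred_eq, mem_Ioi, mem_preimage, mem_Iic]
    have e : x - (p - (β - α)) = x - p + (β - α) := by ring
    rw [e]
    constructor
    · rintro ⟨⟨h1, h2, h3⟩, h4⟩
      unfold TT0 at h3
      rw [if_neg h4] at h3
      refine ⟨h3, ?_⟩
      rw [div_le_div_iff_of_pos_right hs]
      linarith
    · rintro ⟨h1, h2⟩
      have h3 := (hF h1).2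
      rw [div_le_div_iff_of_pos_right hs] at h2 h3
      push Not at h2
      have h5 : ¬ p < x := by
        push Not
        linarith
      refine ⟨⟨by linarith, by linarith [hp.2], ?_⟩, h5⟩
      unfold TT0
      rw [if_neg h5]
      exact h1

theorem rot_vol_m (k : ℕ) {l : ℝ} (hl : 0 < l) {m : ℕ} (hm : 1 ≤ m) {α β v : ℝ} (hαβ : α < β) (hv : v ∈ Ioc (0 : ℝ) 1) :
    |volume.real {x : ℝ | α < x ∧ x ≤ β ∧ nw (((Ym m).image fun y => y * ((β - α) / Nm m)).image
      fun c => rot α β c (pos α β v)) x (l * ((β - α) / Nm m)) ≤ k} -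
      (β - α) / Nm m * volume.real {y : ℝ | 0 < y ∧ y ≤ Nm m ∧ nw (Ym m) y l ≤ k}| ≤ 2 * (l * ((β - α) / Nm m)) := by
  have hN : (0 : ℝ) < Nm m := by
    unfold Nm
    have : 0 < m := hm
    positivity
  set s : ℝ := (β - α) / Nm m with hs
  have hs0 : 0 < s := div_pos (by linarith) hN
  have hsN : (β - α) / s = Nm m := by
    rw [hs]
    have : β - α ≠ 0 := by linarith
    field_simp
  have hp := pos_mem hαβ hv
  have hls : 0 < l * s := mul_pos hl hs0
  set F : Set ℝ := {y : ℝ | 0 < y ∧ y ≤ Nm m ∧ nw (Ym m) y l ≤ k} with hF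
  have hFs : F ⊆ Ioc 0 ((β - α) / s) := by
    rw [hsN]
    exact fun y hy => ⟨hy.1, hy.2.1⟩
  rw [← vol_TT hs0 hp F hFs]
  set E : Set ℝ := {x : ℝ | α < x ∧ x ≤ β ∧ nw (((Ym m).image fun y => y * s).image fun c => rot α β c (pos α β v)) x
    (l * s) ≤ k} with hE
  set E' : Set ℝ := {x : ℝ | α < x ∧ x ≤ β ∧ TT0 α β (pos α β v) s x ∈ F} with hE'
  set B : Set ℝ := Ioc (β - l * s) β ∪ Ioc (pos α β v - l * s) (pos α β v) with hB
  have hTm : ∀ x, α < x → x ≤ β → 0 < TT0 α β (pos α β v) s x ∧ TT0 α β (pos α β v) s x ≤ Nm m := by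
    intro x h1 h2
    rw [← hsN]
    unfold TT0
    split_ifs with h
    · exact ⟨div_pos (by linarith) hs0, div_le_div_of_nonneg_right (by linarith [hp.1]) hs0.le⟩
    · push Not at h
      exact ⟨div_pos (by linarith [hp.2]) hs0, div_le_div_of_nonneg_right (by linarith) hs0.le⟩
  have hiff : ∀ x, x ∉ B → (x ∈ E ↔ x ∈ E') := by
    intro x hx
    rw [hB, mem_union, not_or] at hx
    rw [hE, hE', mem_ofPred_eq, mem_ofPred_eq]
    constructor
    · rintro ⟨h1, h2, h3⟩
      rw [nw_rot hαβ hv hl hm ⟨h1, h2⟩ hx.1 hx.2] at h3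
      exact ⟨h1, h2, (hTm x h1 h2).1, (hTm x h1 h2).2, h3⟩
    · rintro ⟨h1, h2, -, -, h3⟩
      refine ⟨h1, h2, ?_⟩
      rw [nw_rot hαβ hv hl hm ⟨h1, h2⟩ hx.1 hx.2]
      exact h3
  have hBv : volume.real B ≤ 2 * (l * s) := by
    refine (measureReal_union_le _ _).trans ?_
    rw [Real.volume_real_Ioc_of_le (by linarith), Real.volume_real_Ioc_of_le (by linarith)]
    linarith
  have hBf : volume B ≠ ⊤ := ne_top_of_le_ne_top (by simp) (measure_union_le _ _)
  have hEs : E ⊆ Ioc α β := fun x hx => ⟨hx.1, hx.2.1⟩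
  have hEs' : E' ⊆ Ioc α β := fun x hx => ⟨hx.1, hx.2.1⟩
  have hEf : volume E ≠ ⊤ := ne_top_of_le_ne_top (by simp) (measure_mono hEs)
  have hEf' : volume E' ≠ ⊤ := ne_top_of_le_ne_top (by simp) (measure_mono hEs')
  have h1 : volume.real E ≤ volume.real E' + volume.real B := by
    refine le_trans (measureReal_mono (fun x hx => ?_) (measure_union_ne_top hEf' hBf)) (measureReal_union_le _ _)
    by_cases h : x ∈ B
    · exact Or.inr h
    · exact Or.inl ((hiff x h).1 hx)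
  have h2 : volume.real E' ≤ volume.real E + volume.real B := by
    refine le_trans (measureReal_mono (fun x hx => ?_) (measure_union_ne_top hEf hBf)) (measureReal_union_le _ _)
    by_cases h : x ∈ B
    · exact Or.inr h
    · exact Or.inl ((hiff x h).2 hx)
  exact abs_le.2 ⟨by linarith, by linarith⟩

theorem le_Nm {m : ℕ} (hm : 1 ≤ m) : m ≤ Nm m := by
  unfold Nm
  exact Nat.le_mul_of_pos_right m (pow_pos (pow_pos hm 2) m)

theorem rot_vol_of (k : ℕ) {l : ℝ} (hl : 0 < l)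
    (seg : ∀ η : ℝ, 0 < η → ∀ᶠ m : ℕ in atTop,
      |volume.real {y : ℝ | 0 < y ∧ y ≤ Nm m ∧ nw (Ym m) y l ≤ k} - Nm m * Q k l| ≤ η * Nm m) {η : ℝ} (hη : 0 < η) :
    ∀ᶠ m : ℕ in atTop, ∀ (α β v : ℝ), α < β → v ∈ Ioc (0 : ℝ) 1 →
    |volume.real {x : ℝ | α < x ∧ x ≤ β ∧ nw (((Ym m).image fun y => y * ((β - α) / Nm m)).image
      fun c => rot α β c (pos α β v)) x (l * ((β - α) / Nm m)) ≤ k} - (β - α) * Q k l| ≤ η * (β - α) := by
  filter_upwards [seg (η / 2) (half_pos hη), eventually_ge_atTop 1, eventually_ge_atTop ⌈4 * l / η⌉₊] with m h1 hm h2 α β v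
    hαβ hv
  have h3 := rot_vol_m k hl hm hαβ hv
  have hmN : (m : ℝ) ≤ Nm m := by exact_mod_cast le_Nm hm
  have hN : (0 : ℝ) < Nm m := by
    have : (1 : ℝ) ≤ m := by exact_mod_cast hm
    linarith
  have hab : 0 < β - α := by linarith
  have h4 : 4 * l / η ≤ Nm m := by
    have h5 : (⌈4 * l / η⌉₊ : ℝ) ≤ m := by exact_mod_cast h2
    exact (Nat.le_ceil _).trans (h5.trans hmN)
  rw [div_le_iff₀ hη] at h4
  set s : ℝ := (β - α) / Nm m with hs
  have hs0 : 0 < s := div_pos hab hN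
  have hsN : s * Nm m = β - α := by
    rw [hs]
    field_simp
  have h5 : |s * volume.real {y : ℝ | 0 < y ∧ y ≤ Nm m ∧ nw (Ym m) y l ≤ k} - (β - α) * Q k l| ≤ η / 2 * (β - α) := by
    have e : s * volume.real {y : ℝ | 0 < y ∧ y ≤ Nm m ∧ nw (Ym m) y l ≤ k} - (β - α) * Q k l =
        s * (volume.real {y : ℝ | 0 < y ∧ y ≤ Nm m ∧ nw (Ym m) y l ≤ k} - Nm m * Q k l) := by
      rw [← hsN]
      ring
    rw [e, abs_mul, abs_of_pos hs0]
    refine (mul_le_mul_of_nonneg_left h1 hs0.le).trans (le_of_eq ?_)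
    rw [← hsN]
    ring
  have h6 : 2 * (l * s) ≤ η / 2 * (β - α) := by
    rw [← hsN]
    nlinarith
  have h7 := abs_sub_le (volume.real {x : ℝ | α < x ∧ x ≤ β ∧ nw (((Ym m).image fun y => y * s).image
      fun c => rot α β c (pos α β v)) x (l * s) ≤ k})
    (s * volume.real {y : ℝ | 0 < y ∧ y ≤ Nm m ∧ nw (Ym m) y l ≤ k}) ((β - α) * Q k l)
  linarith

end Pool.Agent.H73.KP
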