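import Pool.Agent.H73.KP.Defs

/-!
# KP: the functions which take at most `k` times a value in a set
-/

set_option autoImplicit false

open Filter Topology

namespace Pool.Agent.H73.KP

/-- the functions which take at most `k` times a value in `A` -/
theorem fun_count (m M k : ℕ) (A : Finset (Fin M)) :
    ((Finset.univ.filter fun f : Fin m → Fin M => (Finset.univ.filter fun i => f i ∈ A).card ≤ k).card : ℝ) =
      ∑ j ∈ Finset.range (k + 1), (m.choose j : ℝ) * (A.card : ℝ) ^ j * ((M : ℝ) - A.card) ^ (m - j) := by
  classical
  have hAM : A.card ≤ M := by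
    have h := Finset.card_le_univ A
    rwa [Fintype.card_fin] at h
  -- the functions with a given set of the indices
  have hT : ∀ T : Finset (Fin m), (Finset.univ.filter fun f : Fin m → Fin M =>
      (Finset.univ.filter fun i => f i ∈ A) = T).card = A.card ^ T.card * (M - A.card) ^ (m - T.card) := by
    intro T
    have h1 : (Finset.univ.filter fun f : Fin m → Fin M => (Finset.univ.filter fun i => f i ∈ A) = T) =
        Fintype.piFinset (fun i => if i ∈ T then A else Aᶜ) := by
      ext f
      rw [Finset.mem_filter, Fintype.mem_piFinset]
      constructor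
      · rintro ⟨-, h⟩ i
        have h2 : i ∈ T ↔ f i ∈ A := by
          rw [← h, Finset.mem_filter]
          exact ⟨fun h => h.2, fun h => ⟨Finset.mem_univ _, h⟩⟩
        by_cases hi : i ∈ T
        · rw [if_pos hi]
          exact h2.1 hi
        · rw [if_neg hi, Finset.mem_compl]
          exact fun h' => hi (h2.2 h')
      · intro h
        refine ⟨Finset.mem_univ _, ?_⟩
        ext i
        rw [Finset.mem_filter]
        have hi := h i
        by_cases hiT : i ∈ T
        · rw [if_pos hiT] at hi
          exact ⟨fun _ => hiT, fun _ => ⟨Finset.mem_univ _, hi⟩⟩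
        · rw [if_neg hiT, Finset.mem_compl] at hi
          exact ⟨fun h' => absurd h'.2 hi, fun h' => absurd h' hiT⟩
    rw [h1, Fintype.card_piFinset]
    have h2 : ∀ i ∈ (Finset.univ : Finset (Fin m)), (if i ∈ T then A else Aᶜ).card =
        if i ∈ T then A.card else (M - A.card) := by
      intro i _
      split_ifs
      · rfl
      · rw [Finset.card_compl, Fintype.card_fin]
    rw [Finset.prod_congr rfl h2, Finset.prod_ite, Finset.prod_const, Finset.prod_const,
      Finset.filter_mem_eq_inter, Finset.univ_inter]
    congr 2
    have h3 : (Finset.univ.filter fun i => i ∉ T) = Tᶜ := by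
      ext i
      simp
    rw [h3, Finset.card_compl, Fintype.card_fin]
  -- sum over the sets
  have h4 : (Finset.univ.filter fun f : Fin m → Fin M =>
      (Finset.univ.filter fun i => f i ∈ A).card ≤ k).card =
      ∑ j ∈ Finset.range (k + 1), m.choose j * (A.card ^ j * (M - A.card) ^ (m - j)) := by
    have h5 : (Finset.univ.filter fun f : Fin m → Fin M =>
        (Finset.univ.filter fun i => f i ∈ A).card ≤ k).card =
        ∑ j ∈ Finset.range (k + 1), ((Finset.univ.filter fun f : Fin m → Fin M =>
          (Finset.univ.filter fun i => f i ∈ A).card ≤ k).filter fun f =>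
            (Finset.univ.filter fun i => f i ∈ A).card = j).card := by
      refine Finset.card_eq_sum_card_fiberwise fun f hf => ?_
      have h6 := (Finset.mem_filter.1 (Finset.mem_coe.1 hf)).2
      exact Finset.mem_coe.2 (Finset.mem_range.2 (by omega))
    rw [h5]
    refine Finset.sum_congr rfl fun j hj => ?_
    have hj' : j ≤ k := by
      have := Finset.mem_range.1 hj
      omega
    have h7 : ((Finset.univ.filter fun f : Fin m → Fin M =>
          (Finset.univ.filter fun i => f i ∈ A).card ≤ k).filter fun f =>
            (Finset.univ.filter fun i => f i ∈ A).card = j) =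
        (Finset.univ.filter fun f : Fin m → Fin M => (Finset.univ.filter fun i => f i ∈ A).card = j) := by
      ext f
      rw [Finset.mem_filter, Finset.mem_filter, Finset.mem_filter]
      exact ⟨fun h => ⟨h.1.1, h.2⟩, fun h => ⟨⟨h.1, by omega⟩, h.2⟩⟩
    have h8 : (Finset.univ.filter fun f : Fin m → Fin M =>
          (Finset.univ.filter fun i => f i ∈ A).card = j).card =
        ∑ T ∈ (Finset.univ : Finset (Fin m)).powersetCard j, ((Finset.univ.filter fun f : Fin m → Fin M =>
          (Finset.univ.filter fun i => f i ∈ A).card = j).filter fun f =>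
            (Finset.univ.filter fun i => f i ∈ A) = T).card := by
      refine Finset.card_eq_sum_card_fiberwise fun f hf => ?_
      have h6 := (Finset.mem_filter.1 (Finset.mem_coe.1 hf)).2
      exact Finset.mem_coe.2 (Finset.mem_powersetCard.2 ⟨Finset.subset_univ _, h6⟩)
    rw [h7, h8]
    have h9 : ∀ T ∈ (Finset.univ : Finset (Fin m)).powersetCard j,
        ((Finset.univ.filter fun f : Fin m → Fin M =>
          (Finset.univ.filter fun i => f i ∈ A).card = j).filter fun f =>
            (Finset.univ.filter fun i => f i ∈ A) = T).card =
        A.card ^ j * (M - A.card) ^ (m - j) := by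
      intro T hTj
      have hTc := (Finset.mem_powersetCard.1 hTj).2
      rw [← hTc, ← hT T]
      congr 1
      ext f
      rw [Finset.mem_filter, Finset.mem_filter, Finset.mem_filter]
      exact ⟨fun h => ⟨h.1.1, h.2⟩, fun h => ⟨⟨h.1, by rw [h.2]⟩, h.2⟩⟩
    rw [Finset.sum_congr rfl h9, Finset.sum_const, Finset.card_powersetCard, Finset.card_univ,
      Fintype.card_fin, smul_eq_mul]
  rw [h4]
  push_cast [Nat.cast_sub hAM]
  exact Finset.sum_congr rfl fun j _ => by ring

end Pool.Agent.H73.KP
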