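import Pool.Agent.H73.KP.Win
import Pool.Agent.H73.KP.Bin
import Pool.Agent.H73.KP.Fun

/-!
# KP, module Seg (helper34): the distribution of the counts in the special configuration
-/

set_option autoImplicit false

open MeasureTheory Filter Topology Set

namespace Pool.Agent.H73.KP

/-- the number of the functions which take at most `k` times a value in a set of `u` elements -/
noncomputable def gc (m k u : ℕ) : ℝ :=
  ∑ j ∈ Finset.range (k + 1), (m.choose j : ℝ) * (u : ℝ) ^ j * (((m ^ 2 : ℕ) : ℝ) - u) ^ (m - j)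

/-- the number of the points of the segment of `f` in `(z, z + l]` -/
noncomputable def nf (m : ℕ) (f : Fin m → Fin (m ^ 2)) (z l : ℝ) : ℕ :=
  (Finset.univ.filter fun i : Fin m =>
    z < (((f i : ℕ) : ℝ) + (((i : ℕ) : ℝ) + 1) / ((m : ℝ) + 1)) / m ∧
      (((f i : ℕ) : ℝ) + (((i : ℕ) : ℝ) + 1) / ((m : ℝ) + 1)) / m ≤ z + l).card

theorem th_bd {m : ℕ} (i : Fin m) : 0 < (((i : ℕ) : ℝ) + 1) / ((m : ℝ) + 1) ∧ (((i : ℕ) : ℝ) + 1) / ((m : ℝ) + 1) < 1 := by
  have h1 : ((i : ℕ) : ℝ) + 1 ≤ m := by exact_mod_cast i.2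
  have h2 : (0 : ℝ) ≤ (i : ℕ) := Nat.cast_nonneg _
  constructor
  · positivity
  · rw [div_lt_one (by linarith)]
    linarith

theorem idx_lt (m : ℕ) (f : Fin m → Fin (m ^ 2)) : idx m f < (m ^ 2) ^ m := by
  have h := (Fintype.equivFin (Fin m → Fin (m ^ 2)) f).2
  have h2 : Fintype.card (Fin m → Fin (m ^ 2)) = (m ^ 2) ^ m := by simp
  unfold idx
  omega

theorem idx_inj {m : ℕ} {f g : Fin m → Fin (m ^ 2)} (h : idx m f = idx m g) : f = g :=
  (Fintype.equivFin (Fin m → Fin (m ^ 2))).injective (Fin.ext h)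

/-- the fractional part -/
theorem split_eq {a b : ℕ} {s t : ℝ} (hs : 0 < s ∧ s < 1) (ht : 0 < t ∧ t < 1) (h : (a : ℝ) + s = b + t) : a = b := by
  rcases lt_trichotomy a b with h1 | h1 | h1
  · have : (a : ℝ) + 1 ≤ b := by exact_mod_cast h1
    linarith [hs.2, ht.1]
  · exact h1
  · have : (b : ℝ) + 1 ≤ a := by exact_mod_cast h1
    linarith [ht.2, hs.1]

/-- the points of the window in the segment of `f` -/
theorem nw_seg {m : ℕ} (hm : 1 ≤ m) (f : Fin m → Fin (m ^ 2)) {z l : ℝ} (hz : 0 < z) (hzl : z + l ≤ m) :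
    nw (Ym m) ((m : ℝ) * idx m f + z) l = nf m f z l := by
  classical
  have hm0 : (0 : ℝ) < m := by exact_mod_cast hm
  have hbd : ∀ (g : Fin m → Fin (m ^ 2)) (i : Fin m),
      0 < (((g i : ℕ) : ℝ) + (((i : ℕ) : ℝ) + 1) / ((m : ℝ) + 1)) / m ∧
        (((g i : ℕ) : ℝ) + (((i : ℕ) : ℝ) + 1) / ((m : ℝ) + 1)) / m < m := by
    intro g i
    obtain ⟨t1, t2⟩ := th_bd i
    have h1 : ((g i : ℕ) : ℝ) + 1 ≤ (m : ℝ) ^ 2 := by exact_mod_cast (g i).2
    have h2 : (0 : ℝ) ≤ (g i : ℕ) := Nat.cast_nonneg _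
    constructor
    · exact div_pos (by linarith) hm0
    · rw [div_lt_iff₀ hm0]
      nlinarith
  have hidx : ∀ (g : Fin m → Fin (m ^ 2)) (i : Fin m), (m : ℝ) * idx m f + z < yp m g i →
      yp m g i ≤ (m : ℝ) * idx m f + z + l → g = f := by
    intro g i h1 h2
    obtain ⟨b1, b2⟩ := hbd g i
    unfold yp at h1 h2
    refine idx_inj ?_
    rcases lt_trichotomy (idx m g) (idx m f) with h3 | h3 | h3
    · have h4 : (idx m g : ℝ) + 1 ≤ idx m f := by exact_mod_cast h3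
      have h5 : (m : ℝ) * ((idx m g : ℝ) + 1) ≤ m * idx m f := mul_le_mul_of_nonneg_left h4 hm0.le
      linarith
    · exact h3
    · have h4 : (idx m f : ℝ) + 1 ≤ idx m g := by exact_mod_cast h3
      have h5 : (m : ℝ) * ((idx m f : ℝ) + 1) ≤ m * idx m g := mul_le_mul_of_nonneg_left h4 hm0.le
      linarith
  have himg : (Ym m).filter (fun y => (m : ℝ) * idx m f + z < y ∧ y ≤ (m : ℝ) * idx m f + z + l) =
      (Finset.univ.filter fun i : Fin m =>
        z < (((f i : ℕ) : ℝ) + (((i : ℕ) : ℝ) + 1) / ((m : ℝ) + 1)) / m ∧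
          (((f i : ℕ) : ℝ) + (((i : ℕ) : ℝ) + 1) / ((m : ℝ) + 1)) / m ≤ z + l).image fun i => yp m f i := by
    ext y
    rw [Finset.mem_filter, Finset.mem_image]
    constructor
    · rintro ⟨h1, h2, h3⟩
      unfold Ym at h1
      rw [Finset.mem_image] at h1
      obtain ⟨⟨g, i⟩, _, rfl⟩ := h1
      have hgf := hidx g i h2 h3
      subst hgf
      refine ⟨i, ?_, rfl⟩
      rw [Finset.mem_filter]
      unfold yp at h2 h3
      simp only at h2 h3
      exact ⟨Finset.mem_univ _, by linarith, by linarith⟩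
    · rintro ⟨i, hi, rfl⟩
      rw [Finset.mem_filter] at hi
      refine ⟨?_, ?_, ?_⟩
      · unfold Ym
        rw [Finset.mem_image]
        exact ⟨(f, i), Finset.mem_univ _, rfl⟩
      · unfold yp
        linarith [hi.2.1]
      · unfold yp
        linarith [hi.2.2]
  unfold nw nf
  rw [himg, Finset.card_image_of_injective]
  intro i j hij
  unfold yp at hij
  have h1 : (((f i : ℕ) : ℝ) + (((i : ℕ) : ℝ) + 1) / ((m : ℝ) + 1)) / m =
      (((f j : ℕ) : ℝ) + (((j : ℕ) : ℝ) + 1) / ((m : ℝ) + 1)) / m := by linarith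
  have h2 : ((f i : ℕ) : ℝ) + (((i : ℕ) : ℝ) + 1) / ((m : ℝ) + 1) =
      ((f j : ℕ) : ℝ) + (((j : ℕ) : ℝ) + 1) / ((m : ℝ) + 1) := by
    field_simp at h1
    field_simp
    linarith
  have h3 := split_eq (th_bd i) (th_bd j) h2
  rw [h3] at h2
  have h4 : (((i : ℕ) : ℝ) + 1) / ((m : ℝ) + 1) = (((j : ℕ) : ℝ) + 1) / ((m : ℝ) + 1) := by linarith
  have h5 : ((i : ℕ) : ℝ) = (j : ℕ) := by
    rw [div_left_inj' (by positivity)] at h4
    linarith
  exact Fin.ext (by exact_mod_cast h5)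

open Classical in
/-- the number of the `f` with at most `k` points in the window -/
noncomputable def ff (m k : ℕ) (z l : ℝ) : ℕ := (Finset.univ.filter fun f : Fin m → Fin (m ^ 2) => nf m f z l ≤ k).card

theorem ff_upper {m : ℕ} {z l : ℝ} (hz : 0 < z) (hzl : z + l ≤ m) {u : ℕ}
    (hu : (u : ℝ) + 2 ≤ m * l) (k : ℕ) : (ff m k z l : ℝ) ≤ gc m k u := by
  classical
  have hm0 : (0 : ℝ) ≤ m := Nat.cast_nonneg m
  have hmz : 0 ≤ (m : ℝ) * z := mul_nonneg hm0 hz.le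
  rcases Nat.eq_zero_or_pos m with hm | hm
  · subst hm
    have h1 : (0 : ℝ) ≤ (u : ℝ) := Nat.cast_nonneg u
    norm_num at hu
    linarith
  have hm1 : (0 : ℝ) < m := by exact_mod_cast hm
  set A : Finset (Fin (m ^ 2)) := Finset.univ.filter fun c => (m : ℝ) * z ≤ ((c : ℕ) : ℝ) ∧ ((c : ℕ) : ℝ) + 1 ≤ m * (z + l)
    with hA
  have h1 : Finset.Ico ⌈(m : ℝ) * z⌉₊ (⌈(m : ℝ) * z⌉₊ + u) ⊆ A.image Fin.val := by
    intro c hc
    rw [Finset.mem_Ico] at hc
    have h2 : (m : ℝ) * z ≤ c := (Nat.le_ceil _).trans (by exact_mod_cast hc.1)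
    have h3 : (c : ℝ) + 1 ≤ ⌈(m : ℝ) * z⌉₊ + u := by exact_mod_cast hc.2
    have h4 := (Nat.ceil_lt_add_one hmz).le
    have h5 : (c : ℝ) + 1 ≤ m * (z + l) := by
      rw [mul_add]
      linarith
    have h6 : c < m ^ 2 := by
      have h7 : (m : ℝ) * (z + l) ≤ m * m := mul_le_mul_of_nonneg_left hzl hm0
      have h8 : (c : ℝ) + 1 ≤ (m : ℝ) * m := h5.trans h7
      have h9 : c + 1 ≤ m * m := by exact_mod_cast h8
      rw [sq]
      omega
    rw [Finset.mem_image]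
    exact ⟨⟨c, h6⟩, by rw [hA, Finset.mem_filter]; exact ⟨Finset.mem_univ _, h2, h5⟩, rfl⟩
  have h2 : u ≤ A.card := by
    have h3 := Finset.card_le_card h1
    rw [Nat.card_Ico] at h3
    have h4 := Finset.card_image_le (s := A) (f := Fin.val)
    omega
  obtain ⟨B, hBA, hB⟩ := Finset.exists_subset_card_eq h2
  have h3 := fun_count m (m ^ 2) k B
  rw [hB] at h3
  unfold gc
  rw [← h3]
  unfold ff
  have h4 : (Finset.univ.filter fun f : Fin m → Fin (m ^ 2) => nf m f z l ≤ k) ⊆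
      Finset.univ.filter fun f : Fin m → Fin (m ^ 2) => (Finset.univ.filter fun i => f i ∈ B).card ≤ k := by
    intro f hf
    rw [Finset.mem_filter] at hf ⊢
    refine ⟨Finset.mem_univ _, le_trans (Finset.card_le_card fun i hi => ?_) hf.2⟩
    rw [Finset.mem_filter] at hi ⊢
    have h5 := hBA hi.2
    rw [hA, Finset.mem_filter] at h5
    obtain ⟨_, h6, h7⟩ := h5
    obtain ⟨t1, t2⟩ := th_bd i
    refine ⟨Finset.mem_univ _, ?_, ?_⟩
    · rw [lt_div_iff₀ hm1]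
      linarith
    · rw [div_le_iff₀ hm1]
      linarith
  exact_mod_cast Finset.card_le_card h4

theorem ff_lower {m : ℕ} (hm : 1 ≤ m) {z l : ℝ} (hz : 0 < z) {u : ℕ}
    (hu : (m : ℝ) * l + 2 ≤ u) (hum : u ≤ m ^ 2) (k : ℕ) : gc m k u ≤ (ff m k z l : ℝ) := by
  classical
  have hm1 : (0 : ℝ) < m := by exact_mod_cast hm
  have hmz : 0 ≤ (m : ℝ) * z := mul_nonneg hm1.le hz.le
  set A : Finset (Fin (m ^ 2)) := Finset.univ.filter fun c => (m : ℝ) * z - 1 < ((c : ℕ) : ℝ) ∧ ((c : ℕ) : ℝ) < m * (z + l)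
    with hA
  have h1 : A.image Fin.val ⊆ Finset.Ico ⌊(m : ℝ) * z⌋₊ (⌊(m : ℝ) * z⌋₊ + u) := by
    intro c hc
    rw [Finset.mem_image] at hc
    obtain ⟨c, hc, rfl⟩ := hc
    rw [hA, Finset.mem_filter] at hc
    obtain ⟨_, h2, h3⟩ := hc
    have h4 := Nat.floor_le hmz
    have h5 := Nat.lt_floor_add_one ((m : ℝ) * z)
    rw [Finset.mem_Ico]
    constructor
    · have h6 : (⌊(m : ℝ) * z⌋₊ : ℝ) < (c : ℕ) + 1 := by linarith
      have h7 : ⌊(m : ℝ) * z⌋₊ < (c : ℕ) + 1 := by exact_mod_cast h6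
      omega
    · have h6 : ((c : ℕ) : ℝ) < ⌊(m : ℝ) * z⌋₊ + u := by
        rw [mul_add] at h3
        linarith
      exact_mod_cast h6
  have h2 : A.card ≤ u := by
    have h3 := Finset.card_le_card h1
    rw [Nat.card_Ico, Finset.card_image_of_injective _ Fin.val_injective] at h3
    omega
  obtain ⟨B, hAB, hB⟩ := Finset.exists_superset_card_eq h2 (by simpa using hum)
  have h3 := fun_count m (m ^ 2) k B
  rw [hB] at h3
  unfold gc
  rw [← h3]
  unfold ff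
  have h4 : (Finset.univ.filter fun f : Fin m → Fin (m ^ 2) => (Finset.univ.filter fun i => f i ∈ B).card ≤ k) ⊆
      Finset.univ.filter fun f : Fin m → Fin (m ^ 2) => nf m f z l ≤ k := by
    intro f hf
    rw [Finset.mem_filter] at hf ⊢
    refine ⟨Finset.mem_univ _, le_trans (Finset.card_le_card fun i hi => ?_) hf.2⟩
    rw [Finset.mem_filter] at hi ⊢
    obtain ⟨_, h6, h7⟩ := hi
    rw [lt_div_iff₀ hm1] at h6
    rw [div_le_iff₀ hm1] at h7
    obtain ⟨t1, t2⟩ := th_bd i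
    refine ⟨Finset.mem_univ _, hAB ?_⟩
    rw [hA, Finset.mem_filter]
    exact ⟨Finset.mem_univ _, by linarith, by linarith⟩
  exact_mod_cast Finset.card_le_card h4

theorem gc_lim (k : ℕ) {l : ℝ} (hl : 0 < l) {u : ℕ → ℕ}
    (hu : Tendsto (fun m => (u m : ℝ) / m) atTop (𝓝 l)) :
    Tendsto (fun m : ℕ => gc m k (u m) / (((m : ℝ) ^ 2) ^ m)) atTop (𝓝 (Q k l)) := by
  refine (bin_poisson k hl hu).congr' ?_
  filter_upwards [eventually_ge_atTop (k + 1)] with m hm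
  have hm1 : (0 : ℝ) < m := by
    have : 0 < m := by omega
    exact_mod_cast this
  unfold gc
  rw [Finset.sum_div]
  refine Finset.sum_congr rfl fun j hj => ?_
  rw [Finset.mem_range] at hj
  have h1 : ((m : ℝ) ^ 2) ^ m = ((m : ℝ) ^ 2) ^ j * ((m : ℝ) ^ 2) ^ (m - j) := by
    rw [← pow_add]
    congr 1
    omega
  have h2 : (1 - (u m : ℝ) / (m : ℝ) ^ 2) = ((m : ℝ) ^ 2 - u m) / (m : ℝ) ^ 2 := by
    field_simp
  rw [h1, h2, div_pow, div_pow]
  push_cast
  have h3 : ((m : ℝ) ^ 2) ^ j ≠ 0 := by positivity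
  have h4 : ((m : ℝ) ^ 2) ^ (m - j) ≠ 0 := by positivity
  rw [eq_div_iff (mul_ne_zero h3 h4)]
  field_simp

/-- the two values are close to the Poisson law -/
theorem ff_near (k : ℕ) {l : ℝ} (hl : 0 < l) {η : ℝ} (hη : 0 < η) :
    ∀ᶠ m : ℕ in atTop, ∀ z : ℝ, 0 < z → z + l ≤ m →
      |(ff m k z l : ℝ) - ((m : ℝ) ^ 2) ^ m * Q k l| ≤ η * ((m : ℝ) ^ 2) ^ m := by
  have hn : Tendsto (fun m : ℕ => (m : ℝ)) atTop atTop := tendsto_natCast_atTop_atTop
  have hfl : Tendsto (fun m : ℕ => (⌊(m : ℝ) * l⌋₊ : ℝ) / m) atTop (𝓝 l) := by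
    have h1 := (tendsto_nat_floor_mul_div_atTop hl.le).comp hn
    refine h1.congr fun m => ?_
    simp only [Function.comp]
    rw [mul_comm]
  have hc : ∀ c : ℝ, Tendsto (fun m : ℕ => c / (m : ℝ)) atTop (𝓝 0) := fun c => hn.const_div_atTop c
  have h1 : Tendsto (fun m : ℕ => ((⌊(m : ℝ) * l⌋₊ + 3 : ℕ) : ℝ) / m) atTop (𝓝 l) := by
    have := hfl.add (hc 3)
    rw [add_zero] at this
    refine this.congr fun m => ?_
    push_cast
    ring
  have hbig : ∀ᶠ m : ℕ in atTop, 3 ≤ (m : ℝ) * l := (hn.atTop_mul_const hl).eventually (eventually_ge_atTop 3)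
  have h2 : Tendsto (fun m : ℕ => ((⌊(m : ℝ) * l⌋₊ - 2 : ℕ) : ℝ) / m) atTop (𝓝 l) := by
    have := hfl.sub (hc 2)
    rw [sub_zero] at this
    refine this.congr' ?_
    filter_upwards [hbig] with m hm
    have h3 : 3 ≤ ⌊(m : ℝ) * l⌋₊ := Nat.le_floor (by exact_mod_cast hm)
    rw [Nat.cast_sub (by omega)]
    push_cast
    ring
  have g1 := (gc_lim k hl h1).eventually (lt_mem_nhds (show Q k l - η < Q k l by linarith))
  have g2 := (gc_lim k hl h2).eventually (gt_mem_nhds (show Q k l < Q k l + η by linarith))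
  have hsq : ∀ᶠ m : ℕ in atTop, ⌊(m : ℝ) * l⌋₊ + 3 ≤ m ^ 2 := by
    have h3 : ∀ᶠ m : ℕ in atTop, l + 3 ≤ (m : ℝ) := hn.eventually (eventually_ge_atTop _)
    filter_upwards [h3, eventually_ge_atTop 1] with m hm hm1
    have hm1' : (1 : ℝ) ≤ m := by exact_mod_cast hm1
    have h4 : (⌊(m : ℝ) * l⌋₊ : ℝ) ≤ m * l := Nat.floor_le (by positivity)
    have h5 : ((⌊(m : ℝ) * l⌋₊ + 3 : ℕ) : ℝ) ≤ ((m ^ 2 : ℕ) : ℝ) := by
      push_cast
      nlinarith
    exact_mod_cast h5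
  filter_upwards [g1, g2, hbig, hsq, eventually_ge_atTop 1] with m a1 a2 a3 a4 a5 z hz hzl
  have hm1 : (0 : ℝ) < m := by exact_mod_cast a5
  have hP : (0 : ℝ) < ((m : ℝ) ^ 2) ^ m := by positivity
  have h4 : (⌊(m : ℝ) * l⌋₊ : ℝ) ≤ m * l := Nat.floor_le (by positivity)
  have h5 := Nat.lt_floor_add_one ((m : ℝ) * l)
  have b1 := ff_lower a5 hz (u := ⌊(m : ℝ) * l⌋₊ + 3) (by push_cast; linarith) a4 k (l := l)
  have b2 := ff_upper hz hzl (u := ⌊(m : ℝ) * l⌋₊ - 2) (by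
    have h6 : 3 ≤ ⌊(m : ℝ) * l⌋₊ := Nat.le_floor (by exact_mod_cast a3)
    rw [Nat.cast_sub (by omega)]
    push_cast
    linarith) k
  rw [lt_div_iff₀ hP] at a1
  rw [div_lt_iff₀ hP] at a2
  rw [abs_le]
  constructor <;> linarith

theorem card_F (m : ℕ) : (Fintype.card (Fin m → Fin (m ^ 2)) : ℝ) = ((m : ℝ) ^ 2) ^ m := by
  simp

theorem Nm_card (m : ℕ) : (Nm m : ℝ) = m * Fintype.card (Fin m → Fin (m ^ 2)) := by
  rw [card_F]
  unfold Nm
  push_cast
  ring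

/-- the indicator of the windows with at most `k` points -/
noncomputable def ph1 (m k : ℕ) (l : ℝ) : ℝ → ℝ := {y : ℝ | nw (Ym m) y l ≤ k}.indicator 1

theorem ph1_int (m k : ℕ) (l a b : ℝ) : IntervalIntegrable (ph1 m k l) volume a b := by
  have h1 : IntervalIntegrable (1 : ℝ → ℝ) volume a b := intervalIntegrable_const
  constructor
  · exact h1.1.indicator (nw_meas _ _ _)
  · exact h1.2.indicator (nw_meas _ _ _)

theorem ph1_shift (m k : ℕ) (l c a b : ℝ) : IntervalIntegrable (fun z => ph1 m k l (c + z)) volume a b := by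
  have h := (ph1_int m k l (c + a) (c + b)).comp_add_left c
  rwa [add_sub_cancel_left, add_sub_cancel_left] at h

/-- the volume as an integral over one segment -/
theorem vol_eq (m k : ℕ) (l : ℝ) :
    volume.real {y : ℝ | 0 < y ∧ y ≤ Nm m ∧ nw (Ym m) y l ≤ k} =
      ∫ z in (0 : ℝ)..m, ∑ f : Fin m → Fin (m ^ 2), ph1 m k l ((m : ℝ) * idx m f + z) := by
  have hm0 : (0 : ℝ) ≤ m := Nat.cast_nonneg m
  have hN : (0 : ℝ) ≤ Nm m := Nat.cast_nonneg _
  have e1 : {y : ℝ | 0 < y ∧ y ≤ Nm m ∧ nw (Ym m) y l ≤ k} = {y : ℝ | nw (Ym m) y l ≤ k} ∩ Ioc (0 : ℝ) (Nm m) := by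
    ext y
    simp only [mem_ofPred_eq, mem_inter_iff, mem_Ioc]
    tauto
  have e2 : volume.real {y : ℝ | 0 < y ∧ y ≤ Nm m ∧ nw (Ym m) y l ≤ k} = ∫ y in (0 : ℝ)..(Nm m), ph1 m k l y := by
    rw [intervalIntegral.integral_of_le hN, e1, ← measureReal_restrict_apply (nw_meas _ _ _)]
    exact (integral_indicator_one (nw_meas _ _ _)).symm
  have h2 := intervalIntegral.sum_integral_adjacent_intervals (μ := volume) (f := ph1 m k l)
    (a := fun s : ℕ => (m : ℝ) * s) (n := Fintype.card (Fin m → Fin (m ^ 2))) (fun _ _ => ph1_int m k l _ _)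
  rw [e2, Nm_card]
  simp only [Nat.cast_zero, mul_zero] at h2
  rw [← h2]
  have h3 : ∀ s : ℕ, ∫ y in ((m : ℝ) * (s : ℕ))..((m : ℝ) * ((s + 1 : ℕ) : ℝ)), ph1 m k l y =
      ∫ z in (0 : ℝ)..m, ph1 m k l ((m : ℝ) * s + z) := by
    intro s
    rw [intervalIntegral.integral_comp_add_left]
    congr 1
    · ring
    · push_cast
      ring
  have h4 : ∀ s ∈ Finset.range (Fintype.card (Fin m → Fin (m ^ 2))),
      ∫ y in ((m : ℝ) * (s : ℕ))..((m : ℝ) * ((s + 1 : ℕ) : ℝ)), ph1 m k l y =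
      ∫ z in (0 : ℝ)..m, ph1 m k l ((m : ℝ) * s + z) := fun s _ => h3 s
  rw [Finset.sum_congr rfl h4, Finset.sum_range]
  rw [intervalIntegral.integral_finsetSum]
  · exact ((Fintype.equivFin (Fin m → Fin (m ^ 2))).sum_comp
      (fun i : Fin (Fintype.card (Fin m → Fin (m ^ 2))) =>
        ∫ z in (0 : ℝ)..m, ph1 m k l ((m : ℝ) * ((i : ℕ) : ℝ) + z))).symm
  · intro f _
    exact ph1_shift m k l _ _ _

/-- the sum over the segments -/
theorem sum_eq {m : ℕ} (hm : 1 ≤ m) (k : ℕ) {l z : ℝ} (hz : 0 < z) (hzl : z + l ≤ m) :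
    ∑ f : Fin m → Fin (m ^ 2), ph1 m k l ((m : ℝ) * idx m f + z) = ff m k z l := by
  classical
  unfold ff
  rw [Finset.card_filter]
  push_cast
  refine Finset.sum_congr rfl fun f _ => ?_
  unfold ph1
  rw [indicator_apply]
  simp only [mem_ofPred_eq, nw_seg hm f hz hzl, Pi.one_apply]

theorem sum_bd (m k : ℕ) (l z : ℝ) : 0 ≤ ∑ f : Fin m → Fin (m ^ 2), ph1 m k l ((m : ℝ) * idx m f + z) ∧
    ∑ f : Fin m → Fin (m ^ 2), ph1 m k l ((m : ℝ) * idx m f + z) ≤ ((m : ℝ) ^ 2) ^ m := by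
  have h0 : ∀ y, 0 ≤ ph1 m k l y := fun y => indicator_nonneg (fun _ _ => zero_le_one) y
  have h1 : ∀ y, ph1 m k l y ≤ 1 := fun y => by
    unfold ph1
    rw [indicator_apply]
    split_ifs
    · exact le_rfl
    · exact zero_le_one
  refine ⟨Finset.sum_nonneg fun f _ => h0 _, ?_⟩
  rw [← card_F]
  refine (Finset.sum_le_sum fun f _ => h1 _).trans ?_
  rw [Finset.sum_const, Finset.card_univ, nsmul_eq_mul, mul_one]

/-- **Seg.** -/
theorem seg_vol (k : ℕ) {l : ℝ} (hl : 0 < l) {η : ℝ} (hη : 0 < η) : ∀ᶠ m : ℕ in atTop,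
    |volume.real {y : ℝ | 0 < y ∧ y ≤ Nm m ∧ nw (Ym m) y l ≤ k} - Nm m * Q k l| ≤ η * Nm m := by
  have hn : Tendsto (fun m : ℕ => (m : ℝ)) atTop atTop := tendsto_natCast_atTop_atTop
  filter_upwards [ff_near k hl (half_pos hη), hn.eventually (eventually_ge_atTop l),
    hn.eventually (eventually_ge_atTop (2 * (l * (1 + |Q k l|)) / η)), eventually_ge_atTop 1] with m h1 h2 h3 h4
  have hm0 : (0 : ℝ) < m := by exact_mod_cast h4
  set P : ℝ := ((m : ℝ) ^ 2) ^ m with hP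
  have hP0 : 0 < P := by positivity
  have hN : (Nm m : ℝ) = m * P := by
    rw [Nm_card, card_F]
  set Ψ : ℝ → ℝ := fun z => ∑ f : Fin m → Fin (m ^ 2), ph1 m k l ((m : ℝ) * idx m f + z) with hΨ
  have hΨi : ∀ a b : ℝ, IntervalIntegrable Ψ volume a b := by
    intro a b
    have h5 := IntervalIntegrable.sum (μ := volume) (a := a) (b := b) (Finset.univ : Finset (Fin m → Fin (m ^ 2)))
      (f := fun f z => ph1 m k l ((m : ℝ) * idx m f + z)) (fun f _ => ph1_shift m k l _ _ _)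
    have e : Ψ = ∑ f : Fin m → Fin (m ^ 2), fun z => ph1 m k l ((m : ℝ) * idx m f + z) := by
      funext z
      rw [hΨ, Finset.sum_apply]
    rw [e]
    exact h5
  have e1 : ∫ z in (0 : ℝ)..m, (Ψ z - P * Q k l) = (∫ z in (0 : ℝ)..m, Ψ z) - m * P * Q k l := by
    rw [intervalIntegral.integral_sub (hΨi _ _) intervalIntegrable_const, intervalIntegral.integral_const, smul_eq_mul]
    ring
  have e2 : (∫ z in (0 : ℝ)..(m - l), (Ψ z - P * Q k l)) + ∫ z in ((m : ℝ) - l)..m, (Ψ z - P * Q k l) =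
      ∫ z in (0 : ℝ)..m, (Ψ z - P * Q k l) :=
    intervalIntegral.integral_add_adjacent_intervals ((hΨi _ _).sub intervalIntegrable_const)
      ((hΨi _ _).sub intervalIntegrable_const)
  have b1 : ‖∫ z in (0 : ℝ)..(m - l), (Ψ z - P * Q k l)‖ ≤ (η / 2 * P) * |(m - l) - 0| := by
    refine intervalIntegral.norm_integral_le_of_norm_le_const fun z hz => ?_
    rw [uIoc_of_le (by linarith)] at hz
    rw [Real.norm_eq_abs]
    have h5 := h1 z hz.1 (by linarith [hz.2])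
    have h6 : Ψ z = ff m k z l := sum_eq h4 k hz.1 (by linarith [hz.2])
    rw [h6]
    exact h5
  have b2 : ‖∫ z in ((m : ℝ) - l)..m, (Ψ z - P * Q k l)‖ ≤ (P * (1 + |Q k l|)) * |m - (m - l)| := by
    refine intervalIntegral.norm_integral_le_of_norm_le_const fun z hz => ?_
    rw [Real.norm_eq_abs]
    obtain ⟨h5, h6⟩ := sum_bd m k l z
    have h7 : |Ψ z| ≤ P := by
      rw [abs_of_nonneg h5]
      exact h6
    have h8 : |P * Q k l| = P * |Q k l| := by rw [abs_mul, abs_of_pos hP0]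
    calc |Ψ z - P * Q k l| ≤ |Ψ z| + |P * Q k l| := abs_sub _ _
      _ ≤ P + P * |Q k l| := by rw [h8]; linarith
      _ = P * (1 + |Q k l|) := by ring
  rw [vol_eq, hN]
  have e3 : (∫ z in (0 : ℝ)..m, Ψ z) - m * P * Q k l =
      (∫ z in (0 : ℝ)..(m - l), (Ψ z - P * Q k l)) + ∫ z in ((m : ℝ) - l)..m, (Ψ z - P * Q k l) := by
    rw [e2, e1]
  change |(∫ z in (0 : ℝ)..m, Ψ z) - m * P * Q k l| ≤ η * (m * P)
  rw [e3]
  rw [sub_zero, abs_of_nonneg (by linarith : (0 : ℝ) ≤ (m : ℝ) - l), Real.norm_eq_abs] at b1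
  have e4 : |(m : ℝ) - (m - l)| = l := by
    rw [sub_sub_cancel, abs_of_pos hl]
  rw [e4, Real.norm_eq_abs] at b2
  refine (abs_add_le _ _).trans ?_
  rw [div_le_iff₀ hη] at h3
  have c1 : η / 2 * P * ((m : ℝ) - l) ≤ η / 2 * P * m :=
    mul_le_mul_of_nonneg_left (by linarith) (by positivity)
  have c2 : P * (1 + |Q k l|) * l ≤ η / 2 * P * m := by
    have h5 : P * (2 * (l * (1 + |Q k l|))) ≤ P * (m * η) := mul_le_mul_of_nonneg_left h3 hP0.le
    nlinarith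
  have e5 : η * ((m : ℝ) * P) = η / 2 * P * m + η / 2 * P * m := by ring
  rw [e5]
  linarith

end Pool.Agent.H73.KP
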