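import Pool.Agent.H73.KP.Cfg2

/-!
# KP: the systems with prescribed laws of all patterns, with special blocks
-/

set_option autoImplicit false

open MeasureTheory Filter Topology Set

namespace Pool.Agent.H73.KP

open Pool.Agent.H49.BZ (Dens Disc md MM tt md_meas log_pos' md_pos md_nonneg md_le_one md_int MM_sub MM_lt MM_le MM_nonneg
  le_MM_inc tt_one_le MM_tt tt_mono tt_zero tt_ge exists_slot MM_sub_le le_md)
open Pool.Agent.H49.BP (ph ph_abs ph_meas pc)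
open Pool.Agent.H73.TR (rot un)
open Pool.Agent.H73.KT (pat mult mx Mb off pos cnt cst Slow tc Mb_zero Mb_succ Mb_mono le_Mb exists_index growth
  activation mem_pat pat_ne mx_le le_mx ins_card empty_notMem mult_empty block_pi wk wk_nonneg
  wk_sum abel_near Laws sum_early mix mix_prob mix_supp mix_null mix_int derandG cnt_mean mult_self card_pat rot_mem)
open Pool.Agent.H73.KZ (DV Blocks Enum NearB tb tb_mono tb_ge tb_one_le ln lw lw_nonneg flw_int flw_le law_int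
  thresholdsZ sub_len MM_block enum exists_block disc_blocks points_blocks count_blocks)

/-! ### The masses -/

theorem masses (U : ℕ → ℕ) : ∃ a : ℕ → ℕ, Monotone a ∧ Tendsto a atTop atTop ∧ (∀ b, Nm (ms (a b)) = a b + 1) ∧
    ∀ b, a b ≠ 0 → U (a b) ≤ b := by
  obtain ⟨a0, h1, h2, h3⟩ := activation fun k => ∑ i ∈ Finset.range (k + 1), U i
  have hpos : ∀ k, 1 ≤ Nm (ms k) := fun k => (ms_facts k).1.trans (Nm_ge _)
  refine ⟨fun b => Nm (ms (a0 b)) - 1, fun i j hij => ?_, ?_, fun b => ?_, fun b hb => ?_⟩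
  · have h4 := Nm_mono (ms_mono (h1 hij))
    show Nm (ms (a0 i)) - 1 ≤ Nm (ms (a0 j)) - 1
    omega
  · refine tendsto_atTop.2 fun K => ?_
    filter_upwards [(ms_top.comp h2).eventually (eventually_ge_atTop (K + 1))] with b hb
    have h4 := Nm_ge (ms (a0 b))
    have h5 : K + 1 ≤ ms (a0 b) := hb
    omega
  · show Nm (ms (Nm (ms (a0 b)) - 1)) = Nm (ms (a0 b)) - 1 + 1
    rw [(ms_facts (a0 b)).2.2]
    have := hpos (a0 b)
    omega
  · have hb' : Nm (ms (a0 b)) - 1 ≠ 0 := hb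
    have h4 := (ms_facts (a0 b)).2.1
    have h5 := h3 b (by omega)
    have h6 : U (Nm (ms (a0 b)) - 1) ≤ ∑ i ∈ Finset.range (a0 b + 1), U i :=
      Finset.single_le_sum (f := U) (fun _ _ => Nat.zero_le _) (Finset.mem_range.2 (by omega))
    exact h6.trans h5

variable [Dens]

/-! ### The thresholds -/

theorem thr2 [DV] {n : Finset ℕ → ℝ → ℝ} (hn : Laws n) :
    ∃ U : ℕ → ℕ, ∀ a, 2 ^ a ≤ U a ∧ (∀ k, U a ≤ k → 2 * ((a : ℝ) + 2) ^ 2 < tt (k + 1) - tt k) ∧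
      (∀ k, U a ≤ k → ((a : ℝ) + 2) ^ 2 * ((ms a : ℝ) + 1) ^ 2 < tt (k + 1) - tt k) ∧
      ∀ u : ℝ, (U a : ℝ) ≤ u → (∀ D ∈ pat a, 8 * n D u ≤ cst a) ∧
        (∀ D ∈ pat a, 8 * n D u ≤ 1 / (4 ^ (a + 1) * ((a : ℝ) + 1) ^ 4)) ∧
        ∀ D ∈ pat a, ∀ D' ∈ pat a, D ≠ D' → mult D D' ≠ 0 → n D' u ≤ cst a * n D u := by
  obtain ⟨U, hU⟩ := thresholdsZ hn.lim hn.sub
  choose n0 hn0 using fun a : ℕ => sub_len (((a : ℝ) + 2) ^ 2 * ((ms a : ℝ) + 1) ^ 2)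
  have h1 : ∀ a : ℕ, ∃ N : ℕ, ∀ u : ℝ, (N : ℝ) ≤ u → ∀ D ∈ pat a, 8 * n D u ≤ 1 / (4 ^ (a + 1) * ((a : ℝ) + 1) ^ 4) := by
    intro a
    have h2 : ∀ᶠ u : ℝ in atTop, ∀ D ∈ pat a, 8 * n D u ≤ 1 / (4 ^ (a + 1) * ((a : ℝ) + 1) ^ 4) := by
      rw [eventually_all_finset]
      intro D hD
      have h3 := (hn.lim D (mem_pat.1 hD).2.1 (mem_pat.1 hD).2.2).const_mul 8
      rw [mul_zero] at h3
      exact h3.eventually_le_const (by positivity)
    obtain ⟨u1, hu1⟩ := eventually_atTop.1 h2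
    obtain ⟨N, hN⟩ := exists_nat_ge u1
    exact ⟨N, fun u hu => hu1 u (hN.trans hu)⟩
  choose N hN using h1
  refine ⟨fun a => max (U a) (max (n0 a) (N a)), fun a => ⟨(hU a).1.trans (le_max_left _ _),
    fun k hk => (hU a).2.1 k ((le_max_left _ _).trans hk),
    fun k hk => hn0 a k (((le_max_left _ _).trans (le_max_right _ _)).trans hk), fun u hu => ?_⟩⟩
  have hu1 : (U a : ℝ) ≤ u := by
    have h3 : ((U a : ℕ) : ℝ) ≤ ((max (U a) (max (n0 a) (N a)) : ℕ) : ℝ) := by exact_mod_cast le_max_left _ _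
    exact h3.trans hu
  have hu2 : (N a : ℝ) ≤ u := by
    have h3 : ((N a : ℕ) : ℝ) ≤ ((max (U a) (max (n0 a) (N a)) : ℕ) : ℝ) := by
      exact_mod_cast (le_max_right _ _).trans (le_max_right _ _)
    exact h3.trans hu
  obtain ⟨h3, h4⟩ := (hU a).2.2 u hu1
  exact ⟨h3, hN a u hu2, h4⟩

/-! ### The probability of the patterns -/

omit [Dens] in
theorem pat_prob {a : ℕ} {L : ℝ} (hL : a ≠ 0 → 2 * ((a : ℝ) + 2) ^ 2 ≤ L) {W p : Finset ℕ → ℝ}
    (hp0 : ∀ D ∈ insert ∅ (pat a), 0 ≤ p D)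
    (hpE : ∀ E ∈ pat a, ∑ D ∈ insert ∅ (pat a), p D * ((mult E D : ℝ) * (1 - mx E / L)) = W E)
    (hW : ∀ D ∈ pat a, W D ≤ 1 / (4 ^ (a + 1) * ((a : ℝ) + 1) ^ 4) * ((a : ℝ) + 1)) :
    ∑ D ∈ insert ∅ (pat a), p D * (D.card : ℝ) ≤ 2 / ((a : ℝ) + 1) ^ 2 := by
  have ha0 : (0 : ℝ) ≤ a := Nat.cast_nonneg a
  have ha1 : (0 : ℝ) < (a : ℝ) + 1 := by linarith
  have h1 : ∀ D ∈ pat a, p D * (D.card : ℝ) ≤ 2 / (4 ^ (a + 1) * ((a : ℝ) + 1) ^ 2) := by
    intro D hD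
    have hDi : D ∈ insert ∅ (pat a) := Finset.mem_insert_of_mem hD
    have h2 := hL (pat_ne hD)
    have h3 : (mx D : ℝ) ≤ a := by exact_mod_cast mx_le hD
    have h4 : 0 < L := by nlinarith
    have h5 : (mx D : ℝ) / L ≤ 1 / 2 := by
      rw [div_le_iff₀ h4]
      nlinarith
    have h6 : p D * ((mult D D : ℝ) * (1 - mx D / L)) ≤ W D := by
      rw [← hpE D hD]
      refine Finset.single_le_sum (f := fun D' => p D' * ((mult D D' : ℝ) * (1 - mx D / L))) (fun D' hD' => ?_) hDi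
      exact mul_nonneg (hp0 D' hD') (mul_nonneg (Nat.cast_nonneg _) (by linarith))
    rw [mult_self (mem_pat.1 hD).2.1, Nat.cast_one, one_mul] at h6
    have h7 := hp0 D hDi
    have h8 : p D * (1 / 2) ≤ p D * (1 - mx D / L) := mul_le_mul_of_nonneg_left (by linarith) h7
    have h9 : p D ≤ 2 * (1 / (4 ^ (a + 1) * ((a : ℝ) + 1) ^ 4) * ((a : ℝ) + 1)) := by
      have := hW D hD
      linarith
    have h10 : (D.card : ℝ) ≤ (a : ℝ) + 1 := by exact_mod_cast ins_card hDi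
    calc p D * (D.card : ℝ) ≤ 2 * (1 / (4 ^ (a + 1) * ((a : ℝ) + 1) ^ 4) * ((a : ℝ) + 1)) * ((a : ℝ) + 1) :=
        mul_le_mul h9 h10 (Nat.cast_nonneg _) (by positivity)
      _ = 2 / (4 ^ (a + 1) * ((a : ℝ) + 1) ^ 2) := by
        field_simp
  have h2 : ∑ D ∈ insert ∅ (pat a), p D * (D.card : ℝ) = ∑ D ∈ pat a, p D * (D.card : ℝ) := by
    rw [Finset.sum_insert (empty_notMem a)]
    simp
  rw [h2]
  refine (Finset.sum_le_sum h1).trans ?_
  rw [Finset.sum_const, nsmul_eq_mul]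
  have h3 : ((pat a).card : ℝ) ≤ 4 ^ (a + 1) := by
    have h4 : (pat a).card ≤ 4 ^ (a + 1) := (card_pat a).trans (Nat.pow_le_pow_left (by norm_num) _)
    exact_mod_cast h4
  calc ((pat a).card : ℝ) * (2 / (4 ^ (a + 1) * ((a : ℝ) + 1) ^ 2)) ≤
      4 ^ (a + 1) * (2 / (4 ^ (a + 1) * ((a : ℝ) + 1) ^ 2)) := mul_le_mul_of_nonneg_right h3 (by positivity)
    _ = 2 / ((a : ℝ) + 1) ^ 2 := by
      field_simp

omit [Dens] in
theorem mult_nil (D : Finset ℕ) : mult ∅ D = D.card := by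
  unfold mult
  simp

omit [Dens] in
theorem mx_nil : mx ∅ = 0 := by
  unfold mx
  simp

omit [Dens] in
theorem cnt_nil {a : ℕ} {α β : ℝ} (hαβ : α < β) (hL : a ≠ 0 → 2 * ((a : ℝ) + 2) ^ 2 ≤ β - α) {D : Finset ℕ}
    (hD : D ∈ insert ∅ (pat a)) {v : ℝ} (hv : v ∈ Ioc (0 : ℝ) 1) : cnt α β ∅ D v = D.card := by
  have h1 : ∀ t ∈ D, (if rot α β (t : ℝ) (pos α β v) + (mx ∅ : ℝ) ≤ β then (1 : ℝ) else 0) = 1 := by
    intro t ht
    rw [mx_nil, Nat.cast_zero, add_zero]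
    obtain ⟨h2, h3⟩ := off2_mem hαβ hL hD (cast_mem_off2 ht)
    rw [if_pos (rot_mem hαβ hv h2 h3).2]
  unfold cnt
  have h2 : D.filter (fun t => ∀ e ∈ (∅ : Finset ℕ), t + e ∈ D) = D := by simp
  rw [h2, Finset.sum_congr rfl h1, Finset.sum_const, nsmul_eq_mul, mul_one]

omit [Dens] in
/-- the bad blocks are negligible -/
theorem bad_negl {a : ℕ → ℕ} (ha2 : Tendsto a atTop atTop) {D : ℕ → Finset ℕ} {m : ℕ → ℝ}
    (hm : ∀ b, m b ≤ 2 / ((a b : ℝ) + 1) ^ 2) {C : ℝ}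
    (h : ∀ J : ℕ, |∑ b ∈ Finset.range J, ((a b : ℝ) + 1) * (((D b).card : ℝ) - m b)| ≤ C * (J : ℝ) ^ ((3 : ℝ) / 4)) :
    ∀ η : ℝ, 0 < η → ∀ᶠ J : ℕ in atTop,
        ∑ b ∈ (Finset.range J).filter (fun b => D b ≠ ∅), ((a b : ℝ) + 1) ≤ η * Mb a J := by
  intro η hη
  have hap : ∀ b, (0 : ℝ) < (a b : ℝ) + 1 := fun b => by positivity
  -- the means are small
  have h1 : Tendsto (fun b => 2 / ((a b : ℝ) + 1)) atTop (𝓝 0) := by
    refine Tendsto.div_atTop tendsto_const_nhds ?_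
    exact tendsto_atTop_add_const_right _ _ (tendsto_natCast_atTop_atTop.comp ha2)
  have h2 := h1.cesaro
  have h3 : Tendsto (fun J : ℕ => C * (J : ℝ) ^ (-(1 / 4) : ℝ)) atTop (𝓝 0) := by
    have h4 := ((tendsto_rpow_neg_atTop (show (0 : ℝ) < 1 / 4 by norm_num)).comp
      (tendsto_natCast_atTop_atTop (R := ℝ))).const_mul C
    rw [mul_zero] at h4
    exact h4
  have h4 := h2.add h3
  rw [add_zero] at h4
  filter_upwards [h4.eventually_le_const hη, eventually_ge_atTop 1] with J hJ hJ1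
  have hJ0 : (0 : ℝ) < J := by exact_mod_cast hJ1
  have h5 : ∑ b ∈ (Finset.range J).filter (fun b => D b ≠ ∅), ((a b : ℝ) + 1) ≤
      ∑ b ∈ Finset.range J, ((a b : ℝ) + 1) * ((D b).card : ℝ) := by
    rw [Finset.sum_filter]
    refine Finset.sum_le_sum fun b _ => ?_
    split_ifs with h6
    · have h7 : 1 ≤ (D b).card := Finset.card_pos.2 (Finset.nonempty_iff_ne_empty.2 h6)
      have h8 : (1 : ℝ) ≤ (D b).card := by exact_mod_cast h7
      exact le_mul_of_one_le_right (hap b).le h8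
    · exact mul_nonneg (hap b).le (Nat.cast_nonneg _)
  have h6 : ∑ b ∈ Finset.range J, ((a b : ℝ) + 1) * ((D b).card : ℝ) =
      ∑ b ∈ Finset.range J, ((a b : ℝ) + 1) * (((D b).card : ℝ) - m b) +
        ∑ b ∈ Finset.range J, ((a b : ℝ) + 1) * m b := by
    rw [← Finset.sum_add_distrib]
    refine Finset.sum_congr rfl fun b _ => ?_
    ring
  have h7 : ∑ b ∈ Finset.range J, ((a b : ℝ) + 1) * m b ≤ ∑ b ∈ Finset.range J, 2 / ((a b : ℝ) + 1) := by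
    refine Finset.sum_le_sum fun b _ => ?_
    refine (mul_le_mul_of_nonneg_left (hm b) (hap b).le).trans (le_of_eq ?_)
    have := (hap b).ne'
    field_simp
  have h8 := (abs_le.1 (h J)).2
  have h9 : (J : ℝ) ^ ((3 : ℝ) / 4) = J * (J : ℝ) ^ (-(1 / 4) : ℝ) := by
    have h10 : (J : ℝ) * (J : ℝ) ^ (-(1 / 4) : ℝ) = (J : ℝ) ^ (1 : ℝ) * (J : ℝ) ^ (-(1 / 4) : ℝ) := by
      rw [Real.rpow_one]
    rw [h10, ← Real.rpow_add hJ0]
    norm_num
  have h10 : ∑ b ∈ Finset.range J, 2 / ((a b : ℝ) + 1) + C * (J : ℝ) ^ ((3 : ℝ) / 4) ≤ J * η := by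
    have h11 := mul_le_mul_of_nonneg_left hJ hJ0.le
    rw [mul_add, ← mul_assoc, mul_inv_cancel₀ hJ0.ne', one_mul] at h11
    rw [h9]
    linarith
  have h11 : (J : ℝ) ≤ Mb a J := by exact_mod_cast le_Mb J
  have h12 := mul_le_mul_of_nonneg_left h11 hη.le
  linarith

/-- **The systems with prescribed laws, with special blocks.** -/
theorem realise2 [DV] {n : Finset ℕ → ℝ → ℝ} (hn : Laws n) (V : ℕ → ℕ) :
    ∃ (a : ℕ → ℕ) (S : ℕ → Finset ℝ) (q : ℕ → ℝ) (D : ℕ → Finset ℕ) (v : ℕ → ℝ),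
      (Slow a ∧ (∀ b, a b ≠ 0 → V (a b) ≤ b) ∧ Blocks a S ∧ Enum a S q) ∧
      Disc q ∧
      (∀ δ : ℝ, 0 < δ → ∃ C : ℝ, ∀ x : ℝ, 1 ≤ x → |(pc q x : ℝ) - MM x| ≤ C * x ^ δ) ∧
      (∀ E : Finset ℕ, 0 ∈ E → 2 ≤ E.card → ∀ ε : ℝ, 0 < ε → ∃ C : ℝ, ∀ x : ℝ, 2 ≤ x →
        |(tc q E x : ℝ) - ∫ u in (2 : ℝ)..x, n E u / Real.log u| ≤ C * x ^ (1 / 2 + ε)) ∧
      (∀ b, v b ∈ Ioc (0 : ℝ) 1) ∧
      (∀ b, D b = ∅ → 1 ≤ a b → Nm (ms (a b)) = a b + 1 ∧ S b = ((Ym (ms (a b))).image fun y =>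
        y * ((tb a (b + 1) - tb a b) / Nm (ms (a b)))).image fun c => rot (tb a b) (tb a (b + 1)) c (pos (tb a b) (tb a (b + 1)) (v b))) ∧
      ∀ η : ℝ, 0 < η → ∀ᶠ J : ℕ in atTop,
        ∑ b ∈ (Finset.range J).filter (fun b => D b ≠ ∅), ((a b : ℝ) + 1) ≤ η * Mb a J := by
  classical
  obtain ⟨U, hU⟩ := thr2 hn
  obtain ⟨a, ha1, ha2, haN, ha3'⟩ := masses fun k => max (U k) (V k)
  have ha3 : ∀ b, a b ≠ 0 → U (a b) ≤ b := fun b hb => (le_max_left _ _).trans (ha3' b hb)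
  have haV : ∀ b, a b ≠ 0 → V (a b) ≤ b := fun b hb => (le_max_right _ _).trans (ha3' b hb)
  have ha : Slow a := ⟨ha1, ha2, fun b hb => ((hU (a b)).1).trans (ha3 b hb)⟩
  have hab : ∀ b, tb a b < tb a (b + 1) := fun b => tb_mono (Nat.lt_succ_self b)
  have hlow : ∀ b, a b ≠ 0 → ∀ u, tb a b ≤ u → (U (a b) : ℝ) ≤ u := by
    intro b hb u hu
    have h1 : (U (a b) : ℝ) ≤ b := by exact_mod_cast ha3 b hb
    have h2 := tb_ge (a := a) b
    linarith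
  have hL : ∀ b, a b ≠ 0 → 2 * ((a b : ℝ) + 2) ^ 2 ≤ tb a (b + 1) - tb a b := by
    intro b hb
    have h1 := (hU (a b)).2.1 (Mb a b) ((ha3 b hb).trans (le_Mb b))
    have h2 : tt (Mb a b + 1) ≤ tb a (b + 1) := by
      unfold tb
      exact tt_mono.monotone (by rw [Mb_succ]; omega)
    unfold tb at h2 ⊢
    linarith
  have hL2 : ∀ b, a b ≠ 0 → ((a b : ℝ) + 2) ^ 2 * ((ms (a b) : ℝ) + 1) ^ 2 ≤ tb a (b + 1) - tb a b := by
    intro b hb
    have h1 := (hU (a b)).2.2.1 (Mb a b) ((ha3 b hb).trans (le_Mb b))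
    have h2 : tt (Mb a b + 1) ≤ tb a (b + 1) := by
      unfold tb
      exact tt_mono.monotone (by rw [Mb_succ]; omega)
    unfold tb at h2 ⊢
    linarith
  have hint : ∀ (D : Finset ℕ) (x y : ℝ), IntervalIntegrable (fun u => n D u * lw u) volume x y := by
    intro D x y
    obtain ⟨B, hB⟩ := hn.bdd D
    exact flw_int (hn.meas D) (hn.nonneg D) hB x y
  -- the weights
  set W : ℕ → Finset ℕ → ℝ := fun b D => ∫ u in (tb a b)..(tb a (b + 1)), n D u * lw u with hW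
  have hW0 : ∀ b D, 0 ≤ W b D := by
    intro b D
    exact intervalIntegral.integral_nonneg (hab b).le fun u _ => mul_nonneg (hn.nonneg D u) (lw_nonneg u)
  have hW1 : ∀ b, ∀ D ∈ pat (a b), W b D ≤ cst (a b) * ((a b : ℝ) + 1) := by
    intro b D hD
    obtain ⟨B, hB⟩ := hn.bdd D
    have h3 := flw_le (hn.meas D) (hn.nonneg D) hB (tb_one_le (a := a) b) (hab b).le (c := cst (a b)) (fun u hu =>
      ((hU (a b)).2.2.2 u (hlow b (pat_ne hD) u hu.1)).1 D hD)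
    rw [MM_block] at h3
    exact h3
  have hW3 : ∀ b, ∀ D ∈ pat (a b), W b D ≤ 1 / (4 ^ (a b + 1) * ((a b : ℝ) + 1) ^ 4) * ((a b : ℝ) + 1) := by
    intro b D hD
    obtain ⟨B, hB⟩ := hn.bdd D
    have h3 := flw_le (hn.meas D) (hn.nonneg D) hB (tb_one_le (a := a) b) (hab b).le
      (c := 1 / (4 ^ (a b + 1) * ((a b : ℝ) + 1) ^ 4)) (fun u hu =>
      ((hU (a b)).2.2.2 u (hlow b (pat_ne hD) u hu.1)).2.1 D hD)
    rw [MM_block] at h3
    exact h3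
  have hW2 : ∀ b, ∀ D ∈ pat (a b), ∀ D' ∈ pat (a b), D ≠ D' → mult D D' ≠ 0 → W b D' ≤ cst (a b) * W b D := by
    intro b D hD D' hD' hne hm
    have h3 := intervalIntegral.integral_mono_on (hab b).le (hint D' _ _)
      ((hint D _ _).const_mul (cst (a b))) (fun u hu => by
        have h4 := mul_le_mul_of_nonneg_right
          (((hU (a b)).2.2.2 u (hlow b (pat_ne hD) u hu.1)).2.2 D hD D' hD' hne hm) (lw_nonneg u)
        rw [mul_assoc] at h4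
        exact h4)
    rw [intervalIntegral.integral_const_mul] at h3
    exact h3
  choose p hp0 hp1 hpE using fun b => block_pi (hL b) (W := W b) (fun D _ => hW0 b D) (hW1 b) (hW2 b)
  -- the choice
  let μ : ℕ → Measure (Finset ℕ × ℝ) := fun b => mix (insert ∅ (pat (a b))) (p b)
  haveI : ∀ b, IsProbabilityMeasure (μ b) := fun b => mix_prob (hp0 b) (hp1 b)
  obtain ⟨ω, hωA, hωN, hωD⟩ := derandG μ
    (fun b => {x | x.1 ∈ insert ∅ (pat (a b)) ∧ 0 < p b x.1 ∧ x.2 ∈ Ioc (0 : ℝ) 1})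
    (fun b => TT2 (a b) (tb a b) (tb a (b + 1))) wk (fun b => mix_supp (hp0 b) (hp1 b)) wk_nonneg wk_sum
    (fun b k => TT2_meas _ _ _ k) (fun b k x => TT2_abs _ _ _ k x) (fun b y => av2 a b y)
    (fun b y => mix_null (hp0 b) (hp1 b) (av2_count a b y))
  set S : ℕ → Finset ℝ := fun b => SS2 a b (ω b) with hSdef
  have hins : ∀ b, (ω b).1 ∈ insert ∅ (pat (a b)) := fun b => (hωA b).1
  have hv : ∀ b, (ω b).2 ∈ Ioc (0 : ℝ) 1 := fun b => (hωA b).2.2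
  have hS : Blocks a S := ⟨fun b => cfg2_card (hab b) (hL b) (hins b) (hv b),
    fun b x hx => cfg2_mem (hab b) (hL b) (hins b) (hv b) hx,
    fun b x hx y hy h => cfg2_sep (hab b) (hL b) (hins b) (hv b) hx hy h⟩
  obtain ⟨q, hq⟩ := enum hS
  have hX : ∀ b, ∀ x ∈ S b, ∀ y ∈ S (b + 1), ∀ k : ℕ, y ≠ x + (k : ℝ) := by
    intro b x hx y hy k h
    exact hωN b ⟨x, hx, y, hy, k, h⟩
  -- the means
  have hmean : ∀ b k, ∫ y, TT2 (a b) (tb a b) (tb a (b + 1)) k y ∂(μ b) =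
      ∑ D ∈ insert ∅ (pat (a b)), p b D * ∫ v, TT2 (a b) (tb a b) (tb a (b + 1)) k (D, v) ∂un := by
    intro b k
    exact mix_int (hp0 b) (hp1 b) (TT2_meas _ _ _ k) (TT2_abs _ _ _ k)
  have hap : ∀ b, (0 : ℝ) < (a b : ℝ) + 1 := fun b => by positivity
  have hm1 : ∀ b m s, ((a b : ℝ) + 1) * ∫ y, TT2 (a b) (tb a b) (tb a (b + 1)) (Sum.inl (m, s)) y ∂(μ b) =
      ((a b : ℝ) + 1) * ((ln a b)⁻¹ * ∫ y in (tb a b)..(tb a (b + 1)), ph m s y) := by
    intro b m s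
    have h1 : ∀ D ∈ insert ∅ (pat (a b)), ∫ v, TT2 (a b) (tb a b) (tb a (b + 1)) (Sum.inl (m, s)) (D, v) ∂un =
        (ln a b)⁻¹ * ∫ y in (tb a b)..(tb a (b + 1)), ph m s y := by
      intro D hD
      have h2 : (fun v => TT2 (a b) (tb a b) (tb a (b + 1)) (Sum.inl (m, s)) (D, v)) =
          fun v => gs2 (a b) (tb a b) (tb a (b + 1)) (ph m s) D v / ((a b : ℝ) + 1) := by
        funext v
        unfold TT2
        rw [if_pos hD]
      have h3 : (fun v => TT2 (a b) (tb a b) (tb a (b + 1)) (Sum.inl (m, s)) (D, v)) =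
          fun v => gs2 (a b) (tb a b) (tb a (b + 1)) (ph m s) D v / ((a b : ℝ) + 1) := h2
      rw [h3, integral_div, gs2_mean (hab b) (ph_meas m s) (ph_abs m s) (off2_card (hab b) (hL b) hD)
        (fun c hc => off2_mem (hab b) (hL b) hD hc)]
      rw [mul_div_assoc, mul_comm, div_mul_cancel₀ _ (hap b).ne']
      rfl
    rw [hmean, Finset.sum_congr rfl fun D hD => by rw [h1 D hD], ← Finset.sum_mul, hp1 b, one_mul]
  have hm2 : ∀ b, ∀ E ∈ pat (a b), ((a b : ℝ) + 1) * ∫ y, TT2 (a b) (tb a b) (tb a (b + 1)) (Sum.inr E) y ∂(μ b) =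
      W b E := by
    intro b E hE
    have ha0 : (0 : ℝ) ≤ a b := Nat.cast_nonneg _
    have hLb := hL b (pat_ne hE)
    have hmxE : (mx E : ℝ) ≤ a b := by exact_mod_cast mx_le hE
    have h1 : ∀ D ∈ insert ∅ (pat (a b)), ∫ v, TT2 (a b) (tb a b) (tb a (b + 1)) (Sum.inr E) (D, v) ∂un =
        ((mult E D : ℝ) * (1 - mx E / (tb a (b + 1) - tb a b))) / ((a b : ℝ) + 1) := by
      intro D hD
      have h2 : (fun v => TT2 (a b) (tb a b) (tb a (b + 1)) (Sum.inr E) (D, v)) =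
          fun v => cnt (tb a b) (tb a (b + 1)) E D v / ((a b : ℝ) + 1) := by
        funext v
        unfold TT2
        rw [if_pos hD]
      have h3 : ∀ t ∈ D, (t : ℝ) ≤ tb a (b + 1) - tb a b := by
        intro t ht
        rw [Finset.mem_insert] at hD
        rcases hD with rfl | hD
        · simp at ht
        · have h4 : (t : ℝ) ≤ a b := by exact_mod_cast (mem_pat.1 hD).1 t ht
          nlinarith
      rw [h2, integral_div, cnt_mean (hab b) (by nlinarith) h3]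
    rw [hmean, Finset.sum_congr rfl fun D hD => by rw [h1 D hD], Finset.mul_sum, ← hpE b E hE]
    refine Finset.sum_congr rfl fun D _ => ?_
    have := (hap b).ne'
    field_simp
  have hD' := abel_near ha (κ := (ℤ × Bool) ⊕ Finset ℕ)
    (y := fun k b => TT2 (a b) (tb a b) (tb a (b + 1)) k (ω b) - ∫ y, TT2 (a b) (tb a b) (tb a (b + 1)) k y ∂(μ b))
    (g := fun k => √(Real.log (wk k + 3))) (fun k => Real.sqrt_nonneg _) hωD
  have hN : NearB a S := by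
    intro δ hδ
    obtain ⟨C, hC0, hC⟩ := hD' δ hδ
    refine ⟨C, hC0, fun m s J => ?_⟩
    have h1 := hC (Sum.inl (m, s)) J
    refine le_trans (le_of_eq ?_) h1
    congr 1
    refine Finset.sum_congr rfl fun b _ => ?_
    rw [mul_sub, hm1 b m s]
    congr 1
    have h2 : ∑ x ∈ S b, ph m s x = gs2 (a b) (tb a b) (tb a (b + 1)) (ph m s) (ω b).1 (ω b).2 :=
      cfg2_sum (hab b) (hL b) (hins b) (hv b) (ph m s)
    rw [h2]
    unfold TT2
    rw [if_pos (hins b)]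
    show _ = ((a b : ℝ) + 1) * (gs2 (a b) (tb a b) (tb a (b + 1)) (ph m s) (ω b).1 (ω b).2 / ((a b : ℝ) + 1))
    rw [mul_div_cancel₀ _ (hap b).ne']
  -- the patterns that are present in the blocks
  have hE0 : ∀ E : Finset ℕ, 0 ∈ E → 2 ≤ E.card → ∃ b0 : ℕ, ∀ b, b0 ≤ b → E ∈ pat (a b) := by
    intro E h0 h2
    obtain ⟨b0, hb0⟩ := eventually_atTop.1 (ha2.eventually (eventually_ge_atTop (mx E)))
    refine ⟨b0, fun b hb => mem_pat.2 ⟨fun t ht => (le_mx ht).trans (hb0 b hb), h0, h2⟩⟩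
  -- the bad blocks
  have hbm : ∀ b, ((a b : ℝ) + 1) * ∫ y, TT2 (a b) (tb a b) (tb a (b + 1)) (Sum.inr ∅) y ∂(μ b) =
      ∑ D ∈ insert ∅ (pat (a b)), p b D * (D.card : ℝ) := by
    intro b
    have ha0 : (0 : ℝ) ≤ a b := Nat.cast_nonneg _
    have h1 : ∀ D ∈ insert ∅ (pat (a b)), ∫ v, TT2 (a b) (tb a b) (tb a (b + 1)) (Sum.inr ∅) (D, v) ∂un =
        (D.card : ℝ) / ((a b : ℝ) + 1) := by
      intro D hD
      have h2 : (fun v => TT2 (a b) (tb a b) (tb a (b + 1)) (Sum.inr ∅) (D, v)) =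
          fun v => cnt (tb a b) (tb a (b + 1)) ∅ D v / ((a b : ℝ) + 1) := by
        funext v
        unfold TT2
        rw [if_pos hD]
      have h3 : ∀ t ∈ D, (t : ℝ) ≤ tb a (b + 1) - tb a b := fun t ht =>
        (off2_mem (hab b) (hL b) hD (cast_mem_off2 ht)).2.le
      rw [h2, integral_div, cnt_mean (hab b) (by rw [mx_nil, Nat.cast_zero]; linarith [hab b]) h3, mult_nil, mx_nil,
        Nat.cast_zero, zero_div, sub_zero, mul_one]
    rw [hmean, Finset.sum_congr rfl fun D hD => by rw [h1 D hD], Finset.mul_sum]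
    refine Finset.sum_congr rfl fun D _ => ?_
    have := (hap b).ne'
    field_simp
  have hbad : ∀ η : ℝ, 0 < η → ∀ᶠ J : ℕ in atTop,
        ∑ b ∈ (Finset.range J).filter (fun b => (ω b).1 ≠ ∅), ((a b : ℝ) + 1) ≤ η * Mb a J := by
    have hD2 := abel_near ha (κ := (ℤ × Bool) ⊕ Finset ℕ) (fun k => Real.sqrt_nonneg _) hD'
    obtain ⟨C, hC0, hC⟩ := hD2 (1 / 4) (by norm_num)
    refine bad_negl ha2 (D := fun b => (ω b).1) (m := fun b => ∑ D ∈ insert ∅ (pat (a b)), p b D * (D.card : ℝ))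
      (fun b => pat_prob (hL b) (hp0 b) (hpE b) (hW3 b)) (C := C * √(Real.log (wk (Sum.inr ∅) + 3))) (fun J => ?_)
    have h1 := hC (Sum.inr ∅) J
    have h2 : ((1 : ℝ) / 2 + 1 / 4) = 3 / 4 := by norm_num
    rw [h2] at h1
    have h3 : C * √(Real.log (wk (Sum.inr ∅) + 3)) * (J : ℝ) ^ ((3 : ℝ) / 4) =
        C * (J : ℝ) ^ ((3 : ℝ) / 4) * √(Real.log (wk (Sum.inr ∅) + 3)) := by ring
    rw [h3]
    refine le_trans (le_of_eq ?_) h1
    congr 1
    refine Finset.sum_congr rfl fun b _ => ?_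
    congr 1
    rw [mul_sub, hbm b]
    congr 1
    unfold TT2
    rw [if_pos (hins b)]
    show _ = ((a b : ℝ) + 1) * (cnt (tb a b) (tb a (b + 1)) ∅ (ω b).1 (ω b).2 / ((a b : ℝ) + 1))
    rw [mul_div_cancel₀ _ (hap b).ne', cnt_nil (hab b) (hL b) (hins b) (hv b)]
  have hspec : ∀ b, (ω b).1 = ∅ → 1 ≤ a b → Nm (ms (a b)) = a b + 1 ∧ S b = ((Ym (ms (a b))).image fun y =>
        y * ((tb a (b + 1) - tb a b) / Nm (ms (a b)))).image fun c =>
          rot (tb a b) (tb a (b + 1)) c (pos (tb a b) (tb a (b + 1)) (ω b).2) := by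
    intro b hb1 hb2
    refine ⟨haN b, ?_⟩
    have h1 : S b = cfg2 (a b) (tb a b) (tb a (b + 1)) (ω b).1 (ω b).2 := rfl
    have h2 : (Nm (ms (a b)) : ℝ) = (a b : ℝ) + 1 := by exact_mod_cast haN b
    rw [h1, hb1]
    unfold cfg2 off2 sp
    rw [if_pos rfl, if_pos ⟨haN b, hL2 b (by omega)⟩, h2]
  refine ⟨a, S, q, fun b => (ω b).1, fun b => (ω b).2, ⟨ha, haV, hS, hq⟩, disc_blocks ha hS hq hN,
    fun δ hδ => points_blocks ha hS hq hδ, ?_, hv, hspec, hbad⟩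
  intro E h0 h2 ε hε
  obtain ⟨B1, hB10, hcount⟩ := count_blocks hS hq hX (E := E) h0
  obtain ⟨b0, hb0⟩ := hE0 E h0 h2
  obtain ⟨C1, hC10, hC1⟩ := growth ha (show (0 : ℝ) < 1 / 2 by norm_num)
  obtain ⟨C2, hC20, hC2⟩ := hD' ε hε
  obtain ⟨B, hB⟩ := hn.bdd E
  have hBp : 0 ≤ B := (hn.nonneg E 0).trans (hB 0)
  set X : ℕ → ℝ := fun b => (((S b).filter fun x => ∀ e ∈ E, x + (e : ℝ) ∈ S b).card : ℝ) with hXdef
  set Y : ℕ → ℝ := fun b => ((a b : ℝ) + 1) * (TT2 (a b) (tb a b) (tb a (b + 1)) (Sum.inr E) (ω b) -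
    ∫ y, TT2 (a b) (tb a b) (tb a (b + 1)) (Sum.inr E) y ∂(μ b)) with hYdef
  have hr : ∀ b, b0 ≤ b → X b - W b E - Y b = 0 := by
    intro b hb
    have hEb := hb0 b hb
    have h3 : X b = cnt (tb a b) (tb a (b + 1)) E (ω b).1 (ω b).2 :=
      cfg2_cnt (hab b) (hL b) (hins b) (hv b) hEb
    have h4 : Y b = cnt (tb a b) (tb a (b + 1)) E (ω b).1 (ω b).2 - W b E := by
      rw [hYdef]
      beta_reduce
      rw [mul_sub, hm2 b E hEb]
      congr 1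
      unfold TT2
      rw [if_pos (hins b)]
      show ((a b : ℝ) + 1) * (cnt (tb a b) (tb a (b + 1)) E (ω b).1 (ω b).2 / ((a b : ℝ) + 1)) = _
      rw [mul_div_cancel₀ _ (hap b).ne']
    rw [h3, h4]
    ring
  set B2 : ℝ := ∑ b ∈ Finset.range b0, |X b - W b E - Y b| with hB2
  set Lg : ℝ := √(Real.log (wk (Sum.inr E) + 3)) with hLg
  refine ⟨B1 + C1 + (C2 * Lg + B2) + 8 * B * C1, fun x hx => ?_⟩
  obtain ⟨J, hJ1, hJ2⟩ := exists_block (a := a) (x := x) (by linarith)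
  have hx1' : 1 ≤ x := by linarith
  have hxs : √x ≤ x ^ (1 / 2 + ε) := by
    rw [Real.sqrt_eq_rpow]
    exact Real.rpow_le_rpow_of_exponent_le hx1' (by linarith)
  have hx1 : 1 ≤ x ^ (1 / 2 + ε) := Real.one_le_rpow hx1' (by linarith)
  have hJ1x : (J : ℝ) + 1 ≤ x := (tb_ge J).trans hJ1
  have hJx : (J : ℝ) ≤ x := by linarith
  have hJp : (J : ℝ) ^ (1 / 2 + ε) ≤ x ^ (1 / 2 + ε) := Real.rpow_le_rpow (Nat.cast_nonneg J) hJx (by linarith)
  have hga : (a J : ℝ) + 1 ≤ C1 * √x := by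
    refine (hC1 J).trans (mul_le_mul_of_nonneg_left ?_ hC10)
    rw [Real.sqrt_eq_rpow]
    exact Real.rpow_le_rpow (by positivity) hJ1x (by norm_num)
  have c1 := hcount x J hJ1 hJ2
  have c2 : |∑ b ∈ Finset.range J, Y b| ≤ C2 * (J : ℝ) ^ (1 / 2 + ε) * Lg := hC2 (Sum.inr E) J
  have c3 := sum_early hr J
  have c4 := law_int (a := a) (hn.meas E) (hn.nonneg E) hB hx hJ1 hJ2
  have e1 : ∑ b ∈ Finset.range J, X b - ∑ b ∈ Finset.range J, W b E =
      ∑ b ∈ Finset.range J, (X b - W b E - Y b) + ∑ b ∈ Finset.range J, Y b := by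
    rw [Finset.sum_sub_distrib, Finset.sum_sub_distrib]
    ring
  have hc2' : C2 * (J : ℝ) ^ (1 / 2 + ε) * Lg ≤ C2 * Lg * x ^ (1 / 2 + ε) := by
    have h5 : 0 ≤ Lg := Real.sqrt_nonneg _
    have h6 := mul_le_mul_of_nonneg_left hJp (mul_nonneg hC20 h5)
    linarith
  have hB20 : 0 ≤ B2 := Finset.sum_nonneg fun b _ => abs_nonneg _
  have k1 : |(tc q E x : ℝ) - ∫ u in (2 : ℝ)..x, n E u / Real.log u| ≤
      (B1 + ((a J : ℝ) + 1)) + (B2 + C2 * (J : ℝ) ^ (1 / 2 + ε) * Lg) + 8 * B * ((a J : ℝ) + 1) := by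
    have h5 : |∑ b ∈ Finset.range J, X b - ∑ b ∈ Finset.range J, W b E| ≤
        B2 + C2 * (J : ℝ) ^ (1 / 2 + ε) * Lg := by
      rw [e1]
      exact (abs_add_le _ _).trans (add_le_add c3 c2)
    have h6 : (tc q E x : ℝ) - ∫ u in (2 : ℝ)..x, n E u / Real.log u =
        ((tc q E x : ℝ) - ∑ b ∈ Finset.range J, X b) +
        (∑ b ∈ Finset.range J, X b - ∑ b ∈ Finset.range J, W b E) +
        (∑ b ∈ Finset.range J, W b E - ∫ u in (2 : ℝ)..x, n E u / Real.log u) := by ring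
    rw [h6]
    refine (abs_add_le _ _).trans (add_le_add ((abs_add_le _ _).trans (add_le_add c1 h5)) c4)
  refine k1.trans ?_
  have h7 := mul_le_mul_of_nonneg_left hxs hC10
  have k2 : 8 * B * ((a J : ℝ) + 1) ≤ 8 * B * (C1 * x ^ (1 / 2 + ε)) :=
    mul_le_mul_of_nonneg_left (hga.trans h7) (by positivity)
  have k3 : B1 ≤ B1 * x ^ (1 / 2 + ε) := le_mul_of_one_le_right hB10 hx1
  have k4 : B2 ≤ B2 * x ^ (1 / 2 + ε) := le_mul_of_one_le_right hB20 hx1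
  nlinarith

end Pool.Agent.H73.KP
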