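import Pool.Agent.H73.KP.Cfg2
import Pool.Agent.H73.KZ.A3
import Pool.Agent.H73.KT.A2

/-!
# KP, module A2P (helper49): the systems with the special configuration in the blocks without a pattern
-/

set_option autoImplicit false

open MeasureTheory Filter Topology Set

namespace Pool.Agent.H73.KP

open Pool.Agent.H49.BZ (Dens Disc md MM tt md_meas log_pos' md_pos md_nonneg md_le_one md_int MM_sub MM_lt MM_le MM_nonneg
  le_MM_inc tt_one_le MM_tt tt_mono tt_zero tt_ge exists_slot MM_sub_le le_md)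
open Pool.Agent.H49.BP (ph ph_abs ph_meas pc lt_pc em em_norm em_meas AA L_ge)
open Pool.Agent.H73.TR (log_half' bint rot un)
open Pool.Agent.H73.KT (pat mult mx Mb off pos cfg gs cnt cst Slow tc Mb_zero Mb_succ Mb_mono le_Mb exists_index growth
  slow_log activation mem_pat pat_ne mx_le le_mx ins_card empty_notMem mult_empty block_pi wk wk_nonneg
  wk_sum abel_near Laws sum_early mix mix_prob mix_supp mix_null mix_int derandG cnt_mean rot_mem)
open Pool.Agent.H73.KZ (DV Blocks Enum NearB tb ln tb_mono tb_ge tb_one_le sub_len thresholdsZ enum lw lw_nonneg flw_int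
  flw_le law_int disc_blocks points_blocks count_blocks MM_block exists_block)

/-- the activation, for the masses of the special configurations -/
theorem actP (U : ℕ → ℕ) : ∃ a : ℕ → ℕ, Monotone a ∧ Tendsto a atTop atTop ∧ (∀ b, a b ≠ 0 → U (a b) ≤ b) ∧
    ∀ b, Nm (ms (a b)) = a b + 1 := by
  obtain ⟨a', h1, h2, h3⟩ := activation fun k => (Finset.range (k + 1)).sup U
  have hle : ∀ c, Nm (ms c) - 1 ≤ c := fun c => by
    have := (ms_facts c).2.1
    omega
  have hpos : ∀ c, 1 ≤ Nm (ms c) := fun c => (ms_facts c).1.trans (Nm_ge _)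
  refine ⟨fun b => Nm (ms (a' b)) - 1, ?_, ?_, fun b hb => ?_, fun b => ?_⟩
  · intro b c hbc
    exact Nat.sub_le_sub_right (Nm_mono (ms_mono (h1 hbc))) 1
  · have h4 : Tendsto (fun b => ms (a' b) - 1) atTop atTop := (tendsto_sub_atTop_nat 1).comp (ms_top.comp h2)
    exact tendsto_atTop_mono (fun b => Nat.sub_le_sub_right (Nm_ge _) 1) h4
  · have hb' : Nm (ms (a' b)) - 1 ≠ 0 := hb
    have h4 := hle (a' b)
    have h5 : a' b ≠ 0 := by omega
    show U (Nm (ms (a' b)) - 1) ≤ b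
    refine le_trans ?_ (h3 b h5)
    exact Finset.le_sup (f := U) (Finset.mem_range.2 (by omega))
  · beta_reduce
    rw [(ms_facts (a' b)).2.2]
    have := hpos (a' b)
    omega

variable [Dens]

/-- further thresholds -/
theorem thr3 [DV] {n : Finset ℕ → ℝ → ℝ} (hlim : ∀ D : Finset ℕ, 0 ∈ D → 2 ≤ D.card → Tendsto (n D) atTop (𝓝 0)) :
    ∃ V : ℕ → ℕ, ∀ a, (∀ k, V a ≤ k → ((a : ℝ) + 2) ^ 4 < tt (k + 1) - tt k) ∧
      ∀ u : ℝ, (V a : ℝ) ≤ u → ∀ D ∈ pat a, 8 * n D u ≤ cst a / ((a : ℝ) + 1) ^ 2 := by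
  have h : ∀ a : ℕ, ∃ V : ℕ, (∀ k, V ≤ k → ((a : ℝ) + 2) ^ 4 < tt (k + 1) - tt k) ∧
      ∀ u : ℝ, (V : ℝ) ≤ u → ∀ D ∈ pat a, 8 * n D u ≤ cst a / ((a : ℝ) + 1) ^ 2 := by
    intro a
    have hc : 0 < cst a / ((a : ℝ) + 1) ^ 2 := by
      unfold cst
      positivity
    obtain ⟨n0, hn0⟩ := sub_len (((a : ℝ) + 2) ^ 4)
    have h1 : ∀ᶠ u : ℝ in atTop, ∀ D ∈ pat a, 8 * n D u ≤ cst a / ((a : ℝ) + 1) ^ 2 := by
      rw [eventually_all_finset]
      intro D hD
      have h2 := (hlim D (mem_pat.1 hD).2.1 (mem_pat.1 hD).2.2).const_mul 8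
      rw [mul_zero] at h2
      exact h2.eventually_le_const hc
    obtain ⟨u1, hu1⟩ := eventually_atTop.1 h1
    obtain ⟨N, hN⟩ := exists_nat_ge u1
    refine ⟨max n0 N, fun k hk => hn0 k ((le_max_left _ _).trans hk), fun u hu => hu1 u ?_⟩
    have h2 : (N : ℝ) ≤ ((max n0 N : ℕ) : ℝ) := by exact_mod_cast le_max_right _ _
    linarith
  choose V hV using h
  exact ⟨V, hV⟩

omit [Dens] in
theorem cnt_empty {a : ℕ} {α β : ℝ} (hαβ : α < β) (hL : a ≠ 0 → 2 * ((a : ℝ) + 2) ^ 2 ≤ β - α) {D : Finset ℕ}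
    (hD : D ∈ insert ∅ (pat a)) {v : ℝ} (hv : v ∈ Ioc (0 : ℝ) 1) : cnt α β ∅ D v = (D.card : ℝ) := by
  unfold cnt
  have e0 : mx (∅ : Finset ℕ) = 0 := rfl
  have e1 : D.filter (fun t => ∀ e ∈ (∅ : Finset ℕ), t + e ∈ D) = D := by simp
  rw [e0, e1]
  have h1 : ∀ t ∈ D, (if rot α β (t : ℝ) (pos α β v) + ((0 : ℕ) : ℝ) ≤ β then (1 : ℝ) else 0) = 1 := by
    intro t ht
    rw [if_pos]
    have h2 : (t : ℝ) < β - α := by
      rw [Finset.mem_insert] at hD
      rcases hD with rfl | hD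
      · simp at ht
      · have h4 : (t : ℝ) ≤ a := by exact_mod_cast (mem_pat.1 hD).1 t ht
        have hLb := hL (pat_ne hD)
        have ha0 : (0 : ℝ) ≤ a := Nat.cast_nonneg _
        nlinarith
    have h3 := (rot_mem hαβ hv (Nat.cast_nonneg t) h2).2
    simpa using h3
  rw [Finset.sum_congr rfl h1, Finset.sum_const, nsmul_eq_mul, mul_one]

/-- **The systems with prescribed laws and with the special configuration in almost all blocks.** -/
theorem realise2 [DV] {n : Finset ℕ → ℝ → ℝ} (hn : Laws n) (V : ℕ → ℕ) :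
    ∃ (a : ℕ → ℕ) (S : ℕ → Finset ℝ) (q : ℕ → ℝ) (D : ℕ → Finset ℕ) (v : ℕ → ℝ),
      (Slow a ∧ (∀ b, a b ≠ 0 → V (a b) ≤ b) ∧ Blocks a S ∧ Enum a S q) ∧
      Disc q ∧
      (∀ δ : ℝ, 0 < δ → ∃ C : ℝ, ∀ x : ℝ, 1 ≤ x → |(pc q x : ℝ) - MM x| ≤ C * x ^ δ) ∧
      (∀ E : Finset ℕ, 0 ∈ E → 2 ≤ E.card → ∀ ε : ℝ, 0 < ε → ∃ C : ℝ, ∀ x : ℝ, 2 ≤ x →
        |(tc q E x : ℝ) - ∫ u in (2 : ℝ)..x, n E u / Real.log u| ≤ C * x ^ (1 / 2 + ε)) ∧
      (∀ b, v b ∈ Ioc (0 : ℝ) 1) ∧
      (∀ b, D b = ∅ → 1 ≤ a b → Nm (ms (a b)) = a b + 1 ∧ S b = ((Ym (ms (a b))).image fun y =>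
        y * ((tb a (b + 1) - tb a b) / Nm (ms (a b)))).image fun c => rot (tb a b) (tb a (b + 1)) c (pos (tb a b) (tb a (b + 1)) (v b))) ∧
      ∀ η : ℝ, 0 < η → ∀ᶠ J : ℕ in atTop,
        ∑ b ∈ (Finset.range J).filter (fun b => D b ≠ ∅), ((a b : ℝ) + 1) ≤ η * Mb a J := by
  classical
  obtain ⟨U, hU⟩ := thresholdsZ hn.lim hn.sub
  obtain ⟨V3, hV3⟩ := thr3 hn.lim
  obtain ⟨a, ha1, ha2, ha3', haN⟩ := actP fun k => max (max (U k) (V3 k)) (V k)
  have ha3 : ∀ b, a b ≠ 0 → U (a b) ≤ b := fun b hb => ((le_max_left _ _).trans (le_max_left _ _)).trans (ha3' b hb)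
  have haV3 : ∀ b, a b ≠ 0 → V3 (a b) ≤ b := fun b hb =>
    ((le_max_right _ _).trans (le_max_left _ _)).trans (ha3' b hb)
  have haV : ∀ b, a b ≠ 0 → V (a b) ≤ b := fun b hb => (le_max_right _ _).trans (ha3' b hb)
  have ha : Slow a := ⟨ha1, ha2, fun b hb => ((hU (a b)).1).trans (ha3 b hb)⟩
  have hab : ∀ b, tb a b < tb a (b + 1) := fun b => tb_mono (Nat.lt_succ_self b)
  have hlow : ∀ b, a b ≠ 0 → ∀ u, tb a b ≤ u → (U (a b) : ℝ) ≤ u := by
    intro b hb u hu
    have h1 : (U (a b) : ℝ) ≤ b := by exact_mod_cast ha3 b hb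
    have h2 := tb_ge (a := a) b
    linarith
  have hL : ∀ b, a b ≠ 0 → 2 * ((a b : ℝ) + 2) ^ 2 ≤ tb a (b + 1) - tb a b := by
    intro b hb
    have h1 := (hU (a b)).2.1 (Mb a b) ((ha3 b hb).trans (le_Mb b))
    have h2 : tt (Mb a b + 1) ≤ tb a (b + 1) := by
      unfold tb
      exact tt_mono.monotone (by rw [Mb_succ]; omega)
    unfold tb at h2 ⊢
    linarith
  have hint : ∀ (D : Finset ℕ) (x y : ℝ), IntervalIntegrable (fun u => n D u * lw u) volume x y := by
    intro D x y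
    obtain ⟨B, hB⟩ := hn.bdd D
    exact flw_int (hn.meas D) (hn.nonneg D) hB x y
  -- the weights
  set W : ℕ → Finset ℕ → ℝ := fun b D => ∫ u in (tb a b)..(tb a (b + 1)), n D u * lw u with hW
  have hW0 : ∀ b D, 0 ≤ W b D := by
    intro b D
    exact intervalIntegral.integral_nonneg (hab b).le fun u _ => mul_nonneg (hn.nonneg D u) (lw_nonneg u)
  have hW1 : ∀ b, ∀ D ∈ pat (a b), W b D ≤ cst (a b) * ((a b : ℝ) + 1) := by
    intro b D hD
    obtain ⟨B, hB⟩ := hn.bdd D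
    have h3 := flw_le (hn.meas D) (hn.nonneg D) hB (tb_one_le (a := a) b) (hab b).le (c := cst (a b)) (fun u hu =>
      ((hU (a b)).2.2 u (hlow b (pat_ne hD) u hu.1)).1 D hD)
    rw [MM_block] at h3
    exact h3
  have hW2 : ∀ b, ∀ D ∈ pat (a b), ∀ D' ∈ pat (a b), D ≠ D' → mult D D' ≠ 0 → W b D' ≤ cst (a b) * W b D := by
    intro b D hD D' hD' hne hm
    have h3 := intervalIntegral.integral_mono_on (hab b).le (hint D' _ _)
      ((hint D _ _).const_mul (cst (a b))) (fun u hu => by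
        have h4 := mul_le_mul_of_nonneg_right
          (((hU (a b)).2.2 u (hlow b (pat_ne hD) u hu.1)).2 D hD D' hD' hne hm) (lw_nonneg u)
        rw [mul_assoc] at h4
        exact h4)
    rw [intervalIntegral.integral_const_mul] at h3
    exact h3
  choose p hp0 hp1 hpE using fun b => block_pi (hL b) (W := W b) (fun D _ => hW0 b D) (hW1 b) (hW2 b)
  -- the choice
  let μ : ℕ → Measure (Finset ℕ × ℝ) := fun b => mix (insert ∅ (pat (a b))) (p b)
  have : ∀ b, IsProbabilityMeasure (μ b) := fun b => mix_prob (hp0 b) (hp1 b)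
  obtain ⟨ω, hωA, hωN, hωD⟩ := derandG μ
    (fun b => {x | x.1 ∈ insert ∅ (pat (a b)) ∧ 0 < p b x.1 ∧ x.2 ∈ Ioc (0 : ℝ) 1})
    (fun b => TT2 (a b) (tb a b) (tb a (b + 1))) wk (fun b => mix_supp (hp0 b) (hp1 b)) wk_nonneg wk_sum
    (fun b k => TT2_meas _ _ _ k) (fun b k x => TT2_abs _ _ _ k x) (fun b y => av2 a b y)
    (fun b y => mix_null (hp0 b) (hp1 b) (av2_count a b y))
  set S : ℕ → Finset ℝ := fun b => SS2 a b (ω b) with hSdef
  have hins : ∀ b, (ω b).1 ∈ insert ∅ (pat (a b)) := fun b => (hωA b).1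
  have hv : ∀ b, (ω b).2 ∈ Ioc (0 : ℝ) 1 := fun b => (hωA b).2.2
  have hS : Blocks a S := ⟨fun b => cfg2_card (hab b) (hL b) (hins b) (hv b),
    fun b x hx => cfg2_mem (hab b) (hL b) (hins b) (hv b) hx,
    fun b x hx y hy h => cfg2_sep (hab b) (hL b) (hins b) (hv b) hx hy h⟩
  obtain ⟨q, hq⟩ := enum hS
  have hX : ∀ b, ∀ x ∈ S b, ∀ y ∈ S (b + 1), ∀ k : ℕ, y ≠ x + (k : ℝ) := by
    intro b x hx y hy k h
    exact hωN b ⟨x, hx, y, hy, k, h⟩
  -- the means
  have hmean : ∀ b k, ∫ y, TT2 (a b) (tb a b) (tb a (b + 1)) k y ∂(μ b) =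
      ∑ D ∈ insert ∅ (pat (a b)), p b D * ∫ v, TT2 (a b) (tb a b) (tb a (b + 1)) k (D, v) ∂un := by
    intro b k
    exact mix_int (hp0 b) (hp1 b) (TT2_meas _ _ _ k) (TT2_abs _ _ _ k)
  have hap : ∀ b, (0 : ℝ) < (a b : ℝ) + 1 := fun b => by positivity
  have hm1 : ∀ b m s, ((a b : ℝ) + 1) * ∫ y, TT2 (a b) (tb a b) (tb a (b + 1)) (Sum.inl (m, s)) y ∂(μ b) =
      ((a b : ℝ) + 1) * ((ln a b)⁻¹ * ∫ y in (tb a b)..(tb a (b + 1)), ph m s y) := by
    intro b m s
    have h1 : ∀ D ∈ insert ∅ (pat (a b)), ∫ v, TT2 (a b) (tb a b) (tb a (b + 1)) (Sum.inl (m, s)) (D, v) ∂un =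
        (ln a b)⁻¹ * ∫ y in (tb a b)..(tb a (b + 1)), ph m s y := by
      intro D hD
      have h2 : (fun v => TT2 (a b) (tb a b) (tb a (b + 1)) (Sum.inl (m, s)) (D, v)) =
          fun v => gs2 (a b) (tb a b) (tb a (b + 1)) (ph m s) D v / ((a b : ℝ) + 1) := by
        funext v
        unfold TT2
        rw [if_pos hD]
      have h3 : (fun v => TT2 (a b) (tb a b) (tb a (b + 1)) (Sum.inl (m, s)) (D, v)) =
          fun v => gs2 (a b) (tb a b) (tb a (b + 1)) (ph m s) D v / ((a b : ℝ) + 1) := h2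
      rw [h3, integral_div, gs2_mean (hab b) (ph_meas m s) (ph_abs m s) (off2_card (hab b) (hL b) hD)
        (fun c hc => off2_mem (hab b) (hL b) hD hc)]
      rw [mul_div_assoc, mul_comm, div_mul_cancel₀ _ (hap b).ne']
      rfl
    rw [hmean, Finset.sum_congr rfl fun D hD => by rw [h1 D hD], ← Finset.sum_mul, hp1 b, one_mul]
  have hm2 : ∀ b, ∀ E ∈ pat (a b), ((a b : ℝ) + 1) * ∫ y, TT2 (a b) (tb a b) (tb a (b + 1)) (Sum.inr E) y ∂(μ b) =
      W b E := by
    intro b E hE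
    have ha0 : (0 : ℝ) ≤ a b := Nat.cast_nonneg _
    have hLb := hL b (pat_ne hE)
    have hmxE : (mx E : ℝ) ≤ a b := by exact_mod_cast mx_le hE
    have h1 : ∀ D ∈ insert ∅ (pat (a b)), ∫ v, TT2 (a b) (tb a b) (tb a (b + 1)) (Sum.inr E) (D, v) ∂un =
        ((mult E D : ℝ) * (1 - mx E / (tb a (b + 1) - tb a b))) / ((a b : ℝ) + 1) := by
      intro D hD
      have h2 : (fun v => TT2 (a b) (tb a b) (tb a (b + 1)) (Sum.inr E) (D, v)) =
          fun v => cnt (tb a b) (tb a (b + 1)) E D v / ((a b : ℝ) + 1) := by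
        funext v
        unfold TT2
        rw [if_pos hD]
      have h3 : ∀ t ∈ D, (t : ℝ) ≤ tb a (b + 1) - tb a b := by
        intro t ht
        rw [Finset.mem_insert] at hD
        rcases hD with rfl | hD
        · simp at ht
        · have h4 : (t : ℝ) ≤ a b := by exact_mod_cast (mem_pat.1 hD).1 t ht
          nlinarith
      rw [h2, integral_div, cnt_mean (hab b) (by nlinarith) h3]
    rw [hmean, Finset.sum_congr rfl fun D hD => by rw [h1 D hD], Finset.mul_sum, ← hpE b E hE]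
    refine Finset.sum_congr rfl fun D _ => ?_
    have := (hap b).ne'
    field_simp
  have hD' := abel_near ha (κ := (ℤ × Bool) ⊕ Finset ℕ)
    (y := fun k b => TT2 (a b) (tb a b) (tb a (b + 1)) k (ω b) - ∫ y, TT2 (a b) (tb a b) (tb a (b + 1)) k y ∂(μ b))
    (g := fun k => √(Real.log (wk k + 3))) (fun k => Real.sqrt_nonneg _) hωD
  have hN : NearB a S := by
    intro δ hδ
    obtain ⟨C, hC0, hC⟩ := hD' δ hδ
    refine ⟨C, hC0, fun m s J => ?_⟩
    have h1 := hC (Sum.inl (m, s)) J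
    refine le_trans (le_of_eq ?_) h1
    congr 1
    refine Finset.sum_congr rfl fun b _ => ?_
    rw [mul_sub, hm1 b m s]
    congr 1
    have h2 : ∑ x ∈ S b, ph m s x = gs2 (a b) (tb a b) (tb a (b + 1)) (ph m s) (ω b).1 (ω b).2 :=
      cfg2_sum (hab b) (hL b) (hins b) (hv b) (ph m s)
    rw [h2]
    unfold TT2
    rw [if_pos (hins b)]
    show _ = ((a b : ℝ) + 1) * (gs2 (a b) (tb a b) (tb a (b + 1)) (ph m s) (ω b).1 (ω b).2 / ((a b : ℝ) + 1))
    rw [mul_div_cancel₀ _ (hap b).ne']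
  -- the patterns that are present in the blocks
  have hE0 : ∀ E : Finset ℕ, 0 ∈ E → 2 ≤ E.card → ∃ b0 : ℕ, ∀ b, b0 ≤ b → E ∈ pat (a b) := by
    intro E h0 h2
    obtain ⟨b0, hb0⟩ := eventually_atTop.1 (ha2.eventually (eventually_ge_atTop (mx E)))
    refine ⟨b0, fun b hb => mem_pat.2 ⟨fun t ht => (le_mx ht).trans (hb0 b hb), h0, h2⟩⟩
  refine ⟨a, S, q, fun b => (ω b).1, fun b => (ω b).2, ⟨ha, haV, hS, hq⟩, disc_blocks ha hS hq hN,
    fun δ hδ => points_blocks ha hS hq hδ, ?_, hv, ?_, ?_⟩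
  · intro E h0 h2 ε hε
    obtain ⟨B1, hB10, hcount⟩ := count_blocks hS hq hX (E := E) h0
    obtain ⟨b0, hb0⟩ := hE0 E h0 h2
    obtain ⟨C1, hC10, hC1⟩ := growth ha (show (0 : ℝ) < 1 / 2 by norm_num)
    obtain ⟨C2, hC20, hC2⟩ := hD' ε hε
    obtain ⟨B, hB⟩ := hn.bdd E
    have hBp : 0 ≤ B := (hn.nonneg E 0).trans (hB 0)
    set X : ℕ → ℝ := fun b => (((S b).filter fun x => ∀ e ∈ E, x + (e : ℝ) ∈ S b).card : ℝ) with hXdef
    set Y : ℕ → ℝ := fun b => ((a b : ℝ) + 1) * (TT2 (a b) (tb a b) (tb a (b + 1)) (Sum.inr E) (ω b) -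
      ∫ y, TT2 (a b) (tb a b) (tb a (b + 1)) (Sum.inr E) y ∂(μ b)) with hYdef
    have hr : ∀ b, b0 ≤ b → X b - W b E - Y b = 0 := by
      intro b hb
      have hEb := hb0 b hb
      have h3 : X b = cnt (tb a b) (tb a (b + 1)) E (ω b).1 (ω b).2 :=
        cfg2_cnt (hab b) (hL b) (hins b) (hv b) hEb
      have h4 : Y b = cnt (tb a b) (tb a (b + 1)) E (ω b).1 (ω b).2 - W b E := by
        rw [hYdef]
        beta_reduce
        rw [mul_sub, hm2 b E hEb]
        congr 1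
        unfold TT2
        rw [if_pos (hins b)]
        show ((a b : ℝ) + 1) * (cnt (tb a b) (tb a (b + 1)) E (ω b).1 (ω b).2 / ((a b : ℝ) + 1)) = _
        rw [mul_div_cancel₀ _ (hap b).ne']
      rw [h3, h4]
      ring
    set B2 : ℝ := ∑ b ∈ Finset.range b0, |X b - W b E - Y b| with hB2
    set Lg : ℝ := √(Real.log (wk (Sum.inr E) + 3)) with hLg
    refine ⟨B1 + C1 + (C2 * Lg + B2) + 8 * B * C1, fun x hx => ?_⟩
    obtain ⟨J, hJ1, hJ2⟩ := exists_block (a := a) (x := x) (by linarith)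
    have hx1' : 1 ≤ x := by linarith
    have hxs : √x ≤ x ^ (1 / 2 + ε) := by
      rw [Real.sqrt_eq_rpow]
      exact Real.rpow_le_rpow_of_exponent_le hx1' (by linarith)
    have hx1 : 1 ≤ x ^ (1 / 2 + ε) := Real.one_le_rpow hx1' (by linarith)
    have hJ1x : (J : ℝ) + 1 ≤ x := (tb_ge J).trans hJ1
    have hJx : (J : ℝ) ≤ x := by linarith
    have hJp : (J : ℝ) ^ (1 / 2 + ε) ≤ x ^ (1 / 2 + ε) := Real.rpow_le_rpow (Nat.cast_nonneg J) hJx (by linarith)
    have hga : (a J : ℝ) + 1 ≤ C1 * √x := by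
      refine (hC1 J).trans (mul_le_mul_of_nonneg_left ?_ hC10)
      rw [Real.sqrt_eq_rpow]
      exact Real.rpow_le_rpow (by positivity) hJ1x (by norm_num)
    have c1 := hcount x J hJ1 hJ2
    have c2 : |∑ b ∈ Finset.range J, Y b| ≤ C2 * (J : ℝ) ^ (1 / 2 + ε) * Lg := hC2 (Sum.inr E) J
    have c3 := sum_early hr J
    have c4 := law_int (a := a) (hn.meas E) (hn.nonneg E) hB hx hJ1 hJ2
    have e1 : ∑ b ∈ Finset.range J, X b - ∑ b ∈ Finset.range J, W b E =
        ∑ b ∈ Finset.range J, (X b - W b E - Y b) + ∑ b ∈ Finset.range J, Y b := by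
      rw [Finset.sum_sub_distrib, Finset.sum_sub_distrib]
      ring
    have hc2' : C2 * (J : ℝ) ^ (1 / 2 + ε) * Lg ≤ C2 * Lg * x ^ (1 / 2 + ε) := by
      have h5 : 0 ≤ Lg := Real.sqrt_nonneg _
      have h6 := mul_le_mul_of_nonneg_left hJp (mul_nonneg hC20 h5)
      linarith
    have hB20 : 0 ≤ B2 := Finset.sum_nonneg fun b _ => abs_nonneg _
    have k1 : |(tc q E x : ℝ) - ∫ u in (2 : ℝ)..x, n E u / Real.log u| ≤
        (B1 + ((a J : ℝ) + 1)) + (B2 + C2 * (J : ℝ) ^ (1 / 2 + ε) * Lg) + 8 * B * ((a J : ℝ) + 1) := by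
      have h5 : |∑ b ∈ Finset.range J, X b - ∑ b ∈ Finset.range J, W b E| ≤
          B2 + C2 * (J : ℝ) ^ (1 / 2 + ε) * Lg := by
        rw [e1]
        exact (abs_add_le _ _).trans (add_le_add c3 c2)
      have h6 : (tc q E x : ℝ) - ∫ u in (2 : ℝ)..x, n E u / Real.log u =
          ((tc q E x : ℝ) - ∑ b ∈ Finset.range J, X b) +
          (∑ b ∈ Finset.range J, X b - ∑ b ∈ Finset.range J, W b E) +
          (∑ b ∈ Finset.range J, W b E - ∫ u in (2 : ℝ)..x, n E u / Real.log u) := by ring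
      rw [h6]
      refine (abs_add_le _ _).trans (add_le_add ((abs_add_le _ _).trans (add_le_add c1 h5)) c4)
    refine k1.trans ?_
    have h7 := mul_le_mul_of_nonneg_left hxs hC10
    have k2 : 8 * B * ((a J : ℝ) + 1) ≤ 8 * B * (C1 * x ^ (1 / 2 + ε)) :=
      mul_le_mul_of_nonneg_left (hga.trans h7) (by positivity)
    have k3 : B1 ≤ B1 * x ^ (1 / 2 + ε) := le_mul_of_one_le_right hB10 hx1
    have k4 : B2 ≤ B2 * x ^ (1 / 2 + ε) := le_mul_of_one_le_right hB20 hx1
    nlinarith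
  · -- the blocks without a pattern
    intro b hDb hab1
    have hDb' : (ω b).1 = ∅ := hDb
    have hane : a b ≠ 0 := by omega
    have hNb := haN b
    refine ⟨hNb, ?_⟩
    have hlen : ((a b : ℝ) + 2) ^ 2 * ((ms (a b) : ℝ) + 1) ^ 2 ≤ tb a (b + 1) - tb a b := by
      have h1 := (hV3 (a b)).1 (Mb a b) ((haV3 b hane).trans (le_Mb b))
      have h2 : tt (Mb a b + 1) ≤ tb a (b + 1) := by
        unfold tb
        exact tt_mono.monotone (by rw [Mb_succ]; omega)
      have h3 : (ms (a b) : ℝ) + 1 ≤ (a b : ℝ) + 2 := by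
        have h4 : ms (a b) ≤ a b + 1 := by
          have := Nm_ge (ms (a b))
          omega
        have h5 : (ms (a b) : ℝ) ≤ (a b : ℝ) + 1 := by exact_mod_cast h4
        linarith
      have h6 : ((a b : ℝ) + 2) ^ 2 * ((ms (a b) : ℝ) + 1) ^ 2 ≤ ((a b : ℝ) + 2) ^ 4 := by
        have h7 : ((ms (a b) : ℝ) + 1) ^ 2 ≤ ((a b : ℝ) + 2) ^ 2 := pow_le_pow_left₀ (by positivity) h3 2
        have h8 := mul_le_mul_of_nonneg_left h7 (by positivity : (0 : ℝ) ≤ ((a b : ℝ) + 2) ^ 2)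
        refine h8.trans (le_of_eq ?_)
        ring
      unfold tb at h2 ⊢
      linarith
    have e1 : S b = cfg2 (a b) (tb a b) (tb a (b + 1)) (ω b).1 (ω b).2 := rfl
    rw [e1, hDb']
    unfold cfg2 off2
    rw [if_pos rfl]
    unfold sp
    rw [if_pos ⟨hNb, hlen⟩]
    have e2 : ((Nm (ms (a b)) : ℕ) : ℝ) = (a b : ℝ) + 1 := by
      rw [hNb]
      push_cast
      ring
    rw [e2]
  · -- the blocks with a pattern are rare
    have hpb : ∀ b, ∑ D ∈ pat (a b), p b D ≤ 1 / ((a b : ℝ) + 1) ^ 2 := by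
      intro b
      have hc0 : 0 < cst (a b) := by
        unfold cst
        positivity
      have h1 : ∀ D ∈ pat (a b), p b D ≤ 2 * (cst (a b) / ((a b : ℝ) + 1)) := by
        intro D hD
        have hLb := hL b (pat_ne hD)
        have ha0 : (0 : ℝ) ≤ a b := Nat.cast_nonneg _
        have hmxD : (mx D : ℝ) ≤ a b := by exact_mod_cast mx_le hD
        have hLpos : 0 < tb a (b + 1) - tb a b := by linarith [hab b]
        have hhalf : (mx D : ℝ) / (tb a (b + 1) - tb a b) ≤ 1 / 2 := by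
          rw [div_le_iff₀ hLpos]
          nlinarith
        have h2 := hpE b D hD
        have h3 : p b D * ((mult D D : ℝ) * (1 - mx D / (tb a (b + 1) - tb a b))) ≤
            ∑ D' ∈ insert ∅ (pat (a b)), p b D' * ((mult D D' : ℝ) * (1 - mx D / (tb a (b + 1) - tb a b))) := by
          refine Finset.single_le_sum (f := fun D' => p b D' * ((mult D D' : ℝ) * (1 - mx D / (tb a (b + 1) - tb a b))))
            (fun D' hD' => ?_) (Finset.mem_insert_of_mem hD)
          exact mul_nonneg (hp0 b D' hD') (mul_nonneg (Nat.cast_nonneg _) (by linarith))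
        rw [h2, Pool.Agent.H73.KT.mult_self (mem_pat.1 hD).2.1, Nat.cast_one, one_mul] at h3
        have h4 : W b D ≤ cst (a b) / ((a b : ℝ) + 1) := by
          obtain ⟨B, hB⟩ := hn.bdd D
          have h5 := flw_le (hn.meas D) (hn.nonneg D) hB (tb_one_le (a := a) b) (hab b).le
            (c := cst (a b) / ((a b : ℝ) + 1) ^ 2) (fun u hu => by
              refine (hV3 (a b)).2 u ?_ D hD
              have h6 : (V3 (a b) : ℝ) ≤ b := by exact_mod_cast haV3 b (pat_ne hD)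
              have h7 := tb_ge (a := a) b
              linarith [hu.1])
          rw [MM_block] at h5
          refine h5.trans (le_of_eq ?_)
          have := (hap b).ne'
          field_simp
        have h5 : 0 ≤ p b D := hp0 b D (Finset.mem_insert_of_mem hD)
        nlinarith
      calc ∑ D ∈ pat (a b), p b D ≤ ∑ D ∈ pat (a b), 2 * (cst (a b) / ((a b : ℝ) + 1)) := Finset.sum_le_sum h1
        _ = (pat (a b)).card * (2 * (cst (a b) / ((a b : ℝ) + 1))) := by rw [Finset.sum_const, nsmul_eq_mul]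
        _ ≤ 2 ^ (a b + 1) * (2 * (cst (a b) / ((a b : ℝ) + 1))) := by
            refine mul_le_mul_of_nonneg_right ?_ (by have := hap b; positivity)
            exact_mod_cast Pool.Agent.H73.KT.card_pat (a b)
        _ = 1 / ((a b : ℝ) + 1) ^ 2 := by
            unfold cst
            have := (hap b).ne'
            field_simp
    have hm3 : ∀ b, ((a b : ℝ) + 1) * ∫ y, TT2 (a b) (tb a b) (tb a (b + 1)) (Sum.inr ∅) y ∂(μ b) ≤
        1 / ((a b : ℝ) + 1) := by
      intro b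
      have ha0 : (0 : ℝ) ≤ a b := Nat.cast_nonneg _
      have h1 : ∀ D ∈ insert ∅ (pat (a b)), ∫ v, TT2 (a b) (tb a b) (tb a (b + 1)) (Sum.inr ∅) (D, v) ∂un =
          (D.card : ℝ) / ((a b : ℝ) + 1) := by
        intro D hD
        have h2 : (fun v => TT2 (a b) (tb a b) (tb a (b + 1)) (Sum.inr ∅) (D, v)) =
            fun v => cnt (tb a b) (tb a (b + 1)) ∅ D v / ((a b : ℝ) + 1) := by
          funext v
          unfold TT2
          rw [if_pos hD]
        have h3 : ∀ t ∈ D, (t : ℝ) ≤ tb a (b + 1) - tb a b := by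
          intro t ht
          rw [Finset.mem_insert] at hD
          rcases hD with rfl | hD
          · simp at ht
          · have h4 : (t : ℝ) ≤ a b := by exact_mod_cast (mem_pat.1 hD).1 t ht
            have hLb := hL b (pat_ne hD)
            nlinarith
        have e0 : mx (∅ : Finset ℕ) = 0 := rfl
        have e1 : mult (∅ : Finset ℕ) D = D.card := by
          unfold mult
          simp
        rw [h2, integral_div, cnt_mean (hab b) (by rw [e0]; simpa using (hab b).le) h3, e0, e1]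
        simp
      rw [hmean, Finset.sum_congr rfl fun D hD => by rw [h1 D hD], Finset.sum_insert (empty_notMem _),
        Finset.card_empty, Nat.cast_zero, zero_div, mul_zero, zero_add, Finset.mul_sum]
      have h5 : ∀ D ∈ pat (a b), ((a b : ℝ) + 1) * (p b D * ((D.card : ℝ) / ((a b : ℝ) + 1))) ≤
          ((a b : ℝ) + 1) * p b D := by
        intro D hD
        have h6 : (D.card : ℝ) ≤ (a b : ℝ) + 1 := by exact_mod_cast ins_card (Finset.mem_insert_of_mem hD)
        have h7 : 0 ≤ p b D := hp0 b D (Finset.mem_insert_of_mem hD)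
        have h8 : ((a b : ℝ) + 1) * (p b D * ((D.card : ℝ) / ((a b : ℝ) + 1))) = p b D * D.card := by
          have := (hap b).ne'
          field_simp
        rw [h8, mul_comm ((a b : ℝ) + 1)]
        exact mul_le_mul_of_nonneg_left h6 h7
      refine (Finset.sum_le_sum h5).trans ?_
      rw [← Finset.mul_sum]
      have h9 := mul_le_mul_of_nonneg_left (hpb b) (hap b).le
      refine h9.trans (le_of_eq ?_)
      have := (hap b).ne'
      field_simp
    have hD2 := abel_near ha (κ := (ℤ × Bool) ⊕ Finset ℕ)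
      (y := fun k b => ((a b : ℝ) + 1) * (TT2 (a b) (tb a b) (tb a (b + 1)) k (ω b) -
        ∫ y, TT2 (a b) (tb a b) (tb a (b + 1)) k y ∂(μ b)))
      (g := fun k => √(Real.log (wk k + 3))) (fun k => Real.sqrt_nonneg _) hD'
    obtain ⟨C, hC0, hC⟩ := hD2 (1 / 2) (by norm_num)
    set Lg : ℝ := √(Real.log (wk (Sum.inr ∅) + 3)) with hLg
    have hLg0 : 0 ≤ Lg := Real.sqrt_nonneg _
    have hbad : ∀ J : ℕ, ∑ b ∈ (Finset.range J).filter (fun b => (ω b).1 ≠ ∅), ((a b : ℝ) + 1) ≤ (1 + C * Lg) * J := by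
      intro J
      have h1 := (abs_le.1 (hC (Sum.inr ∅) J)).2
      have e0 : (1 / 2 + 1 / 2 : ℝ) = 1 := by norm_num
      rw [e0, Real.rpow_one] at h1
      have h2 : ∀ b, ((a b : ℝ) + 1) * ((ω b).1.card : ℝ) - 1 ≤ ((a b : ℝ) + 1) * (((a b : ℝ) + 1) *
          (TT2 (a b) (tb a b) (tb a (b + 1)) (Sum.inr ∅) (ω b) -
            ∫ y, TT2 (a b) (tb a b) (tb a (b + 1)) (Sum.inr ∅) y ∂(μ b))) := by
        intro b
        have h3 : ((a b : ℝ) + 1) * TT2 (a b) (tb a b) (tb a (b + 1)) (Sum.inr ∅) (ω b) = ((ω b).1.card : ℝ) := by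
          unfold TT2
          rw [if_pos (hins b)]
          show ((a b : ℝ) + 1) * (cnt (tb a b) (tb a (b + 1)) ∅ (ω b).1 (ω b).2 / ((a b : ℝ) + 1)) = _
          rw [mul_div_cancel₀ _ (hap b).ne']
          exact cnt_empty (hab b) (hL b) (hins b) (hv b)
        have h4 := mul_le_mul_of_nonneg_left (hm3 b) (hap b).le
        have e1 : ((a b : ℝ) + 1) * (1 / ((a b : ℝ) + 1)) = 1 := by
          have := (hap b).ne'
          field_simp
        rw [e1] at h4
        have e2 : ((a b : ℝ) + 1) * (((a b : ℝ) + 1) * (TT2 (a b) (tb a b) (tb a (b + 1)) (Sum.inr ∅) (ω b) -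
            ∫ y, TT2 (a b) (tb a b) (tb a (b + 1)) (Sum.inr ∅) y ∂(μ b))) =
            ((a b : ℝ) + 1) * (((a b : ℝ) + 1) * TT2 (a b) (tb a b) (tb a (b + 1)) (Sum.inr ∅) (ω b)) -
            ((a b : ℝ) + 1) * (((a b : ℝ) + 1) * ∫ y, TT2 (a b) (tb a b) (tb a (b + 1)) (Sum.inr ∅) y ∂(μ b)) := by ring
        rw [e2, h3]
        linarith
      have h5 : ∑ b ∈ Finset.range J, (((a b : ℝ) + 1) * ((ω b).1.card : ℝ) - 1) ≤ C * J * Lg :=
        (Finset.sum_le_sum fun b _ => h2 b).trans h1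
      rw [Finset.sum_sub_distrib, Finset.sum_const, Finset.card_range, nsmul_eq_mul, mul_one] at h5
      have h6 : ∑ b ∈ (Finset.range J).filter (fun b => (ω b).1 ≠ ∅), ((a b : ℝ) + 1) ≤
          ∑ b ∈ Finset.range J, ((a b : ℝ) + 1) * ((ω b).1.card : ℝ) := by
        rw [Finset.sum_filter]
        refine Finset.sum_le_sum fun b _ => ?_
        split_ifs with h
        · have h7 : (1 : ℝ) ≤ ((ω b).1.card : ℝ) := by
            exact_mod_cast Finset.card_pos.2 (Finset.nonempty_iff_ne_empty.2 h)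
          exact le_mul_of_one_le_right (hap b).le h7
        · have := hap b
          positivity
      linarith
    intro η hη
    -- the masses are much larger than the number of the blocks
    set K : ℝ := 2 * (1 + C * Lg) / η with hK
    have hCL : 0 ≤ C * Lg := mul_nonneg hC0 hLg0
    have hK0 : 0 < K := by
      rw [hK]
      positivity
    obtain ⟨K1, hK1⟩ := exists_nat_ge K
    obtain ⟨b0, hb0⟩ := eventually_atTop.1 (ha2.eventually (eventually_ge_atTop K1))
    filter_upwards [eventually_ge_atTop (2 * b0)] with J hJ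
    have h1 : K * ((J : ℝ) - b0) ≤ Mb a J := by
      unfold Mb
      push_cast
      have h2 : ∀ b ∈ Finset.Ico b0 J, K ≤ (a b : ℝ) + 1 := by
        intro b hb
        have h3 : (K1 : ℝ) ≤ a b := by exact_mod_cast hb0 b (Finset.mem_Ico.1 hb).1
        linarith
      have h3 : ∑ b ∈ Finset.Ico b0 J, K ≤ ∑ b ∈ Finset.Ico b0 J, ((a b : ℝ) + 1) := Finset.sum_le_sum h2
      have h4 : ∑ b ∈ Finset.Ico b0 J, ((a b : ℝ) + 1) ≤ ∑ b ∈ Finset.range J, ((a b : ℝ) + 1) := by
        refine Finset.sum_le_sum_of_subset_of_nonneg (fun b hb => ?_) (fun b _ _ => (hap b).le)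
        rw [Finset.mem_range]
        exact (Finset.mem_Ico.1 hb).2
      rw [Finset.sum_const, Nat.card_Ico, nsmul_eq_mul, Nat.cast_sub (by omega)] at h3
      linarith
    have h2 : (2 * (b0 : ℝ)) ≤ J := by exact_mod_cast hJ
    have h3 : K * ((J : ℝ) / 2) ≤ Mb a J := (mul_le_mul_of_nonneg_left (by linarith) hK0.le).trans h1
    have h4 : η * (K * ((J : ℝ) / 2)) = (1 + C * Lg) * J := by
      rw [hK]
      field_simp
    calc _ ≤ (1 + C * Lg) * J := hbad J
      _ = η * (K * ((J : ℝ) / 2)) := h4.symm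
      _ ≤ η * Mb a J := mul_le_mul_of_nonneg_left h3 hη.le

end Pool.Agent.H73.KP
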