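import Pool.Agent.H73.KZ.A2
import Pool.Agent.H73.KZ.A3

/-!
# KP: block systems with the Poisson law: the definitions

The block of mass `a + 1 = Nm m = m (m ^ 2) ^ m` without a pattern gets a rotated copy of the set `Ym m ⊆ (0, Nm m]`, scaled: it
consists of `(m ^ 2) ^ m` segments of length `m`, one for every function `f : Fin m → Fin (m ^ 2)`; in the segment of `f` there are `m`
points, the `i`-th one in the cell `f i` of length `1 / m`.
-/

set_option autoImplicit false

open MeasureTheory Filter Topology Set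

namespace Pool.Agent.H73.KP

open Pool.Agent.H49.BP (ph pc)
open Pool.Agent.H49.BZ (Dens)
open Pool.Agent.H73.TR (rot un)
open Pool.Agent.H73.KT (pat mult mx Mb off pos cnt Slow tc)

/-- the distribution function of the Poisson law with mean `l` -/
noncomputable def Q (k : ℕ) (l : ℝ) : ℝ := ∑ j ∈ Finset.range (k + 1), Real.exp (-l) * l ^ j / (j.factorial : ℝ)

/-- the number of the elements of `S` in `(x, x + μ]` -/
noncomputable def nw (S : Finset ℝ) (x μ : ℝ) : ℕ := (S.filter fun y => x < y ∧ y ≤ x + μ).card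

/-- the number of the members of the sequence in `(x, x + μ]` -/
noncomputable def cw (q : ℕ → ℝ) (x μ : ℝ) : ℕ := {n : ℕ | x < q n ∧ q n ≤ x + μ}.ncard

/-- the number of the points of the special configuration -/
def Nm (m : ℕ) : ℕ := m * (m ^ 2) ^ m

/-- the index of a function -/
noncomputable def idx (m : ℕ) (f : Fin m → Fin (m ^ 2)) : ℕ := (Fintype.equivFin (Fin m → Fin (m ^ 2)) f : ℕ)

/-- the points of the special configuration -/
noncomputable def yp (m : ℕ) (f : Fin m → Fin (m ^ 2)) (i : Fin m) : ℝ :=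
  (m : ℝ) * idx m f + (((f i : ℕ) : ℝ) + (((i : ℕ) : ℝ) + 1) / ((m : ℝ) + 1)) / m

/-- the special configuration, a subset of `(0, Nm m)` -/
noncomputable def Ym (m : ℕ) : Finset ℝ := Finset.univ.image fun p : (Fin m → Fin (m ^ 2)) × Fin m => yp m p.1 p.2

/-- the largest `m` with `Nm m ≤ a + 1` -/
def ms (a : ℕ) : ℕ := Nat.findGreatest (fun m => Nm m ≤ a + 1) (a + 1)

open Classical in
/-- the offsets of a block without a pattern -/
noncomputable def sp (a : ℕ) (L : ℝ) : Finset ℝ :=
  if Nm (ms a) = a + 1 ∧ ((a : ℝ) + 2) ^ 2 * ((ms a : ℝ) + 1) ^ 2 ≤ L then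
    (Ym (ms a)).image fun y => y * (L / ((a : ℝ) + 1)) else off a L ∅

/-- the offsets -/
noncomputable def off2 (a : ℕ) (L : ℝ) (D : Finset ℕ) : Finset ℝ := if D = ∅ then sp a L else off a L D

/-- the points of the block `(α, β]` for the pattern `D` and the parameter `v` -/
noncomputable def cfg2 (a : ℕ) (α β : ℝ) (D : Finset ℕ) (v : ℝ) : Finset ℝ :=
  (off2 a (β - α) D).image fun c => rot α β c (pos α β v)

/-- the sum of `g` over the points -/
noncomputable def gs2 (a : ℕ) (α β : ℝ) (g : ℝ → ℝ) (D : Finset ℕ) (v : ℝ) : ℝ :=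
  ∑ c ∈ off2 a (β - α) D, g (rot α β c (pos α β v))

/-- the tests of the block -/
noncomputable def TT2 (a : ℕ) (α β : ℝ) (k : (ℤ × Bool) ⊕ Finset ℕ) (x : Finset ℕ × ℝ) : ℝ :=
  if x.1 ∈ insert ∅ (pat a) then
    (match k with
      | Sum.inl (m, s) => gs2 a α β (ph m s) x.1 x.2
      | Sum.inr E => cnt α β E x.1 x.2) / ((a : ℝ) + 1)
  else 0

end Pool.Agent.H73.KP
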