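import Pool.Agent.H73.KP.Cfg2
import Pool.Agent.H73.KT.A2

/-!
# KP: no distance `d` with `a < d < s - a` between the points of a block
-/

set_option autoImplicit false

open MeasureTheory Filter Topology Set

namespace Pool.Agent.H73.KP

open Pool.Agent.H73.TR (rot un)
open Pool.Agent.H73.KT (pat mult mx Mb off pos cnt Slow tc rot_diff cfg cfg_avoid)

/-- the special offsets: the explicit distance -/
theorem sp_dist {a : ℕ} {L : ℝ} (h : Nm (ms a) = a + 1) (hL : 0 < L) :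
    (∀ c ∈ (Ym (ms a)).image fun y => y * (L / ((a : ℝ) + 1)),
      1 / ((ms a : ℝ) * (ms a + 1)) * (L / ((a : ℝ) + 1)) ≤ c ∧
        c + 1 / ((ms a : ℝ) * (ms a + 1)) * (L / ((a : ℝ) + 1)) ≤ L) ∧
    (∀ c ∈ (Ym (ms a)).image fun y => y * (L / ((a : ℝ) + 1)),
      ∀ c' ∈ (Ym (ms a)).image fun y => y * (L / ((a : ℝ) + 1)), c < c' →
        c + 1 / ((ms a : ℝ) * (ms a + 1)) * (L / ((a : ℝ) + 1)) ≤ c') := by
  have ha0 : (0 : ℝ) ≤ a := Nat.cast_nonneg a
  have hm1 := (ms_facts a).1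
  have hm : (0 : ℝ) < ms a := by exact_mod_cast hm1
  set m : ℕ := ms a with hmdef
  have hs : (0 : ℝ) < L / ((a : ℝ) + 1) := div_pos hL (by linarith)
  have hN : (Nm m : ℝ) = a + 1 := by exact_mod_cast h
  refine ⟨fun c hc => ?_, fun c hc c' hc' hlt => ?_⟩
  · rw [Finset.mem_image] at hc
    obtain ⟨y, hy, rfl⟩ := hc
    obtain ⟨h3, h4⟩ := Ym_mem hm1 hy
    refine ⟨mul_le_mul_of_nonneg_right h3 hs.le, ?_⟩
    rw [← add_mul]
    calc (y + 1 / ((m : ℝ) * (m + 1))) * (L / ((a : ℝ) + 1)) ≤ (Nm m : ℝ) * (L / ((a : ℝ) + 1)) :=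
        mul_le_mul_of_nonneg_right h4 hs.le
      _ = L := by
        rw [hN]
        field_simp
  · rw [Finset.mem_image] at hc hc'
    obtain ⟨y, hy, rfl⟩ := hc
    obtain ⟨y', hy', rfl⟩ := hc'
    have h3 : y < y' := lt_of_mul_lt_mul_right hlt hs.le
    rw [← add_mul]
    exact mul_le_mul_of_nonneg_right (Ym_sep hm1 hy hy' h3) hs.le

/-- no distance `d` with `a < d < s - a` between the points of a block -/
theorem cfg2_avoid {a : ℕ} {α β : ℝ} (hαβ : α < β) (hL : a ≠ 0 → 2 * ((a : ℝ) + 2) ^ 2 ≤ β - α) {D : Finset ℕ}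
    (hD : D ∈ insert ∅ (pat a)) {v : ℝ} {x y : ℝ} (hx : x ∈ cfg2 a α β D v) (hy : y ∈ cfg2 a α β D v) {d : ℕ}
    (hd : a < d) (hd2 : (d : ℝ) + a < (β - α) / (((a : ℝ) + 2) * ((ms a : ℝ) + 1) ^ 2)) : y ≠ x + (d : ℝ) := by
  have ha0 : (0 : ℝ) ≤ a := Nat.cast_nonneg a
  have hm1 := (ms_facts a).1
  have hm : (1 : ℝ) ≤ ms a := by exact_mod_cast hm1
  have hL0 : 0 < β - α := by linarith
  by_cases hsp : D = ∅ ∧ Nm (ms a) = a + 1 ∧ ((a : ℝ) + 2) ^ 2 * ((ms a : ℝ) + 1) ^ 2 ≤ β - α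
  · obtain ⟨hD0, hN, hbig⟩ := hsp
    obtain ⟨h1, h2⟩ := sp_dist hN hL0
    intro h
    unfold cfg2 off2 at hx hy
    rw [if_pos hD0] at hx hy
    unfold sp at hx hy
    rw [if_pos ⟨hN, hbig⟩] at hx hy
    rw [Finset.mem_image] at hx hy
    obtain ⟨c, hc, rfl⟩ := hx
    obtain ⟨c', hc', rfl⟩ := hy
    obtain ⟨e, he⟩ : ∃ e : ℝ, e = 1 / ((ms a : ℝ) * (ms a + 1)) * ((β - α) / ((a : ℝ) + 1)) :=
      ⟨_, rfl⟩
    rw [← he] at h1 h2
    have hde : (d : ℝ) < e := by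
      have h3 : (β - α) / (((a : ℝ) + 2) * ((ms a : ℝ) + 1) ^ 2) ≤ e := by
        rw [he, div_mul_div_comm, one_mul]
        refine div_le_div_of_nonneg_left hL0.le (by positivity) ?_
        nlinarith
      linarith
    have hd0 : (0 : ℝ) < d := by
      have : 0 < d := by omega
      exact_mod_cast this
    have h3 := h1 c hc
    have h4 := h1 c' hc'
    rcases rot_diff (α := α) (β := β) (v := v) (c := c) (c' := c') with h5 | h5 | h5
    · have h6 : c < c' := by linarith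
      have h7 := h2 c hc c' hc' h6
      linarith
    · linarith
    · linarith
  · have hoff : cfg2 a α β D v = cfg a α β D v := by
      unfold cfg2 cfg
      congr 1
      unfold off2
      split_ifs with h1
      · unfold sp
        rw [if_neg (fun h => hsp ⟨h1, h⟩), h1]
      · rfl
    rw [hoff] at hx hy
    refine cfg_avoid hαβ hL hD hx hy hd (lt_of_lt_of_le hd2 ?_)
    refine div_le_div_of_nonneg_left hL0.le (by linarith) ?_
    have h1 : (1 : ℝ) ≤ ((ms a : ℝ) + 1) ^ 2 := by nlinarith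
    nlinarith

end Pool.Agent.H73.KP
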