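import Pool.Agent.H73.KP.A2P
import Pool.Agent.H73.KP.Av
import Pool.Agent.H73.KZ.A3

/-!
# KP: the systems with prescribed laws of all patterns, with special blocks and the locality of the patterns
-/

set_option autoImplicit false

open MeasureTheory Filter Topology Set

namespace Pool.Agent.H73.KP

open Pool.Agent.H49.BZ (Dens Disc md MM tt md_meas log_pos' md_pos md_nonneg md_le_one md_int MM_sub MM_lt MM_le MM_nonneg
  le_MM_inc tt_one_le MM_tt tt_mono tt_zero tt_ge exists_slot MM_sub_le le_md)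
open Pool.Agent.H49.BP (ph ph_abs ph_meas pc)
open Pool.Agent.H73.TR (rot un)
open Pool.Agent.H73.KT (pat mult mx Mb off pos cnt cst Slow tc Mb_zero Mb_succ Mb_mono le_Mb exists_index growth
  activation mem_pat pat_ne mx_le le_mx ins_card empty_notMem mult_empty block_pi wk wk_nonneg
  wk_sum abel_near Laws sum_early mix mix_prob mix_supp mix_null mix_int derandG cnt_mean mult_self card_pat rot_mem)
open Pool.Agent.H73.KZ (DV Blocks Enum NearB tb tb_mono tb_ge tb_one_le ln lw lw_nonneg flw_int flw_le law_int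
  thresholdsZ sub_len MM_block enum local_pat ln_short exists_block disc_blocks points_blocks count_blocks)

variable [Dens]

/-- **The systems with prescribed laws, with special blocks, with the locality of the patterns.** -/
theorem realise3 [DV] {n : Finset ℕ → ℝ → ℝ} (hn : Laws n) (V : ℕ → ℕ) :
    ∃ (a : ℕ → ℕ) (S : ℕ → Finset ℝ) (q : ℕ → ℝ) (D : ℕ → Finset ℕ) (v : ℕ → ℝ),
      (Slow a ∧ (∀ b, a b ≠ 0 → V (a b) ≤ b) ∧ Blocks a S ∧ Enum a S q ∧
        (∀ b, ∀ x ∈ S b, ∀ y ∈ S (b + 1), ∀ k : ℕ, y ≠ x + (k : ℝ)) ∧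
        ∀ b, ∀ x ∈ S b, ∀ y ∈ S b, ∀ d : ℕ, a b < d →
          (d : ℝ) + a b < ln a b / (((a b : ℝ) + 2) * ((ms (a b) : ℝ) + 1) ^ 2) → y ≠ x + (d : ℝ)) ∧
      Disc q ∧
      (∀ δ : ℝ, 0 < δ → ∃ C : ℝ, ∀ x : ℝ, 1 ≤ x → |(pc q x : ℝ) - MM x| ≤ C * x ^ δ) ∧
      (∀ E : Finset ℕ, 0 ∈ E → 2 ≤ E.card → ∀ ε : ℝ, 0 < ε → ∃ C : ℝ, ∀ x : ℝ, 2 ≤ x →
        |(tc q E x : ℝ) - ∫ u in (2 : ℝ)..x, n E u / Real.log u| ≤ C * x ^ (1 / 2 + ε)) ∧
      (∀ E : Finset ℕ, 0 ∈ E → 2 ≤ E.card → ∃ K : ℕ, ∀ k, K ≤ k → (∀ e ∈ E, ∃ i, q i = q k + (e : ℝ)) →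
        ∃ u : ℝ, |u - q k| ≤ √(q k) ∧ n E u ≠ 0) ∧
      (∀ b, v b ∈ Ioc (0 : ℝ) 1) ∧
      (∀ b, D b = ∅ → 1 ≤ a b → Nm (ms (a b)) = a b + 1 ∧ S b = ((Ym (ms (a b))).image fun y =>
        y * ((tb a (b + 1) - tb a b) / Nm (ms (a b)))).image fun c => rot (tb a b) (tb a (b + 1)) c (pos (tb a b) (tb a (b + 1)) (v b))) ∧
      ∀ η : ℝ, 0 < η → ∀ᶠ J : ℕ in atTop,
        ∑ b ∈ (Finset.range J).filter (fun b => D b ≠ ∅), ((a b : ℝ) + 1) ≤ η * Mb a J := by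
  classical
  obtain ⟨U, hU⟩ := thr2 hn
  obtain ⟨a, ha1, ha2, haN, ha3'⟩ := masses fun k => max (U k) (V k)
  have ha3 : ∀ b, a b ≠ 0 → U (a b) ≤ b := fun b hb => (le_max_left _ _).trans (ha3' b hb)
  have haV : ∀ b, a b ≠ 0 → V (a b) ≤ b := fun b hb => (le_max_right _ _).trans (ha3' b hb)
  have ha : Slow a := ⟨ha1, ha2, fun b hb => ((hU (a b)).1).trans (ha3 b hb)⟩
  have hab : ∀ b, tb a b < tb a (b + 1) := fun b => tb_mono (Nat.lt_succ_self b)
  have hlow : ∀ b, a b ≠ 0 → ∀ u, tb a b ≤ u → (U (a b) : ℝ) ≤ u := by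
    intro b hb u hu
    have h1 : (U (a b) : ℝ) ≤ b := by exact_mod_cast ha3 b hb
    have h2 := tb_ge (a := a) b
    linarith
  have hL : ∀ b, a b ≠ 0 → 2 * ((a b : ℝ) + 2) ^ 2 ≤ tb a (b + 1) - tb a b := by
    intro b hb
    have h1 := (hU (a b)).2.1 (Mb a b) ((ha3 b hb).trans (le_Mb b))
    have h2 : tt (Mb a b + 1) ≤ tb a (b + 1) := by
      unfold tb
      exact tt_mono.monotone (by rw [Mb_succ]; omega)
    unfold tb at h2 ⊢
    linarith
  have hL2 : ∀ b, a b ≠ 0 → ((a b : ℝ) + 2) ^ 2 * ((ms (a b) : ℝ) + 1) ^ 2 ≤ tb a (b + 1) - tb a b := by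
    intro b hb
    have h1 := (hU (a b)).2.2.1 (Mb a b) ((ha3 b hb).trans (le_Mb b))
    have h2 : tt (Mb a b + 1) ≤ tb a (b + 1) := by
      unfold tb
      exact tt_mono.monotone (by rw [Mb_succ]; omega)
    unfold tb at h2 ⊢
    linarith
  have hint : ∀ (D : Finset ℕ) (x y : ℝ), IntervalIntegrable (fun u => n D u * lw u) volume x y := by
    intro D x y
    obtain ⟨B, hB⟩ := hn.bdd D
    exact flw_int (hn.meas D) (hn.nonneg D) hB x y
  -- the weights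
  set W : ℕ → Finset ℕ → ℝ := fun b D => ∫ u in (tb a b)..(tb a (b + 1)), n D u * lw u with hW
  have hW0 : ∀ b D, 0 ≤ W b D := by
    intro b D
    exact intervalIntegral.integral_nonneg (hab b).le fun u _ => mul_nonneg (hn.nonneg D u) (lw_nonneg u)
  have hW1 : ∀ b, ∀ D ∈ pat (a b), W b D ≤ cst (a b) * ((a b : ℝ) + 1) := by
    intro b D hD
    obtain ⟨B, hB⟩ := hn.bdd D
    have h3 := flw_le (hn.meas D) (hn.nonneg D) hB (tb_one_le (a := a) b) (hab b).le (c := cst (a b)) (fun u hu =>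
      ((hU (a b)).2.2.2 u (hlow b (pat_ne hD) u hu.1)).1 D hD)
    rw [MM_block] at h3
    exact h3
  have hW3 : ∀ b, ∀ D ∈ pat (a b), W b D ≤ 1 / (4 ^ (a b + 1) * ((a b : ℝ) + 1) ^ 4) * ((a b : ℝ) + 1) := by
    intro b D hD
    obtain ⟨B, hB⟩ := hn.bdd D
    have h3 := flw_le (hn.meas D) (hn.nonneg D) hB (tb_one_le (a := a) b) (hab b).le
      (c := 1 / (4 ^ (a b + 1) * ((a b : ℝ) + 1) ^ 4)) (fun u hu =>
      ((hU (a b)).2.2.2 u (hlow b (pat_ne hD) u hu.1)).2.1 D hD)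
    rw [MM_block] at h3
    exact h3
  have hW2 : ∀ b, ∀ D ∈ pat (a b), ∀ D' ∈ pat (a b), D ≠ D' → mult D D' ≠ 0 → W b D' ≤ cst (a b) * W b D := by
    intro b D hD D' hD' hne hm
    have h3 := intervalIntegral.integral_mono_on (hab b).le (hint D' _ _)
      ((hint D _ _).const_mul (cst (a b))) (fun u hu => by
        have h4 := mul_le_mul_of_nonneg_right
          (((hU (a b)).2.2.2 u (hlow b (pat_ne hD) u hu.1)).2.2 D hD D' hD' hne hm) (lw_nonneg u)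
        rw [mul_assoc] at h4
        exact h4)
    rw [intervalIntegral.integral_const_mul] at h3
    exact h3
  choose p hp0 hp1 hpE using fun b => block_pi (hL b) (W := W b) (fun D _ => hW0 b D) (hW1 b) (hW2 b)
  -- the choice
  let μ : ℕ → Measure (Finset ℕ × ℝ) := fun b => mix (insert ∅ (pat (a b))) (p b)
  haveI : ∀ b, IsProbabilityMeasure (μ b) := fun b => mix_prob (hp0 b) (hp1 b)
  obtain ⟨ω, hωA, hωN, hωD⟩ := derandG μ
    (fun b => {x | x.1 ∈ insert ∅ (pat (a b)) ∧ 0 < p b x.1 ∧ x.2 ∈ Ioc (0 : ℝ) 1})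
    (fun b => TT2 (a b) (tb a b) (tb a (b + 1))) wk (fun b => mix_supp (hp0 b) (hp1 b)) wk_nonneg wk_sum
    (fun b k => TT2_meas _ _ _ k) (fun b k x => TT2_abs _ _ _ k x) (fun b y => av2 a b y)
    (fun b y => mix_null (hp0 b) (hp1 b) (av2_count a b y))
  set S : ℕ → Finset ℝ := fun b => SS2 a b (ω b) with hSdef
  have hins : ∀ b, (ω b).1 ∈ insert ∅ (pat (a b)) := fun b => (hωA b).1
  have hv : ∀ b, (ω b).2 ∈ Ioc (0 : ℝ) 1 := fun b => (hωA b).2.2
  have hS : Blocks a S := ⟨fun b => cfg2_card (hab b) (hL b) (hins b) (hv b),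
    fun b x hx => cfg2_mem (hab b) (hL b) (hins b) (hv b) hx,
    fun b x hx y hy h => cfg2_sep (hab b) (hL b) (hins b) (hv b) hx hy h⟩
  obtain ⟨q, hq⟩ := enum hS
  have hX : ∀ b, ∀ x ∈ S b, ∀ y ∈ S (b + 1), ∀ k : ℕ, y ≠ x + (k : ℝ) := by
    intro b x hx y hy k h
    exact hωN b ⟨x, hx, y, hy, k, h⟩
  -- the means
  have hmean : ∀ b k, ∫ y, TT2 (a b) (tb a b) (tb a (b + 1)) k y ∂(μ b) =
      ∑ D ∈ insert ∅ (pat (a b)), p b D * ∫ v, TT2 (a b) (tb a b) (tb a (b + 1)) k (D, v) ∂un := by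
    intro b k
    exact mix_int (hp0 b) (hp1 b) (TT2_meas _ _ _ k) (TT2_abs _ _ _ k)
  have hap : ∀ b, (0 : ℝ) < (a b : ℝ) + 1 := fun b => by positivity
  have hm1 : ∀ b m s, ((a b : ℝ) + 1) * ∫ y, TT2 (a b) (tb a b) (tb a (b + 1)) (Sum.inl (m, s)) y ∂(μ b) =
      ((a b : ℝ) + 1) * ((ln a b)⁻¹ * ∫ y in (tb a b)..(tb a (b + 1)), ph m s y) := by
    intro b m s
    have h1 : ∀ D ∈ insert ∅ (pat (a b)), ∫ v, TT2 (a b) (tb a b) (tb a (b + 1)) (Sum.inl (m, s)) (D, v) ∂un =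
        (ln a b)⁻¹ * ∫ y in (tb a b)..(tb a (b + 1)), ph m s y := by
      intro D hD
      have h2 : (fun v => TT2 (a b) (tb a b) (tb a (b + 1)) (Sum.inl (m, s)) (D, v)) =
          fun v => gs2 (a b) (tb a b) (tb a (b + 1)) (ph m s) D v / ((a b : ℝ) + 1) := by
        funext v
        unfold TT2
        rw [if_pos hD]
      have h3 : (fun v => TT2 (a b) (tb a b) (tb a (b + 1)) (Sum.inl (m, s)) (D, v)) =
          fun v => gs2 (a b) (tb a b) (tb a (b + 1)) (ph m s) D v / ((a b : ℝ) + 1) := h2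
      rw [h3, integral_div, gs2_mean (hab b) (ph_meas m s) (ph_abs m s) (off2_card (hab b) (hL b) hD)
        (fun c hc => off2_mem (hab b) (hL b) hD hc)]
      rw [mul_div_assoc, mul_comm, div_mul_cancel₀ _ (hap b).ne']
      rfl
    rw [hmean, Finset.sum_congr rfl fun D hD => by rw [h1 D hD], ← Finset.sum_mul, hp1 b, one_mul]
  have hm2 : ∀ b, ∀ E ∈ pat (a b), ((a b : ℝ) + 1) * ∫ y, TT2 (a b) (tb a b) (tb a (b + 1)) (Sum.inr E) y ∂(μ b) =
      W b E := by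
    intro b E hE
    have ha0 : (0 : ℝ) ≤ a b := Nat.cast_nonneg _
    have hLb := hL b (pat_ne hE)
    have hmxE : (mx E : ℝ) ≤ a b := by exact_mod_cast mx_le hE
    have h1 : ∀ D ∈ insert ∅ (pat (a b)), ∫ v, TT2 (a b) (tb a b) (tb a (b + 1)) (Sum.inr E) (D, v) ∂un =
        ((mult E D : ℝ) * (1 - mx E / (tb a (b + 1) - tb a b))) / ((a b : ℝ) + 1) := by
      intro D hD
      have h2 : (fun v => TT2 (a b) (tb a b) (tb a (b + 1)) (Sum.inr E) (D, v)) =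
          fun v => cnt (tb a b) (tb a (b + 1)) E D v / ((a b : ℝ) + 1) := by
        funext v
        unfold TT2
        rw [if_pos hD]
      have h3 : ∀ t ∈ D, (t : ℝ) ≤ tb a (b + 1) - tb a b := by
        intro t ht
        rw [Finset.mem_insert] at hD
        rcases hD with rfl | hD
        · simp at ht
        · have h4 : (t : ℝ) ≤ a b := by exact_mod_cast (mem_pat.1 hD).1 t ht
          nlinarith
      rw [h2, integral_div, cnt_mean (hab b) (by nlinarith) h3]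
    rw [hmean, Finset.sum_congr rfl fun D hD => by rw [h1 D hD], Finset.mul_sum, ← hpE b E hE]
    refine Finset.sum_congr rfl fun D _ => ?_
    have := (hap b).ne'
    field_simp
  have hD' := abel_near ha (κ := (ℤ × Bool) ⊕ Finset ℕ)
    (y := fun k b => TT2 (a b) (tb a b) (tb a (b + 1)) k (ω b) - ∫ y, TT2 (a b) (tb a b) (tb a (b + 1)) k y ∂(μ b))
    (g := fun k => √(Real.log (wk k + 3))) (fun k => Real.sqrt_nonneg _) hωD
  have hN : NearB a S := by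
    intro δ hδ
    obtain ⟨C, hC0, hC⟩ := hD' δ hδ
    refine ⟨C, hC0, fun m s J => ?_⟩
    have h1 := hC (Sum.inl (m, s)) J
    refine le_trans (le_of_eq ?_) h1
    congr 1
    refine Finset.sum_congr rfl fun b _ => ?_
    rw [mul_sub, hm1 b m s]
    congr 1
    have h2 : ∑ x ∈ S b, ph m s x = gs2 (a b) (tb a b) (tb a (b + 1)) (ph m s) (ω b).1 (ω b).2 :=
      cfg2_sum (hab b) (hL b) (hins b) (hv b) (ph m s)
    rw [h2]
    unfold TT2
    rw [if_pos (hins b)]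
    show _ = ((a b : ℝ) + 1) * (gs2 (a b) (tb a b) (tb a (b + 1)) (ph m s) (ω b).1 (ω b).2 / ((a b : ℝ) + 1))
    rw [mul_div_cancel₀ _ (hap b).ne']
  -- the patterns that are present in the blocks
  have hE0 : ∀ E : Finset ℕ, 0 ∈ E → 2 ≤ E.card → ∃ b0 : ℕ, ∀ b, b0 ≤ b → E ∈ pat (a b) := by
    intro E h0 h2
    obtain ⟨b0, hb0⟩ := eventually_atTop.1 (ha2.eventually (eventually_ge_atTop (mx E)))
    refine ⟨b0, fun b hb => mem_pat.2 ⟨fun t ht => (le_mx ht).trans (hb0 b hb), h0, h2⟩⟩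
  -- the bad blocks
  have hbm : ∀ b, ((a b : ℝ) + 1) * ∫ y, TT2 (a b) (tb a b) (tb a (b + 1)) (Sum.inr ∅) y ∂(μ b) =
      ∑ D ∈ insert ∅ (pat (a b)), p b D * (D.card : ℝ) := by
    intro b
    have ha0 : (0 : ℝ) ≤ a b := Nat.cast_nonneg _
    have h1 : ∀ D ∈ insert ∅ (pat (a b)), ∫ v, TT2 (a b) (tb a b) (tb a (b + 1)) (Sum.inr ∅) (D, v) ∂un =
        (D.card : ℝ) / ((a b : ℝ) + 1) := by
      intro D hD
      have h2 : (fun v => TT2 (a b) (tb a b) (tb a (b + 1)) (Sum.inr ∅) (D, v)) =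
          fun v => cnt (tb a b) (tb a (b + 1)) ∅ D v / ((a b : ℝ) + 1) := by
        funext v
        unfold TT2
        rw [if_pos hD]
      have h3 : ∀ t ∈ D, (t : ℝ) ≤ tb a (b + 1) - tb a b := fun t ht =>
        (off2_mem (hab b) (hL b) hD (cast_mem_off2 ht)).2.le
      rw [h2, integral_div, cnt_mean (hab b) (by rw [mx_nil, Nat.cast_zero]; linarith [hab b]) h3, mult_nil, mx_nil,
        Nat.cast_zero, zero_div, sub_zero, mul_one]
    rw [hmean, Finset.sum_congr rfl fun D hD => by rw [h1 D hD], Finset.mul_sum]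
    refine Finset.sum_congr rfl fun D _ => ?_
    have := (hap b).ne'
    field_simp
  have hbad : ∀ η : ℝ, 0 < η → ∀ᶠ J : ℕ in atTop,
        ∑ b ∈ (Finset.range J).filter (fun b => (ω b).1 ≠ ∅), ((a b : ℝ) + 1) ≤ η * Mb a J := by
    have hD2 := abel_near ha (κ := (ℤ × Bool) ⊕ Finset ℕ) (fun k => Real.sqrt_nonneg _) hD'
    obtain ⟨C, hC0, hC⟩ := hD2 (1 / 4) (by norm_num)
    refine bad_negl ha2 (D := fun b => (ω b).1) (m := fun b => ∑ D ∈ insert ∅ (pat (a b)), p b D * (D.card : ℝ))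
      (fun b => pat_prob (hL b) (hp0 b) (hpE b) (hW3 b)) (C := C * √(Real.log (wk (Sum.inr ∅) + 3))) (fun J => ?_)
    have h1 := hC (Sum.inr ∅) J
    have h2 : ((1 : ℝ) / 2 + 1 / 4) = 3 / 4 := by norm_num
    rw [h2] at h1
    have h3 : C * √(Real.log (wk (Sum.inr ∅) + 3)) * (J : ℝ) ^ ((3 : ℝ) / 4) =
        C * (J : ℝ) ^ ((3 : ℝ) / 4) * √(Real.log (wk (Sum.inr ∅) + 3)) := by ring
    rw [h3]
    refine le_trans (le_of_eq ?_) h1
    congr 1
    refine Finset.sum_congr rfl fun b _ => ?_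
    congr 1
    rw [mul_sub, hbm b]
    congr 1
    unfold TT2
    rw [if_pos (hins b)]
    show _ = ((a b : ℝ) + 1) * (cnt (tb a b) (tb a (b + 1)) ∅ (ω b).1 (ω b).2 / ((a b : ℝ) + 1))
    rw [mul_div_cancel₀ _ (hap b).ne', cnt_nil (hab b) (hL b) (hins b) (hv b)]
  have hspec : ∀ b, (ω b).1 = ∅ → 1 ≤ a b → Nm (ms (a b)) = a b + 1 ∧ S b = ((Ym (ms (a b))).image fun y =>
        y * ((tb a (b + 1) - tb a b) / Nm (ms (a b)))).image fun c =>
          rot (tb a b) (tb a (b + 1)) c (pos (tb a b) (tb a (b + 1)) (ω b).2) := by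
    intro b hb1 hb2
    refine ⟨haN b, ?_⟩
    have h1 : S b = cfg2 (a b) (tb a b) (tb a (b + 1)) (ω b).1 (ω b).2 := rfl
    have h2 : (Nm (ms (a b)) : ℝ) = (a b : ℝ) + 1 := by exact_mod_cast haN b
    rw [h1, hb1]
    unfold cfg2 off2 sp
    rw [if_pos rfl, if_pos ⟨haN b, hL2 b (by omega)⟩, h2]
  refine ⟨a, S, q, fun b => (ω b).1, fun b => (ω b).2, ⟨ha, haV, hS, hq, hX, fun b x hx y hy d hd hd2 =>
    cfg2_avoid (hab b) (hL b) (hins b) hx hy hd hd2⟩, disc_blocks ha hS hq hN,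
    fun δ hδ => points_blocks ha hS hq hδ, ?_, ?_, hv, hspec, hbad⟩
  rotate_left
  · intro E h0 h2
    obtain ⟨b0, hb0⟩ := hE0 E h0 h2
    obtain ⟨b1, hb1⟩ := local_pat hS hq hX E
    obtain ⟨b2, hb2⟩ := ln_short ha
    refine ⟨Mb a (max (max b0 b1) (max b2 1)), fun k hk hpat => ?_⟩
    obtain ⟨b, hbk1, hbk2⟩ := exists_index (a := a) k
    have hb : max (max b0 b1) (max b2 1) ≤ b := by
      have h3 : Mb a (max (max b0 b1) (max b2 1)) < Mb a (b + 1) := lt_of_le_of_lt hk hbk2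
      have := Mb_mono.lt_iff_lt.1 h3
      omega
    have hbb0 : b0 ≤ b := le_trans (le_trans (le_max_left _ _) (le_max_left _ _)) hb
    have hbb1 : b1 ≤ b := le_trans (le_trans (le_max_right _ _) (le_max_left _ _)) hb
    have hbb2 : b2 ≤ b := le_trans (le_trans (le_max_left _ _) (le_max_right _ _)) hb
    have hqS : q k ∈ S b := hq.2.2.2.1 b k hbk1 hbk2
    have hEb := hb0 b hbb0
    have hloc := hb1 b hbb1 k hqS hpat
    obtain ⟨t, ht, htE, _, _⟩ := (cfg2_pat (hab b) (hL b) (hins b) (hv b) hEb (q k)).1 ⟨hqS, hloc⟩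
    have hmult : mult E (ω b).1 ≠ 0 := by
      unfold mult
      rw [Finset.card_ne_zero]
      exact ⟨t, Finset.mem_filter.2 ⟨ht, htE⟩⟩
    have hLb := hL b (pat_ne hEb)
    have ha0 : (0 : ℝ) ≤ a b := Nat.cast_nonneg _
    have hmxE : (mx E : ℝ) ≤ a b := by exact_mod_cast mx_le hEb
    have hLpos : 0 < tb a (b + 1) - tb a b := by linarith [hab b]
    have hone : 0 < 1 - (mx E : ℝ) / (tb a (b + 1) - tb a b) := by
      rw [sub_pos, div_lt_one hLpos]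
      nlinarith
    have hWne : W b E ≠ 0 := by
      intro h
      have h3 := hpE b E hEb
      rw [h] at h3
      have h4 := (Finset.sum_eq_zero_iff_of_nonneg (fun D hD => mul_nonneg (hp0 b D hD)
        (mul_nonneg (Nat.cast_nonneg _) hone.le))).1 h3 (ω b).1 (hins b)
      have h5 : 0 < p b (ω b).1 := (hωA b).2.1
      have h6 : (0 : ℝ) < mult E (ω b).1 := by
        exact_mod_cast Nat.pos_of_ne_zero hmult
      have h7 : 0 < p b (ω b).1 * ((mult E (ω b).1 : ℝ) * (1 - mx E / (tb a (b + 1) - tb a b))) :=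
        mul_pos h5 (mul_pos h6 hone)
      linarith
    obtain ⟨u, hu1, hu2⟩ : ∃ u, u ∈ Ioc (tb a b) (tb a (b + 1)) ∧ n E u ≠ 0 := by
      by_contra hcon
      push Not at hcon
      refine hWne ?_
      rw [hW]
      beta_reduce
      rw [intervalIntegral.integral_of_le (hab b).le]
      refine setIntegral_eq_zero_of_forall_eq_zero fun u hu => ?_
      rw [hcon u hu, zero_mul]
    refine ⟨u, ?_, hu2⟩
    obtain ⟨hq1, hq2⟩ := hS.2.1 b (q k) hqS
    have h3 : |u - q k| ≤ ln a b := by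
      unfold ln
      rw [abs_le]
      constructor <;> linarith [hu1.1, hu1.2]
    exact h3.trans ((hb2 b hbb2).trans (Real.sqrt_le_sqrt hq1.le))
  intro E h0 h2 ε hε
  obtain ⟨B1, hB10, hcount⟩ := count_blocks hS hq hX (E := E) h0
  obtain ⟨b0, hb0⟩ := hE0 E h0 h2
  obtain ⟨C1, hC10, hC1⟩ := growth ha (show (0 : ℝ) < 1 / 2 by norm_num)
  obtain ⟨C2, hC20, hC2⟩ := hD' ε hε
  obtain ⟨B, hB⟩ := hn.bdd E
  have hBp : 0 ≤ B := (hn.nonneg E 0).trans (hB 0)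
  set X : ℕ → ℝ := fun b => (((S b).filter fun x => ∀ e ∈ E, x + (e : ℝ) ∈ S b).card : ℝ) with hXdef
  set Y : ℕ → ℝ := fun b => ((a b : ℝ) + 1) * (TT2 (a b) (tb a b) (tb a (b + 1)) (Sum.inr E) (ω b) -
    ∫ y, TT2 (a b) (tb a b) (tb a (b + 1)) (Sum.inr E) y ∂(μ b)) with hYdef
  have hr : ∀ b, b0 ≤ b → X b - W b E - Y b = 0 := by
    intro b hb
    have hEb := hb0 b hb
    have h3 : X b = cnt (tb a b) (tb a (b + 1)) E (ω b).1 (ω b).2 :=
      cfg2_cnt (hab b) (hL b) (hins b) (hv b) hEb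
    have h4 : Y b = cnt (tb a b) (tb a (b + 1)) E (ω b).1 (ω b).2 - W b E := by
      rw [hYdef]
      beta_reduce
      rw [mul_sub, hm2 b E hEb]
      congr 1
      unfold TT2
      rw [if_pos (hins b)]
      show ((a b : ℝ) + 1) * (cnt (tb a b) (tb a (b + 1)) E (ω b).1 (ω b).2 / ((a b : ℝ) + 1)) = _
      rw [mul_div_cancel₀ _ (hap b).ne']
    rw [h3, h4]
    ring
  set B2 : ℝ := ∑ b ∈ Finset.range b0, |X b - W b E - Y b| with hB2
  set Lg : ℝ := √(Real.log (wk (Sum.inr E) + 3)) with hLg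
  refine ⟨B1 + C1 + (C2 * Lg + B2) + 8 * B * C1, fun x hx => ?_⟩
  obtain ⟨J, hJ1, hJ2⟩ := exists_block (a := a) (x := x) (by linarith)
  have hx1' : 1 ≤ x := by linarith
  have hxs : √x ≤ x ^ (1 / 2 + ε) := by
    rw [Real.sqrt_eq_rpow]
    exact Real.rpow_le_rpow_of_exponent_le hx1' (by linarith)
  have hx1 : 1 ≤ x ^ (1 / 2 + ε) := Real.one_le_rpow hx1' (by linarith)
  have hJ1x : (J : ℝ) + 1 ≤ x := (tb_ge J).trans hJ1
  have hJx : (J : ℝ) ≤ x := by linarith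
  have hJp : (J : ℝ) ^ (1 / 2 + ε) ≤ x ^ (1 / 2 + ε) := Real.rpow_le_rpow (Nat.cast_nonneg J) hJx (by linarith)
  have hga : (a J : ℝ) + 1 ≤ C1 * √x := by
    refine (hC1 J).trans (mul_le_mul_of_nonneg_left ?_ hC10)
    rw [Real.sqrt_eq_rpow]
    exact Real.rpow_le_rpow (by positivity) hJ1x (by norm_num)
  have c1 := hcount x J hJ1 hJ2
  have c2 : |∑ b ∈ Finset.range J, Y b| ≤ C2 * (J : ℝ) ^ (1 / 2 + ε) * Lg := hC2 (Sum.inr E) J
  have c3 := sum_early hr J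
  have c4 := law_int (a := a) (hn.meas E) (hn.nonneg E) hB hx hJ1 hJ2
  have e1 : ∑ b ∈ Finset.range J, X b - ∑ b ∈ Finset.range J, W b E =
      ∑ b ∈ Finset.range J, (X b - W b E - Y b) + ∑ b ∈ Finset.range J, Y b := by
    rw [Finset.sum_sub_distrib, Finset.sum_sub_distrib]
    ring
  have hc2' : C2 * (J : ℝ) ^ (1 / 2 + ε) * Lg ≤ C2 * Lg * x ^ (1 / 2 + ε) := by
    have h5 : 0 ≤ Lg := Real.sqrt_nonneg _
    have h6 := mul_le_mul_of_nonneg_left hJp (mul_nonneg hC20 h5)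
    linarith
  have hB20 : 0 ≤ B2 := Finset.sum_nonneg fun b _ => abs_nonneg _
  have k1 : |(tc q E x : ℝ) - ∫ u in (2 : ℝ)..x, n E u / Real.log u| ≤
      (B1 + ((a J : ℝ) + 1)) + (B2 + C2 * (J : ℝ) ^ (1 / 2 + ε) * Lg) + 8 * B * ((a J : ℝ) + 1) := by
    have h5 : |∑ b ∈ Finset.range J, X b - ∑ b ∈ Finset.range J, W b E| ≤
        B2 + C2 * (J : ℝ) ^ (1 / 2 + ε) * Lg := by
      rw [e1]
      exact (abs_add_le _ _).trans (add_le_add c3 c2)
    have h6 : (tc q E x : ℝ) - ∫ u in (2 : ℝ)..x, n E u / Real.log u =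
        ((tc q E x : ℝ) - ∑ b ∈ Finset.range J, X b) +
        (∑ b ∈ Finset.range J, X b - ∑ b ∈ Finset.range J, W b E) +
        (∑ b ∈ Finset.range J, W b E - ∫ u in (2 : ℝ)..x, n E u / Real.log u) := by ring
    rw [h6]
    refine (abs_add_le _ _).trans (add_le_add ((abs_add_le _ _).trans (add_le_add c1 h5)) c4)
  refine k1.trans ?_
  have h7 := mul_le_mul_of_nonneg_left hxs hC10
  have k2 : 8 * B * ((a J : ℝ) + 1) ≤ 8 * B * (C1 * x ^ (1 / 2 + ε)) :=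
    mul_le_mul_of_nonneg_left (hga.trans h7) (by positivity)
  have k3 : B1 ≤ B1 * x ^ (1 / 2 + ε) := le_mul_of_one_le_right hB10 hx1
  have k4 : B2 ≤ B2 * x ^ (1 / 2 + ε) := le_mul_of_one_le_right hB20 hx1
  nlinarith

end Pool.Agent.H73.KP
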