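import Pool.Agent.H73.KP.Off2

/-!
# KP: the points of a block, the tests and the avoided sets (the ports of KT/Cfg, KT/Mea, KT/A1 and KZ/A1)
-/

set_option autoImplicit false

open MeasureTheory Filter Topology Set

namespace Pool.Agent.H73.KP

open Pool.Agent.H49.BZ (Dens)
open Pool.Agent.H49.BP (ph ph_abs ph_meas)
open Pool.Agent.H73.TR (rot un rot_meas bint lin_int rot_int un_int)
open Pool.Agent.H73.KT (pat mult mx Mb off pos cnt Slow tc pos_mem cast_mem_off rot_mem rot_diff rot_inj pos_meas cnt_meas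
  cnt_abs ins_card rot_count)
open Pool.Agent.H73.KZ (DV tb tb_mono)

theorem cast_mem_off2 {a : ℕ} {L : ℝ} {D : Finset ℕ} {t : ℕ} (ht : t ∈ D) : (t : ℝ) ∈ off2 a L D := by
  unfold off2
  rw [if_neg (Finset.ne_empty_of_mem ht)]
  exact cast_mem_off ht

section
variable {a : ℕ} {α β : ℝ} (hαβ : α < β) (hL : a ≠ 0 → 2 * ((a : ℝ) + 2) ^ 2 ≤ β - α) {D : Finset ℕ}
  (hD : D ∈ insert ∅ (pat a)) {v : ℝ} (hv : v ∈ Ioc (0 : ℝ) 1)

include hαβ hL hD hv

theorem cfg2_injOn : Set.InjOn (fun c => rot α β c (pos α β v)) (off2 a (β - α) D : Set ℝ) := by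
  intro c hc c' hc' h
  obtain ⟨h1, h2⟩ := off2_mem hαβ hL hD hc
  obtain ⟨h3, h4⟩ := off2_mem hαβ hL hD hc'
  exact rot_inj h1 h2 h3 h4 h

theorem cfg2_card : (cfg2 a α β D v).card = a + 1 := by
  unfold cfg2
  rw [Finset.card_image_of_injOn (cfg2_injOn hαβ hL hD hv), off2_card hαβ hL hD]

theorem cfg2_mem {x : ℝ} (hx : x ∈ cfg2 a α β D v) : α < x ∧ x ≤ β := by
  unfold cfg2 at hx
  rw [Finset.mem_image] at hx
  obtain ⟨c, hc, rfl⟩ := hx
  obtain ⟨h1, h2⟩ := off2_mem hαβ hL hD hc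
  exact rot_mem hαβ hv h1 h2

theorem cfg2_sep {x y : ℝ} (hx : x ∈ cfg2 a α β D v) (hy : y ∈ cfg2 a α β D v) (h : x < y) : x + 1 ≤ y := by
  unfold cfg2 at hx hy
  rw [Finset.mem_image] at hx hy
  obtain ⟨c, hc, rfl⟩ := hx
  obtain ⟨c', hc', rfl⟩ := hy
  obtain ⟨h1, h2⟩ := off2_mem hαβ hL hD hc
  obtain ⟨h3, h4⟩ := off2_mem hαβ hL hD hc'
  beta_reduce at h ⊢
  rcases lt_trichotomy c c' with h5 | h5 | h5
  · obtain ⟨h6, h7⟩ := off2_sep hαβ hL hD hc hc' h5
    rcases rot_diff (α := α) (β := β) (v := v) (c := c) (c' := c') with h8 | h8 | h8 <;> linarith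
  · subst h5
    exact absurd h (lt_irrefl _)
  · obtain ⟨h6, h7⟩ := off2_sep hαβ hL hD hc' hc h5
    rcases rot_diff (α := α) (β := β) (v := v) (c := c) (c' := c') with h8 | h8 | h8 <;> linarith

/-- the sum over the points -/
theorem cfg2_sum (g : ℝ → ℝ) : ∑ x ∈ cfg2 a α β D v, g x = gs2 a α β g D v := by
  unfold cfg2 gs2
  exact Finset.sum_image (cfg2_injOn hαβ hL hD hv)

/-- the differences that are natural numbers `e`, `1 ≤ e ≤ a`, come from `D` -/
theorem cfg2_diff {c c' : ℝ} (hc : c ∈ off2 a (β - α) D) (hc' : c' ∈ off2 a (β - α) D) {e : ℕ} (he1 : 1 ≤ e) (he : e ≤ a)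
    (h : rot α β c (pos α β v) + (e : ℝ) = rot α β c' (pos α β v)) :
    c' - c = e ∧ (∃ t ∈ D, c = (t : ℝ)) ∧ ∃ t ∈ D, c' = (t : ℝ) := by
  refine off2_diff hαβ hL hD hc hc' he1 he ?_
  rcases rot_diff (α := α) (β := β) (v := v) (c := c) (c' := c') with h8 | h8 | h8
  · left; linarith
  · right; left; linarith
  · right; right; linarith

/-- `x` and all `x + e`, `e ∈ E`, are points of the block if and only if `x` comes from an element `t` of `D` with `t + E ⊆ D`, and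
the translate is not wrapped. (`→`: `x = rot c p`, `x + mx E = rot c' p` with `1 ≤ mx E ≤ a`, so `c, c' ∈ D` by `rot_diff` and
`off2_diff`; in the same way every `x + e` comes from `c + e`, so `c + e ∈ D`. `←`: if `rot t p + mx E ≤ β` then
`rot (t + e) p = rot t p + e` for `e ≤ mx E`.) -/
theorem cfg2_pat {E : Finset ℕ} (hE : E ∈ pat a) (x : ℝ) :
    (x ∈ cfg2 a α β D v ∧ ∀ e ∈ E, x + (e : ℝ) ∈ cfg2 a α β D v) ↔
      ∃ t ∈ D, (∀ e ∈ E, t + e ∈ D) ∧ rot α β (t : ℝ) (pos α β v) + (mx E : ℝ) ≤ β ∧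
        x = rot α β (t : ℝ) (pos α β v) := by
  -- the facts on `E`
  unfold pat at hE
  rw [Finset.mem_filter, Finset.mem_powerset] at hE
  obtain ⟨hEs, h0E, h2E⟩ := hE
  have hEa : ∀ e ∈ E, e ≤ a := fun e he => by
    have := Finset.mem_range.1 (hEs he)
    omega
  have hmxE : mx E ∈ E := by
    have hne : E.Nonempty := ⟨0, h0E⟩
    obtain ⟨e, he, he'⟩ := Finset.exists_mem_eq_sup E hne id
    unfold mx
    rw [he']
    exact he
  have hlemx : ∀ e ∈ E, e ≤ mx E := fun e he => Finset.le_sup (f := id) he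
  have hmx1 : 1 ≤ mx E := by
    by_contra h
    have h1 : E ⊆ {0} := by
      intro e he
      have := hlemx e he
      rw [Finset.mem_singleton]
      omega
    have := Finset.card_le_card h1
    rw [Finset.card_singleton] at this
    omega
  constructor
  · rintro ⟨hx, hxe⟩
    have hxm := hxe _ hmxE
    have hxmb := (cfg2_mem hαβ hL hD hv hxm).2
    unfold cfg2 at hx hxe hxm
    rw [Finset.mem_image] at hx hxm
    obtain ⟨c, hc, rfl⟩ := hx
    obtain ⟨c', hc', hcc'⟩ := hxm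
    beta_reduce at hcc' hxe hxmb
    obtain ⟨_, ⟨t, ht, rfl⟩, _⟩ := cfg2_diff hαβ hL hD hv hc hc' hmx1 (hEa _ hmxE) hcc'.symm
    refine ⟨t, ht, fun e he => ?_, hxmb, rfl⟩
    rcases Nat.eq_zero_or_pos e with h | h
    · rw [h, add_zero]
      exact ht
    · have h1 := hxe e he
      rw [Finset.mem_image] at h1
      obtain ⟨c'', hc'', h2⟩ := h1
      obtain ⟨h3, _, ⟨t', ht', rfl⟩⟩ := cfg2_diff hαβ hL hD hv hc hc'' h (hEa _ he) h2.symm
      have h4 : t' = t + e := by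
        have : (t' : ℝ) = ((t + e : ℕ) : ℝ) := by
          push_cast
          linarith
        exact_mod_cast this
      rw [← h4]
      exact ht'
  · rintro ⟨t, ht, htE, hmx, rfl⟩
    have h1 : ∀ e ∈ E, rot α β (t : ℝ) (pos α β v) + (e : ℝ) = rot α β ((t + e : ℕ) : ℝ) (pos α β v) := by
      intro e he
      have h2 : (e : ℝ) ≤ mx E := by exact_mod_cast hlemx e he
      have h3 : (0 : ℝ) ≤ e := Nat.cast_nonneg e
      unfold rot at hmx ⊢
      push_cast
      by_cases h4 : pos α β v + (t : ℝ) ≤ β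
      · rw [if_pos h4] at hmx
        rw [if_pos h4, if_pos (by linarith)]
        ring
      · rw [if_neg h4, if_neg (by linarith)]
        ring
    refine ⟨Finset.mem_image_of_mem _ (cast_mem_off2 ht), fun e he => ?_⟩
    rw [h1 e he]
    exact Finset.mem_image_of_mem (fun c => rot α β c (pos α β v)) (cast_mem_off2 (htE e he))

open Classical in
theorem cfg2_cnt {E : Finset ℕ} (hE : E ∈ pat a) :
    (((cfg2 a α β D v).filter fun x => ∀ e ∈ E, x + (e : ℝ) ∈ cfg2 a α β D v).card : ℝ) = cnt α β E D v := by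
  unfold cnt
  rw [Finset.sum_boole, Finset.filter_filter]
  congr 1
  have h1 : (cfg2 a α β D v).filter (fun x => ∀ e ∈ E, x + (e : ℝ) ∈ cfg2 a α β D v) =
      (D.filter (fun t => (∀ e ∈ E, t + e ∈ D) ∧ rot α β (t : ℝ) (pos α β v) + (mx E : ℝ) ≤ β)).image
        fun t : ℕ => rot α β (t : ℝ) (pos α β v) := by
    ext x
    rw [Finset.mem_filter, cfg2_pat hαβ hL hD hv hE x, Finset.mem_image]
    constructor
    · rintro ⟨t, ht, h2, h3, h4⟩
      exact ⟨t, Finset.mem_filter.2 ⟨ht, h2, h3⟩, h4.symm⟩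
    · rintro ⟨t, ht, h4⟩
      obtain ⟨h5, h2, h3⟩ := Finset.mem_filter.1 ht
      exact ⟨t, h5, h2, h3, h4.symm⟩
  rw [h1, Finset.card_image_of_injOn]
  intro t ht t' ht' h
  have h5 := (Finset.mem_filter.1 (Finset.mem_coe.1 ht)).1
  have h6 := (Finset.mem_filter.1 (Finset.mem_coe.1 ht')).1
  have h7 := cfg2_injOn hαβ hL hD hv (Finset.mem_coe.2 (cast_mem_off2 h5)) (Finset.mem_coe.2 (cast_mem_off2 h6)) h
  exact_mod_cast h7

end


/-! ### The sums and the tests -/

theorem gs2_meas (a : ℕ) (α β : ℝ) {g : ℝ → ℝ} (hg : Measurable g) (D : Finset ℕ) : Measurable (gs2 a α β g D) := by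
  unfold gs2
  exact Finset.measurable_sum _ fun c _ => hg.comp ((rot_meas α β c).comp (pos_meas α β))

theorem off_card_le {a : ℕ} (L : ℝ) {D : Finset ℕ} (hD : D.card ≤ a + 1) : (off a L D).card ≤ a + 1 := by
  unfold off
  refine (Finset.card_union_le _ _).trans ?_
  have h2 : (D.image (fun t : ℕ => (t : ℝ))).card ≤ D.card := Finset.card_image_le
  have h3 : ((Finset.range (a + 1 - D.card)).image fun i : ℕ => ((i : ℝ) + 1) * (L / ((a : ℝ) + 2))).card ≤
      (Finset.range (a + 1 - D.card)).card := Finset.card_image_le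
  rw [Finset.card_range] at h3
  omega

theorem off2_card_le {a : ℕ} (L : ℝ) {D : Finset ℕ} (hD : D.card ≤ a + 1) : (off2 a L D).card ≤ a + 1 := by
  unfold off2
  split_ifs with h1
  · unfold sp
    split_ifs with h2
    · refine Finset.card_image_le.trans ?_
      rw [Ym_card (ms_facts a).1]
      exact h2.1.le
    · exact off_card_le L (by simp)
  · exact off_card_le L hD

theorem gs2_abs {a : ℕ} (α β : ℝ) {g : ℝ → ℝ} (hg : ∀ u, |g u| ≤ 1) {D : Finset ℕ} (hD : D.card ≤ a + 1) (v : ℝ) :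
    |gs2 a α β g D v| ≤ (a : ℝ) + 1 := by
  unfold gs2
  refine (Finset.abs_sum_le_sum_abs _ _).trans ((Finset.sum_le_sum fun c _ => hg _).trans ?_)
  rw [Finset.sum_const, nsmul_eq_mul, mul_one]
  have h1 : (off2 a (β - α) D).card ≤ a + 1 := off2_card_le _ hD
  exact_mod_cast h1

/-- each of the `a + 1` points is uniformly distributed -/
theorem gs2_mean {a : ℕ} {α β : ℝ} (hαβ : α < β) {g : ℝ → ℝ} (hg : Measurable g) (hb : ∀ u, |g u| ≤ 1) {D : Finset ℕ}
    (hc : (off2 a (β - α) D).card = a + 1) (hm : ∀ c ∈ off2 a (β - α) D, 0 ≤ c ∧ c < β - α) :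
    ∫ v, gs2 a α β g D v ∂un = ((a : ℝ) + 1) * ((β - α)⁻¹ * ∫ y in α..β, g y) := by
  rw [un_int]
  unfold gs2
  have hii : ∀ c ∈ off2 a (β - α) D, IntervalIntegrable (fun v => g (rot α β c (pos α β v))) volume 0 1 := fun c _ =>
    bint (hg.comp ((rot_meas α β c).comp (pos_meas α β))) (B := 1) (fun u => hb _) 0 1
  rw [intervalIntegral.integral_finsetSum hii]
  have h1 : ∀ c ∈ off2 a (β - α) D, ∫ v in (0 : ℝ)..1, g (rot α β c (pos α β v)) = (β - α)⁻¹ * ∫ y in α..β, g y := by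
    intro c hcm
    have h2 := lin_int (fun y => g (rot α β c y)) hαβ
    rw [rot_int hg hb (hm c hcm).1 (hm c hcm).2.le] at h2
    exact h2
  rw [Finset.sum_congr rfl h1, Finset.sum_const, hc, nsmul_eq_mul]
  push_cast
  ring

theorem TT2_meas (a : ℕ) (α β : ℝ) (k : (ℤ × Bool) ⊕ Finset ℕ) : Measurable (TT2 a α β k) := by
  refine measurable_from_prod_countable_right fun D => ?_
  unfold TT2
  by_cases hD : D ∈ insert ∅ (pat a)
  · simp only [if_pos hD]
    refine Measurable.div_const ?_ _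
    rcases k with ⟨m, s⟩ | E
    · exact gs2_meas a α β (ph_meas m s) D
    · exact cnt_meas α β E D
  · simp only [if_neg hD]
    exact measurable_const

theorem TT2_abs (a : ℕ) (α β : ℝ) (k : (ℤ × Bool) ⊕ Finset ℕ) (x : Finset ℕ × ℝ) : |TT2 a α β k x| ≤ 1 := by
  have ha0 : (0 : ℝ) ≤ a := Nat.cast_nonneg a
  unfold TT2
  by_cases hD : x.1 ∈ insert ∅ (pat a)
  · rw [if_pos hD, abs_div, abs_of_pos (by linarith : (0 : ℝ) < (a : ℝ) + 1), div_le_one (by linarith)]
    have hc := ins_card hD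
    rcases k with ⟨m, s⟩ | E
    · exact gs2_abs α β (ph_abs m s) hc x.2
    · obtain ⟨h1, h2⟩ := cnt_abs α β E x.1 x.2
      show |cnt α β E x.1 x.2| ≤ _
      rw [abs_of_nonneg h1]
      have : (x.1.card : ℝ) ≤ ((a + 1 : ℕ) : ℝ) := by exact_mod_cast hc
      push_cast at this
      linarith
  · rw [if_neg hD]
    simp

/-! ### The avoided sets -/

section
variable [Dens]

/-- the points of the block for the choice `x` -/
noncomputable def SS2 (a : ℕ → ℕ) (b : ℕ) (x : Finset ℕ × ℝ) : Finset ℝ :=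
  cfg2 (a b) (tb a b) (tb a (b + 1)) x.1 x.2

/-- the choices that create integer distances between the points of the block and those of the previous block -/
def av2 (a : ℕ → ℕ) (b : ℕ) (y : Finset ℕ × ℝ) : Set (Finset ℕ × ℝ) :=
  {x | ∃ z ∈ SS2 a (b - 1) y, ∃ w ∈ SS2 a b x, ∃ k : ℕ, w = z + (k : ℝ)}

theorem av2_count (a : ℕ → ℕ) (b : ℕ) (y : Finset ℕ × ℝ) : (av2 a b y).Countable := by
  have hab : tb a b < tb a (b + 1) := tb_mono (Nat.lt_succ_self b)
  have h1 : av2 a b y ⊆ ⋃ D : Finset ℕ, ⋃ c ∈ off2 (a b) (tb a (b + 1) - tb a b) D, ⋃ z ∈ SS2 a (b - 1) y, ⋃ k : ℕ,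
      (fun v : ℝ => (D, v)) '' {v : ℝ | rot (tb a b) (tb a (b + 1)) c (pos (tb a b) (tb a (b + 1)) v) = z + (k : ℝ)} := by
    rintro ⟨D, v⟩ ⟨z, hz, w, hw, k, hk⟩
    unfold SS2 cfg2 at hw
    rw [Finset.mem_image] at hw
    obtain ⟨c, hc, rfl⟩ := hw
    simp only [mem_iUnion]
    exact ⟨D, c, hc, z, hz, k, v, hk, rfl⟩
  refine Countable.mono h1 ?_
  refine countable_iUnion fun D => ?_
  refine (Finset.countable_toSet _).biUnion fun c _ => ?_
  refine (Finset.countable_toSet _).biUnion fun z _ => ?_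
  exact countable_iUnion fun k => (rot_count hab c _).image _

end

end Pool.Agent.H73.KP
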