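import Pool.Agent.H73.KP.A2P
import Pool.Agent.H73.KP.Bin
import Pool.Agent.H73.KP.Off2
import Pool.Agent.H73.KP.Rot
import Pool.Agent.H73.KP.Seg
import Pool.Agent.H73.KP.Glob
import Pool.Agent.H73.KP.Gap2
import Pool.Agent.H73.KP.MvP
import Pool.Agent.H73.KT.Hol
import Pool.Agent.H73.KT.Mov

/-!
# KP: the systems without zeros, with prescribed laws of all constellations, prescribed order of the gaps and the Poisson law for
the numbers of the primes in the intervals of length proportional to `log x`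
-/

set_option autoImplicit false

open Filter Topology MeasureTheory Set

namespace Pool.Agent.H73.KP

open Pool.Agent.H49.BP (gint pc GapLim)
open Pool.Agent.H49.BZ (Dens)
open Pool.Agent.H73.KT (tc Laws)
open Pool.Agent.H73.KZ (DV)

theorem md_anti {u v : ℝ} (hu : 1 < u) (huv : u ≤ v) : Pool.Agent.H49.BP.md v ≤ Pool.Agent.H49.BP.md u := by
  have hs : 0 < Real.log u := Real.log_pos hu
  have hst : Real.log u ≤ Real.log v := Real.log_le_log (by linarith) huv
  have ht : 0 < Real.log v := hs.trans_le hst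
  have h1 := convexOn_exp.2 (mem_univ (-Real.log v)) (mem_univ (0 : ℝ)) (show 0 ≤ Real.log u / Real.log v by positivity)
    (show 0 ≤ 1 - Real.log u / Real.log v by
      rw [sub_nonneg, div_le_one ht]
      exact hst) (by ring)
  have h2 : (Real.log u / Real.log v) • (-Real.log v) + (1 - Real.log u / Real.log v) • (0 : ℝ) = -Real.log u := by
    rw [smul_zero, add_zero, smul_eq_mul, mul_neg, div_mul_cancel₀ _ ht.ne']
  rw [h2, Real.exp_neg, Real.exp_neg, Real.exp_log (by linarith), Real.exp_log (by linarith), Real.exp_zero, smul_eq_mul,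
    smul_eq_mul, mul_one] at h1
  unfold Pool.Agent.H49.BP.md
  rw [div_le_div_iff₀ ht hs]
  have h3 := mul_le_mul_of_nonneg_left h1 ht.le
  have h4 : Real.log v * (Real.log u / Real.log v * v⁻¹ + (1 - Real.log u / Real.log v)) =
      Real.log u * v⁻¹ + (Real.log v - Real.log u) := by
    field_simp
  rw [h4] at h3
  linarith

/-- the density without zeros -/
@[reducible] noncomputable def plain : Dens where
  md := Pool.Agent.H49.BP.md
  meas := Pool.Agent.H49.BP.md_meas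
  pos := fun _ hu => Pool.Agent.H49.BP.md_pos hu
  nonneg := fun _ hu => Pool.Agent.H49.BP.md_nonneg hu
  le_one := fun _ hu => Pool.Agent.H49.BP.md_le_one hu
  low := fun u hu => by
    have h1 := Pool.Agent.H49.BP.le_md hu
    have h2 : 0 < Real.log u := Real.log_pos (by linarith)
    have h3 : 1 / (8 * Real.log u) ≤ 1 / (2 * Real.log u) := one_div_le_one_div_of_le (by positivity) (by linarith)
    linarith

theorem plain_DV : @DV plain := by
  let _ : Dens := plain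
  refine ⟨fun u hu => ?_, fun x => 1 - Pool.Agent.H49.BP.md x, 1, zero_le_one, fun u v hu huv => ?_, fun x hx => ?_⟩
  · have h1 : 0 < Real.log u := Real.log_pos hu
    have h2 : 1 / Real.log u ≤ 2 / Real.log u := div_le_div_of_nonneg_right (by norm_num) h1.le
    exact (Pool.Agent.H49.BP.md_le hu).trans h2
  · have h1 := md_anti (show 1 < u by linarith) huv
    show |Pool.Agent.H49.BP.md u - Pool.Agent.H49.BP.md v| ≤ _
    rw [abs_of_nonneg (by linarith)]
    linarith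
  · have h1 := Pool.Agent.H49.BP.md_nonneg (show 1 ≤ x by linarith)
    have h2 := Pool.Agent.H49.BP.md_le_one (show 1 ≤ x by linarith)
    have h3 : 1 ≤ √x := Real.one_le_sqrt.2 (by linarith)
    constructor <;> linarith

theorem plain_asy {ε : ℝ} (hε : 0 < ε) : ∀ᶠ u in atTop, |Pool.Agent.H49.BP.md u * Real.log u - 1| ≤ ε := by
  filter_upwards [eventually_ge_atTop (1 / ε), eventually_gt_atTop (1 : ℝ)] with u h1 h2
  have hl : Real.log u ≠ 0 := (Real.log_pos h2).ne'
  unfold Pool.Agent.H49.BP.md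
  rw [div_mul_cancel₀ _ hl]
  have h3 : (1 : ℝ) - u⁻¹ - 1 = -u⁻¹ := by ring
  rw [h3, abs_neg, abs_of_pos (by positivity)]
  rw [div_le_iff₀ hε] at h1
  rw [inv_le_iff_one_le_mul₀ (by linarith)]
  linarith

/-- the system -/
theorem sys_plain {n : Finset ℕ → ℝ → ℝ} (hn : Laws n) {h : ℝ → ℝ}
    (hlim : Tendsto (fun x => h x / Real.log x) atTop atTop)
    (hup : ∃ A : ℝ, ∀ᶠ x in atTop, h x ≤ A * √x * Real.log x) :
    ∃ q : ℕ → ℝ, StrictMono q ∧ 1 < q 0 ∧ (∀ k : ℕ, (k : ℝ) + 1 ≤ q k) ∧ Pool.Agent.H49.BP.Disc q ∧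
      (∃ C : ℝ, ∀ x : ℝ, 2 ≤ x → |(pc q x : ℝ) - ∫ u in (2 : ℝ)..x, (Real.log u)⁻¹| ≤ C * √x) ∧
      (∀ D : Finset ℕ, 0 ∈ D → 2 ≤ D.card → ∀ ε : ℝ, 0 < ε → ∃ C : ℝ, ∀ x : ℝ, 2 ≤ x →
        |(tc q D x : ℝ) - ∫ u in (2 : ℝ)..x, n D u / Real.log u| ≤ C * x ^ (1 / 2 + ε)) ∧
      (∀ l : ℝ, 0 < l → ∀ k : ℕ,
        Tendsto (fun X : ℝ => volume.real {x : ℝ | 2 ≤ x ∧ x ≤ X ∧ cw q x (l * Real.log x) = k} / X) atTop
          (𝓝 (Real.exp (-l) * l ^ k / (k.factorial : ℝ)))) ∧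
      Tendsto q atTop atTop ∧ GapLim q h := by
  let _ : Dens := plain
  have _ : DV := plain_DV
  obtain ⟨V, hV⟩ := base_gaps2 hlim
  obtain ⟨a, S, q, Dd, v, hst, hD, hcount, hlaw, hv, hY, hbad⟩ := realise2 hn V
  have hq := hst.2.2.2
  have hp : ∃ C : ℝ, ∀ x : ℝ, 2 ≤ x → |(pc q x : ℝ) - ∫ u in (2 : ℝ)..x, (Real.log u)⁻¹| ≤ C * √x := by
    obtain ⟨C, hC⟩ := hcount (1 / 2) (by norm_num)
    refine ⟨C + 5, fun x hx => ?_⟩
    have h1 := hC x (by linarith)
    rw [← Real.sqrt_eq_rpow] at h1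
    have h2 : 1 ≤ √x := Real.one_le_sqrt.2 (by linarith)
    have h3 := Pool.Agent.H73.TR.int_cmp (f := fun _ => (1 : ℝ)) measurable_const (fun u => by simp) hx
    have h4 : ∀ u : ℝ, (1 : ℝ) / Real.log u = (Real.log u)⁻¹ := fun u => one_div _
    simp only [one_mul, h4] at h3
    have h5 : Pool.Agent.H49.BZ.MM x = Pool.Agent.H49.BP.MM x := rfl
    have h6 : Pool.Agent.H49.BP.MM x = Pool.Agent.H49.BP.MM 2 + ∫ u in (2 : ℝ)..x, Pool.Agent.H49.BP.md u := by
      rw [← Pool.Agent.H49.BP.MM_sub (by norm_num) (by linarith)]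
      ring
    have h7 := Pool.Agent.H49.BP.MM_le_self (x := 2) (by norm_num)
    have h8 := Pool.Agent.H49.BP.MM_nonneg (x := 2) (by norm_num)
    rw [h5, h6] at h1
    rw [abs_le] at *
    constructor <;> linarith [h1.1, h1.2, h3.1, h3.2]
  obtain ⟨q', hmv, hgap⟩ := Pool.Agent.H73.KT.holes hq.1 hq.2.1 hp hlim hup (hV a S q hst)
  have hg' : ∀ k : ℕ, (k : ℝ) + 1 ≤ q' k := fun k => (hq.2.1 k).trans (hmv.2.1 k)
  have htop : Tendsto q' atTop atTop := by
    refine tendsto_atTop_mono hg' ?_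
    exact tendsto_atTop_add_const_right _ _ tendsto_natCast_atTop_atTop
  have hD' : Pool.Agent.H49.BP.Disc q := hD
  refine ⟨q', hmv.1, hq.2.2.1.trans_le (hmv.2.1 0), hg', Pool.Agent.H73.KT.moved_disc hq.1 hq.2.1 hmv hD',
    Pool.Agent.H73.KT.moved_primes hq.1 hq.2.1 hmv hp, fun D hD0 hD2 => ?_, fun l hl k => ?_, htop, hgap⟩
  · exact Pool.Agent.H73.KT.moved_tuples hq.1 hq.2.1 hmv (hlaw D hD0 hD2)
  · refine single hmv.1 hg' hl (fun k => moved_poisson hq.1 hq.2.1 hmv hl k ?_) k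
    exact glob (fun ε hε => plain_asy hε) hst.1 hst.2.2.1 hst.2.2.2 hv hY hbad ms_top k (Q_cont k)
      (fun l hl η hη => rot_vol_of k hl (fun η' hη' => seg_vol k hl hη') hη) hl

end Pool.Agent.H73.KP
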