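import Pool.Agent.H73.KP.A2Q
import Pool.Agent.H73.KP.Bin
import Pool.Agent.H73.KP.Off2
import Pool.Agent.H73.KP.Rot
import Pool.Agent.H73.KP.Seg
import Pool.Agent.H73.KP.L1
import Pool.Agent.H73.KP.Glob
import Pool.Agent.H73.KP.MvP

/-!
# KP: the Poisson law for the block systems, in one statement
-/

set_option autoImplicit false

open Filter Topology MeasureTheory Set

namespace Pool.Agent.H73.KP

open Pool.Agent.H49.BZ (Dens md)
open Pool.Agent.H73.TR (rot)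
open Pool.Agent.H73.KT (Mb Slow pos)
open Pool.Agent.H73.KZ (DV Blocks Enum tb)

theorem poisson_blocks [Dens] [DV] {a : ℕ → ℕ} {S : ℕ → Finset ℝ} {q : ℕ → ℝ} {D : ℕ → Finset ℕ} {v : ℕ → ℝ}
    (hasy : ∀ ε : ℝ, 0 < ε → ∀ᶠ u in atTop, |md u * Real.log u - 1| ≤ ε)
    (ha : Slow a) (hS : Blocks a S) (hq : Enum a S q) (hv : ∀ b, v b ∈ Ioc (0 : ℝ) 1)
    (hY : ∀ b, D b = ∅ → 1 ≤ a b → Nm (ms (a b)) = a b + 1 ∧ S b = ((Ym (ms (a b))).image fun y =>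
        y * ((tb a (b + 1) - tb a b) / Nm (ms (a b)))).image fun c => rot (tb a b) (tb a (b + 1)) c (pos (tb a b) (tb a (b + 1)) (v b)))
    (hbad : ∀ η : ℝ, 0 < η → ∀ᶠ J : ℕ in atTop,
        ∑ b ∈ (Finset.range J).filter (fun b => D b ≠ ∅), ((a b : ℝ) + 1) ≤ η * Mb a J) :
    ∀ l : ℝ, 0 < l → ∀ k : ℕ,
      Tendsto (fun X : ℝ => volume.real {x : ℝ | 2 ≤ x ∧ x ≤ X ∧ cw q x (l * Real.log x) = k} / X) atTop
        (𝓝 (Real.exp (-l) * l ^ k / (k.factorial : ℝ))) := by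
  intro l hl k
  refine single hq.1 hq.2.1 hl (fun k => ?_) k
  exact glob hasy ha hS hq hv hY hbad ms_top k (Q_cont k)
    (fun l hl η hη => rot_vol_of k hl (fun η' hη' => seg_vol k hl hη') hη) hl

end Pool.Agent.H73.KP
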