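import Pool.Agent.H73.KP.Off2
import Pool.Agent.H73.KZ.A3

/-!
# KP: almost no pairs of a slowly growing distance, for the systems with special blocks
-/

set_option autoImplicit false

open MeasureTheory Filter Topology Set

namespace Pool.Agent.H73.KP

open Pool.Agent.H49.BZ (Dens Disc md MM tt md_meas log_pos' md_pos md_nonneg md_le_one md_int MM_sub MM_lt MM_le MM_nonneg
  le_MM_inc tt_one_le MM_tt tt_mono tt_zero tt_ge exists_slot MM_sub_le le_md)
open Pool.Agent.H73.KT (pat mult mx Mb off pos cnt cst Slow tc Mb_zero Mb_succ Mb_mono le_Mb exists_index)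
open Pool.Agent.H73.KZ (DV Blocks Enum tb tb_mono tb_ge tb_one_le ln ln_log ln_short exists_block)

variable [Dens]

theorem sparse2 [DV] {g : ℝ → ℝ} (hg : Tendsto g atTop atTop) : ∃ V : ℕ → ℕ, ∀ (a : ℕ → ℕ) (S : ℕ → Finset ℝ) (q : ℕ → ℝ),
    (Slow a ∧ (∀ b, a b ≠ 0 → V (a b) ≤ b) ∧ Blocks a S ∧ Enum a S q ∧
      (∀ b, ∀ x ∈ S b, ∀ y ∈ S (b + 1), ∀ k : ℕ, y ≠ x + (k : ℝ)) ∧
      ∀ b, ∀ x ∈ S b, ∀ y ∈ S b, ∀ d : ℕ, a b < d →
        (d : ℝ) + a b < ln a b / (((a b : ℝ) + 2) * ((ms (a b) : ℝ) + 1) ^ 2) → y ≠ x + (d : ℝ)) →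
    ∀ᶠ x in atTop, ∃ d : ℕ, 2 ≤ d ∧ (d : ℝ) + 1 ≤ g x ∧ (tc q {0, d} x : ℝ) ≤ √x ∧ (tc q {0, d + 1} x : ℝ) ≤ √x := by
  have h1 : ∀ k : ℕ, ∃ V : ℕ, Real.exp (20 * ((k : ℝ) + 2) * ((ms k : ℝ) + 1) ^ 2) ≤ V ∧
      ∀ x : ℝ, (V : ℝ) ≤ x → (k : ℝ) + 2 ≤ g x := by
    intro k
    obtain ⟨B, hB⟩ := eventually_atTop.1 (hg.eventually (eventually_ge_atTop ((k : ℝ) + 2)))
    obtain ⟨V, hV⟩ := exists_nat_ge (max B (Real.exp (20 * ((k : ℝ) + 2) * ((ms k : ℝ) + 1) ^ 2)))
    exact ⟨V, (le_max_right _ _).trans hV, fun x hx => hB x (((le_max_left _ _).trans hV).trans hx)⟩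
  choose V hV1 hV2 using h1
  refine ⟨V, fun a S q ⟨ha, haV, hS, hq, hX, hA⟩ => ?_⟩
  obtain ⟨b2, hb2⟩ := ln_short ha
  obtain ⟨J0, hJ0⟩ := eventually_atTop.1 (ha.2.1.eventually (eventually_ge_atTop 1))
  filter_upwards [eventually_ge_atTop 2, eventually_gt_atTop (tb a (b2 + 2) ^ 2), eventually_ge_atTop (tb a (J0 + 1))]
    with x hx2 hxb hxJ
  obtain ⟨J, hJ1, hJ2⟩ := exists_block (a := a) (x := x) (by linarith)
  have hJJ : J0 ≤ J := by
    have h3 : tb a (J0 + 1) < tb a (J + 1) := lt_of_le_of_lt hxJ hJ2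
    have := tb_mono.lt_iff_lt.1 h3
    omega
  have haJ : 1 ≤ a J := hJ0 J hJJ
  have hx0 : 0 < x := by linarith
  have hVJ : (V (a J) : ℝ) ≤ x := by
    have h3 : (V (a J) : ℝ) ≤ J := by exact_mod_cast haV J (by omega)
    have h4 := tb_ge (a := a) J
    linarith
  have hlogx : 20 * ((a J : ℝ) + 2) * ((ms (a J) : ℝ) + 1) ^ 2 ≤ Real.log x := by
    rw [Real.le_log_iff_exp_le hx0]
    exact (hV1 (a J)).trans hVJ
  have hsx : tb a (b2 + 2) < √x := by
    have h3 : 0 ≤ tb a (b2 + 2) := by linarith [tb_one_le (a := a) (b2 + 2)]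
    rw [← Real.sqrt_sq h3]
    exact Real.sqrt_lt_sqrt (sq_nonneg _) hxb
  have hsx0 : 0 < √x := Real.sqrt_pos.2 hx0
  have haJ0 : (1 : ℝ) ≤ a J := by exact_mod_cast haJ
  -- the distances `a J + 1` and `a J + 2`
  have key : ∀ d : ℕ, a J < d → (d : ℝ) ≤ a J + 2 → (tc q {0, d} x : ℝ) ≤ √x := by
    intro d hd1 hd2
    have hsub : {n : ℕ | q n ≤ x ∧ ∀ e ∈ ({0, d} : Finset ℕ), ∃ k, q k = q n + (e : ℝ)} ⊆
        ((Finset.range ⌊√x⌋₊ : Finset ℕ) : Set ℕ) := by
      rintro n ⟨hn1, hn2⟩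
      rw [Finset.mem_coe, Finset.mem_range]
      have hnx : q n < √x := by
        by_contra hcon
        push Not at hcon
        obtain ⟨k, hk⟩ := hn2 d (by simp)
        obtain ⟨b, hbn1, hbn2⟩ := exists_index (a := a) n
        have hqb := hq.2.2.2.1 b n hbn1 hbn2
        obtain ⟨b', hbk1, hbk2⟩ := exists_index (a := a) k
        have hqb' := hq.2.2.2.1 b' k hbk1 hbk2
        obtain ⟨t1, t2⟩ := hS.2.1 b _ hqb
        obtain ⟨t3, t4⟩ := hS.2.1 b' _ hqb'
        -- `b ≤ J`
        have hbJ : b ≤ J := by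
          have h3 : tb a b < tb a (J + 1) := by linarith
          have := tb_mono.lt_iff_lt.1 h3
          omega
        have habJ : (a b : ℝ) ≤ a J := by exact_mod_cast ha.1 hbJ
        -- `b2 < b`
        have hbb2 : b2 + 1 ≤ b := by
          have h3 : tb a (b2 + 2) < tb a (b + 1) := by linarith
          have := tb_mono.lt_iff_lt.1 h3
          omega
        have htb1 := tb_one_le (a := a) b
        have hln := hb2 b (by omega)
        have hsq : √(tb a b) ≤ tb a b := by
          rw [Real.sqrt_le_left (by linarith)]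
          nlinarith
        have hhalf : √x / 2 ≤ tb a b := by
          unfold ln at hln
          linarith
        have hM1 : (1 : ℝ) ≤ ((ms (a J) : ℝ) + 1) ^ 2 := by
          have : (0 : ℝ) ≤ ms (a J) := Nat.cast_nonneg _
          nlinarith
        have hMb : (0 : ℝ) < ((ms (a b) : ℝ) + 1) ^ 2 := by positivity
        have hMJ : ((ms (a b) : ℝ) + 1) ^ 2 ≤ ((ms (a J) : ℝ) + 1) ^ 2 := by
          have h3 : (ms (a b) : ℝ) ≤ ms (a J) := by exact_mod_cast ms_mono (ha.1 hbJ)
          have h4 : (0 : ℝ) ≤ ms (a b) := Nat.cast_nonneg _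
          nlinarith
        have hlogb : (8 * (a J : ℝ) + 12) * ((ms (a J) : ℝ) + 1) ^ 2 ≤ Real.log (tb a b) := by
          have h3 := Real.log_le_log (by positivity) hhalf
          rw [Real.log_div hsx0.ne' (by norm_num), Real.log_sqrt hx0.le] at h3
          have h4 : Real.log 2 ≤ 1 := by
            have := Real.log_two_lt_d9
            linarith
          nlinarith
        have hlnb := ln_log (a := a) (b := b) (by omega)
        have hab0 : (0 : ℝ) ≤ a b := Nat.cast_nonneg _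
        have hlogb' : 8 * (a J : ℝ) + 12 ≤ Real.log (tb a b) := by
          nlinarith
        have hs0 : (1 / 4) * Real.log (tb a b) ≤ ln a b / ((a b : ℝ) + 2) := by
          rw [le_div_iff₀ (by linarith)]
          have h5 : 0 ≤ Real.log (tb a b) := Real.log_nonneg htb1
          nlinarith
        have hs : 2 * (a J : ℝ) + 3 ≤ ln a b / (((a b : ℝ) + 2) * ((ms (a b) : ℝ) + 1) ^ 2) := by
          rw [← div_div, le_div_iff₀ hMb]
          have h5 : (2 * (a J : ℝ) + 3) * ((ms (a b) : ℝ) + 1) ^ 2 ≤ (2 * (a J : ℝ) + 3) * ((ms (a J) : ℝ) + 1) ^ 2 :=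
            mul_le_mul_of_nonneg_left hMJ (by linarith)
          linarith
        have hdb : a b < d := lt_of_le_of_lt (ha.1 hbJ) hd1
        have hdpos : (0 : ℝ) < d := by exact_mod_cast (by omega : 0 < d)
        have hbb' : b ≤ b' := by
          by_contra hc
          push Not at hc
          have h3 : tb a (b' + 1) ≤ tb a b := tb_mono.monotone (by omega)
          linarith
        rcases hbb'.eq_or_lt with h3 | h3
        · subst h3
          exact hA b _ hqb _ hqb' d hdb (by linarith) hk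
        · rcases (Nat.succ_le_of_lt h3).eq_or_lt with h4 | h4
          · rw [Nat.succ_eq_add_one] at h4
            subst h4
            exact hX b _ hqb _ hqb' d hk
          · have h5 : tb a (b + 1 + 1) ≤ tb a b' := tb_mono.monotone h4
            have h6 := ln_log (a := a) (b := b + 1) (by omega)
            have h7 : Real.log (tb a b) ≤ Real.log (tb a (b + 1)) :=
              Real.log_le_log (by linarith) (tb_mono.monotone (Nat.le_succ b))
            have h8 : (0 : ℝ) ≤ a (b + 1) := Nat.cast_nonneg _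
            have h9 : Real.log (tb a (b + 1)) ≤ 2 * ln a (b + 1) := by
              have h10 : 0 ≤ Real.log (tb a (b + 1)) := Real.log_nonneg (tb_one_le (b + 1))
              nlinarith
            unfold ln at h9
            linarith
      have h3 := hq.2.1 n
      have h4 : n + 1 ≤ ⌊√x⌋₊ := by
        rw [Nat.le_floor_iff hsx0.le]
        push_cast
        linarith
      omega
    have h3 := Set.ncard_le_ncard hsub (Finset.finite_toSet _)
    rw [Set.ncard_coe_finset, Finset.card_range] at h3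
    have h4 : (tc q {0, d} x : ℝ) ≤ (⌊√x⌋₊ : ℝ) := by
      unfold tc
      exact_mod_cast h3
    exact h4.trans (Nat.floor_le hsx0.le)
  refine ⟨a J + 1, by omega, ?_, key _ (by omega) (by push_cast; linarith), key _ (by omega) (by push_cast; linarith)⟩
  have := hV2 (a J) x hVJ
  push_cast
  linarith

end Pool.Agent.H73.KP
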