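import Pool.Agent.H73.KZ.Sys
import Pool.Agent.H73.KP.A2P
import Pool.Agent.H73.KP.Bin
import Pool.Agent.H73.KP.Off2
import Pool.Agent.H73.KP.Rot
import Pool.Agent.H73.KP.Seg
import Pool.Agent.H73.KP.L1
import Pool.Agent.H73.KP.Glob
import Pool.Agent.H73.KP.Gap2
import Pool.Agent.H73.KP.MvP

/-!
# KP: the systems with prescribed zeros, prescribed laws of all constellations, prescribed order of the gaps and the Poisson
law for the numbers of the primes in the intervals of length proportional to `log x`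
-/

set_option autoImplicit false

open Filter Topology MeasureTheory Complex

namespace Pool.Agent.H73.KP

open Pool.Agent.H49.BP (gint pc GapLim)
open Pool.Agent.H49.BZ (Dens MM md nd dens Windows Disc SmallErr primeCount intCount RHSystem)
open Pool.Agent.H73.KT (tc Laws)
open Pool.Agent.H73.KZ (DV HasZeros explicit system_of pc_inc moved_disc)

/-- the system -/
theorem sys_poisson {γ : ℕ → ℝ} (h0 : ∀ k, 0 < γ k) (hm : Monotone γ) (hW : Windows γ) {n : Finset ℕ → ℝ → ℝ}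
    (hn : Laws n) {h : ℝ → ℝ}
    (hlim : Tendsto (fun x => h x / Real.log x) atTop atTop)
    (hup : ∃ A : ℝ, ∀ᶠ x in atTop, h x ≤ A * √x * Real.log x) :
    ∃ (q : ℕ → ℝ) (Z : ℂ → ℂ), RHSystem q Z ∧ HasZeros Z γ ∧
      (∀ D : Finset ℕ, 0 ∈ D → 2 ≤ D.card → ∀ ε : ℝ, 0 < ε → ∃ C : ℝ, ∀ x : ℝ, 2 ≤ x →
        |(tc q D x : ℝ) - ∫ u in (2 : ℝ)..x, n D u / Real.log u| ≤ C * x ^ (1 / 2 + ε)) ∧
      ((∀ δ : ℝ, 0 < δ → ∃ C : ℝ, ∀ x : ℝ, 1 ≤ x → h x ≤ C * x ^ δ) →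
        ∀ ε : ℝ, 0 < ε → ∃ C : ℝ, ∀ x : ℝ, 1 ≤ x → |(primeCount q x : ℝ) - explicit γ x| ≤ C * x ^ ε) ∧
      (∀ l : ℝ, 0 < l → ∀ k : ℕ,
        Tendsto (fun X : ℝ => volume.real {x : ℝ | 2 ≤ x ∧ x ≤ X ∧ cw q x (l * Real.log x) = k} / X) atTop
          (𝓝 (Real.exp (-l) * l ^ k / (k.factorial : ℝ)))) ∧
      Tendsto q atTop atTop ∧ GapLim q h := by
  let _ : Dens := dens γ h0
  have _ : DV := Pool.Agent.H49.BZ.dens_DV h0
  obtain ⟨V, hV⟩ := base_gaps2 hlim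
  obtain ⟨a, S, q, Dd, v, hst, hD, hcount, hlaw, hv, hY, hbad⟩ := realise2 hn V
  have hq := hst.2.2.2
  obtain ⟨q', hmv, hgap, _, hcount', htr⟩ :=
    Pool.Agent.H73.KT.holes2 hq.1 hq.2.1 (by
      obtain ⟨C, _, hC⟩ := pc_inc hcount
      exact ⟨C, hC⟩) hlim hup (hV a S q hst)
  have hg' : ∀ k : ℕ, (k : ℝ) + 1 ≤ q' k := fun k => (hq.2.1 k).trans (hmv.2.1 k)
  have hI : SmallErr q' := by
    obtain ⟨u, w, K, hK, h1, h2, h3, h4, h5⟩ := htr
    refine Pool.Agent.H49.BZ.smallErr_of hmv.1 hg' hcount hK h1 (fun k => (h2 k).1) (fun k => (h2 k).2)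
      (fun x _ hx => h3 x fun k hk => hx k ⟨hk.1, hk.2⟩) fun k x hx => ?_
    have h6 := h4 k x hx.1 hx.2
    have h7 : (pc q' x : ℝ) ≤ pc q x := by exact_mod_cast h5 x
    rw [abs_sub_comm, abs_of_nonneg (by linarith)]
    exact h6
  have htop : Tendsto q' atTop atTop := by
    refine tendsto_atTop_mono hg' ?_
    exact tendsto_atTop_add_const_right _ _ tendsto_natCast_atTop_atTop
  have hc : ∀ ε : ℝ, 0 < ε → ∃ C : ℝ, ∀ x : ℝ, 1 ≤ x →
      |(primeCount q' x : ℝ) - explicit γ x| ≤ C * x ^ (1 / 2 + ε) := by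
    intro ε hε
    obtain ⟨C, hC⟩ := hcount (1 / 2 + ε) (by linarith)
    obtain ⟨u, w, K, hK, _, _, h3, h4, h5⟩ := htr
    refine ⟨C + K, fun x hx => ?_⟩
    have h6 : |(pc q' x : ℝ) - pc q x| ≤ K * x ^ (1 / 2 + ε) := by
      have h7 : 0 ≤ K * x ^ (1 / 2 + ε) := mul_nonneg hK (Real.rpow_nonneg (by linarith) _)
      by_cases h8 : ∃ k, u k ≤ x ∧ x ≤ w k
      · obtain ⟨k, hk1, hk2⟩ := h8
        have h9 := h4 k x hk1 hk2
        have h10 : (pc q' x : ℝ) ≤ pc q x := by exact_mod_cast h5 x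
        rw [abs_sub_comm, abs_of_nonneg (by linarith)]
        refine h9.trans (mul_le_mul_of_nonneg_left ?_ hK)
        calc √(u k) ≤ √x := Real.sqrt_le_sqrt hk1
          _ ≤ x ^ (1 / 2 + ε) := by
            rw [Real.sqrt_eq_rpow]
            exact Real.rpow_le_rpow_of_exponent_le hx (by linarith)
      · push Not at h8
        have h9 : pc q' x = pc q x := h3 x fun k hk => absurd hk.2 (not_le.2 (h8 k hk.1))
        rw [h9, sub_self, abs_zero]
        exact h7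
    have h11 := hC x hx
    have h12 := abs_add_le ((pc q' x : ℝ) - pc q x) ((pc q x : ℝ) - MM x)
    have e : ((pc q' x : ℝ) - pc q x) + ((pc q x : ℝ) - MM x) =
        (primeCount q' x : ℝ) - explicit γ x := by
      show _ = (pc q' x : ℝ) - MM x
      ring
    rw [e] at h12
    linarith
  obtain ⟨Z, hZ1, hZ2⟩ := system_of h0 hm hW hmv.1 (hq.2.2.1.trans_le (hmv.2.1 0)) hg'
    (moved_disc hq.1 hq.2.1 hmv hD) hI hc
  refine ⟨q', Z, hZ1, hZ2, fun D hD0 hD2 => ?_, fun hh => ?_, fun l hl k => ?_, htop, hgap⟩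
  · exact Pool.Agent.H73.KT.moved_tuples hq.1 hq.2.1 hmv (hlaw D hD0 hD2)
  · exact hcount' MM 1 (fun x y hx hxy => by
      rw [one_mul]
      exact Pool.Agent.H49.BZ.MM_sub_le hx hxy) hh hcount
  · refine single hmv.1 hg' hl (fun k => moved_poisson hq.1 hq.2.1 hmv hl k ?_) k
    exact glob (fun ε hε => nd_lim1 h0 hm hW hε) hst.1 hst.2.2.1 hst.2.2.2 hv hY hbad ms_top k (Q_cont k)
      (fun l hl η hη => rot_vol_of k hl (fun η' hη' => seg_vol k hl hη') hη) hl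

end Pool.Agent.H73.KP
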