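import Pool.Agent.H73.KZ.Sys2
import Pool.Agent.H73.KP.A2Q
import Pool.Agent.H73.KP.Sp
import Pool.Agent.H73.KP.Bin
import Pool.Agent.H73.KP.Off2
import Pool.Agent.H73.KP.Rot
import Pool.Agent.H73.KP.Seg
import Pool.Agent.H73.KP.L1
import Pool.Agent.H73.KP.Glob
import Pool.Agent.H73.KP.MvP

/-!
# KP: the block systems (no holes) with prescribed zeros, prescribed laws of all constellations and the Poisson law
-/

set_option autoImplicit false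

open Filter Topology MeasureTheory Complex

namespace Pool.Agent.H73.KP

open Pool.Agent.H49.BP (gint pc)
open Pool.Agent.H49.BZ (Dens MM md nd dens Windows Disc SmallErr primeCount intCount RHSystem)
open Pool.Agent.H73.KT (tc Laws Slow)
open Pool.Agent.H73.KZ (DV Blocks Enum ln HasZeros explicit)

/-- the block system -/
theorem realise_poisson [Dens] [DV] (hasy : ∀ ε : ℝ, 0 < ε → ∀ᶠ u in atTop, |md u * Real.log u - 1| ≤ ε)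
    {n : Finset ℕ → ℝ → ℝ} (hn : Laws n) (V : ℕ → ℕ) :
    ∃ (a : ℕ → ℕ) (S : ℕ → Finset ℝ) (q : ℕ → ℝ),
      (Slow a ∧ (∀ b, a b ≠ 0 → V (a b) ≤ b) ∧ Blocks a S ∧ Enum a S q ∧
        (∀ b, ∀ x ∈ S b, ∀ y ∈ S (b + 1), ∀ k : ℕ, y ≠ x + (k : ℝ)) ∧
        ∀ b, ∀ x ∈ S b, ∀ y ∈ S b, ∀ d : ℕ, a b < d →
          (d : ℝ) + a b < ln a b / (((a b : ℝ) + 2) * ((ms (a b) : ℝ) + 1) ^ 2) → y ≠ x + (d : ℝ)) ∧
      Disc q ∧
      (∀ δ : ℝ, 0 < δ → ∃ C : ℝ, ∀ x : ℝ, 1 ≤ x → |(pc q x : ℝ) - MM x| ≤ C * x ^ δ) ∧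
      (∀ E : Finset ℕ, 0 ∈ E → 2 ≤ E.card → ∀ ε : ℝ, 0 < ε → ∃ C : ℝ, ∀ x : ℝ, 2 ≤ x →
        |(tc q E x : ℝ) - ∫ u in (2 : ℝ)..x, n E u / Real.log u| ≤ C * x ^ (1 / 2 + ε)) ∧
      (∀ E : Finset ℕ, 0 ∈ E → 2 ≤ E.card → ∃ K : ℕ, ∀ k, K ≤ k → (∀ e ∈ E, ∃ i, q i = q k + (e : ℝ)) →
        ∃ u : ℝ, |u - q k| ≤ √(q k) ∧ n E u ≠ 0) ∧
      ∀ l : ℝ, 0 < l → ∀ k : ℕ,
        Tendsto (fun X : ℝ => volume.real {x : ℝ | 2 ≤ x ∧ x ≤ X ∧ cw q x (l * Real.log x) = k} / X) atTop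
          (𝓝 (Real.exp (-l) * l ^ k / (k.factorial : ℝ))) := by
  obtain ⟨a, S, q, D, v, hst, hD, hcount, hlaw, hloc, hv, hY, hbad⟩ := realise3 hn V
  have hq := hst.2.2.2.1
  refine ⟨a, S, q, hst, hD, hcount, hlaw, hloc, fun l hl k => ?_⟩
  refine single hq.1 hq.2.1 hl (fun k => ?_) k
  exact glob hasy hst.1 hst.2.2.1 hq hv hY hbad ms_top k (Q_cont k)
    (fun l hl η hη => rot_vol_of k hl (fun η' hη' => seg_vol k hl hη') hη) hl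

/-- the asymptotic value of the density -/
theorem dens_asy {γ : ℕ → ℝ} (h0 : ∀ k, 0 < γ k) (hm : Monotone γ) (hW : Windows γ) :
    ∀ ε : ℝ, 0 < ε → ∀ᶠ u in atTop, |@md (dens γ h0) u * Real.log u - 1| ≤ ε :=
  fun _ hε => nd_lim1 h0 hm hW hε

end Pool.Agent.H73.KP
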