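import Pool.Agent.H73.KP.Defs

/-!
# KP: the windows
-/

set_option autoImplicit false

open MeasureTheory Filter Topology Set

namespace Pool.Agent.H73.KP

open Pool.Agent.H49.BP (pc lt_pc pc_mono)
open Pool.Agent.H49.BZ (Dens)
open Pool.Agent.H73.KT (Mb Slow exists_index)
open Pool.Agent.H73.KZ (Blocks Enum tb ln tb_mono)

theorem cw_set {q : ℕ → ℝ} (hq : StrictMono q) (hg : ∀ n : ℕ, (n : ℝ) + 1 ≤ q n) (x μ : ℝ) :
    {n : ℕ | x < q n ∧ q n ≤ x + μ} = ((Finset.Ico (pc q x) (pc q (x + μ)) : Finset ℕ) : Set ℕ) := by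
  ext n
  rw [Finset.mem_coe, Finset.mem_Ico, mem_ofPred_eq, lt_pc hq hg]
  constructor
  · rintro ⟨h1, h2⟩
    refine ⟨?_, h2⟩
    by_contra h3
    push Not at h3
    have := (lt_pc hq hg x n).1 h3
    linarith
  · rintro ⟨h1, h2⟩
    refine ⟨?_, h2⟩
    by_contra h3
    push Not at h3
    have := (lt_pc hq hg x n).2 h3
    omega

theorem cw_eq {q : ℕ → ℝ} (hq : StrictMono q) (hg : ∀ n : ℕ, (n : ℝ) + 1 ≤ q n) (x μ : ℝ) :
    cw q x μ = pc q (x + μ) - pc q x := by
  unfold cw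
  rw [cw_set hq hg, Set.ncard_coe_finset, Nat.card_Ico]

theorem cw_meas {q : ℕ → ℝ} (hq : StrictMono q) (hg : ∀ n : ℕ, (n : ℝ) + 1 ≤ q n) (l : ℝ) (k : ℕ) :
    MeasurableSet {x : ℝ | cw q x (l * Real.log x) ≤ k} := by
  have h : {x : ℝ | cw q x (l * Real.log x) ≤ k} = {x : ℝ | pc q (x + l * Real.log x) ≤ pc q x + k} := by
    ext x
    rw [mem_ofPred_eq, mem_ofPred_eq, cw_eq hq hg]
    omega
  rw [h]
  have hpc : Measurable (pc q) := (pc_mono hq hg).measurable
  have h1 : Measurable fun x : ℝ => x + l * Real.log x :=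
    measurable_id.add (measurable_const.mul Real.measurable_log)
  exact measurableSet_le (hpc.comp h1) (hpc.add_const k)

theorem nw_mono (S : Finset ℝ) (x : ℝ) {μ μ' : ℝ} (h : μ ≤ μ') : nw S x μ ≤ nw S x μ' := by
  unfold nw
  refine Finset.card_le_card fun y hy => ?_
  rw [Finset.mem_filter] at hy ⊢
  exact ⟨hy.1, hy.2.1, by linarith [hy.2.2]⟩

theorem nw_meas (S : Finset ℝ) (μ : ℝ) (k : ℕ) : MeasurableSet {x : ℝ | nw S x μ ≤ k} := by
  have h : Measurable fun x : ℝ => nw S x μ := by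
    unfold nw
    have e : (fun x : ℝ => (S.filter fun y => x < y ∧ y ≤ x + μ).card) =
        fun x : ℝ => ∑ y ∈ S, if x < y ∧ y ≤ x + μ then 1 else 0 := by
      funext x
      rw [Finset.card_filter]
    rw [e]
    refine Finset.measurable_fun_sum _ fun y _ => ?_
    refine Measurable.ite ?_ measurable_const measurable_const
    exact (measurableSet_lt measurable_id measurable_const).inter
      (measurableSet_le measurable_const (measurable_id.add_const μ))
  exact measurableSet_le h measurable_const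

/-- the windows inside a block -/
theorem cw_block [Dens] {a : ℕ → ℕ} {S : ℕ → Finset ℝ} {q : ℕ → ℝ} (hS : Blocks a S) (hq : Enum a S q) {b : ℕ} {x μ : ℝ}
    (h1 : tb a b ≤ x) (h2 : x + μ ≤ tb a (b + 1)) : cw q x μ = nw (S b) x μ := by
  unfold cw nw
  rw [← Set.ncard_image_of_injective _ hq.1.injective, ← Set.ncard_coe_finset]
  congr 1
  ext y
  rw [Finset.mem_coe, Finset.mem_filter]
  constructor
  · rintro ⟨n, ⟨h3, h4⟩, rfl⟩
    refine ⟨?_, h3, h4⟩
    obtain ⟨b', hb1, hb2⟩ := exists_index (a := a) n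
    have h5 := hq.2.2.2.1 b' n hb1 hb2
    obtain ⟨h6, h7⟩ := hS.2.1 b' _ h5
    have h8 : b' = b := by
      rcases lt_trichotomy b' b with h | h | h
      · have := (tb_mono (a := a)).monotone (show b' + 1 ≤ b by omega)
        linarith
      · exact h
      · have := (tb_mono (a := a)).monotone (show b + 1 ≤ b' by omega)
        linarith
    rw [h8] at h5
    exact h5
  · rintro ⟨h3, h4, h5⟩
    obtain ⟨n, _, _, h6⟩ := hq.2.2.2.2 b y h3
    exact ⟨n, ⟨by rw [h6]; exact h4, by rw [h6]; exact h5⟩, h6⟩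

/-- the good blocks -/
theorem good_block [Dens] {a : ℕ → ℕ} {S : ℕ → Finset ℝ} {q : ℕ → ℝ} (hS : Blocks a S) (hq : Enum a S q) {b : ℕ}
    {l m1 m2 η P P1 P2 : ℝ} {k : ℕ} (hlow : ∀ x, tb a b < x → x ≤ tb a (b + 1) → m1 ≤ l * Real.log x ∧ l * Real.log x ≤ m2)
    (hm : 0 ≤ m2) (hm2 : m2 ≤ η * ln a b)
    (h1 : |volume.real {x : ℝ | tb a b < x ∧ x ≤ tb a (b + 1) ∧ nw (S b) x m1 ≤ k} - ln a b * P1| ≤ η * ln a b)
    (h2 : |volume.real {x : ℝ | tb a b < x ∧ x ≤ tb a (b + 1) ∧ nw (S b) x m2 ≤ k} - ln a b * P2| ≤ η * ln a b)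
    (hP1 : |P1 - P| ≤ η) (hP2 : |P2 - P| ≤ η) :
    |volume.real ({x : ℝ | cw q x (l * Real.log x) ≤ k} ∩ Ioc (tb a b) (tb a (b + 1))) - ln a b * P| ≤ 3 * η * ln a b := by
  have hab : tb a b < tb a (b + 1) := tb_mono (Nat.lt_succ_self b)
  have hln : ln a b = tb a (b + 1) - tb a b := rfl
  have hln0 : 0 < ln a b := by rw [hln]; linarith
  set α := tb a b with hα
  set β := tb a (b + 1) with hβ
  set E : Set ℝ := {x : ℝ | cw q x (l * Real.log x) ≤ k} with hE
  set T1 : Set ℝ := {x : ℝ | α < x ∧ x ≤ β ∧ nw (S b) x m1 ≤ k} with hT1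
  set T2 : Set ℝ := {x : ℝ | α < x ∧ x ≤ β ∧ nw (S b) x m2 ≤ k} with hT2
  have hsub1 : E ∩ Ioc α β ⊆ T1 ∪ Ioc (β - m2) β := by
    rintro x ⟨hx1, hx2, hx3⟩
    by_cases h : x ≤ β - m2
    · left
      obtain ⟨h4, h5⟩ := hlow x hx2 hx3
      refine ⟨hx2, hx3, ?_⟩
      have h6 : cw q x (l * Real.log x) = nw (S b) x (l * Real.log x) := cw_block hS hq hx2.le (by linarith)
      have h7 : cw q x (l * Real.log x) ≤ k := hx1
      rw [h6] at h7
      exact (nw_mono _ _ h4).trans h7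
    · right
      exact ⟨by linarith, hx3⟩
  have hsub2 : T2 ⊆ (E ∩ Ioc α β) ∪ Ioc (β - m2) β := by
    rintro x ⟨hx2, hx3, hx4⟩
    by_cases h : x ≤ β - m2
    · left
      obtain ⟨h4, h5⟩ := hlow x hx2 hx3
      refine ⟨?_, hx2, hx3⟩
      have h6 : cw q x (l * Real.log x) = nw (S b) x (l * Real.log x) := cw_block hS hq hx2.le (by linarith)
      show cw q x (l * Real.log x) ≤ k
      rw [h6]
      exact (nw_mono _ _ h5).trans hx4
    · right
      exact ⟨by linarith, hx3⟩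
  have hfin : ∀ {A : Set ℝ}, A ⊆ Icc (α - m2) β → volume A ≠ ⊤ := fun {A} hA =>
    ((measure_mono hA).trans_lt measure_Icc_lt_top).ne
  have hvol : volume.real (Ioc (β - m2) β) = m2 := by
    rw [Real.volume_real_Ioc_of_le (by linarith)]
    ring
  have f1 : volume (T1 ∪ Ioc (β - m2) β) ≠ ⊤ := by
    refine hfin (union_subset (fun x hx => ⟨by linarith [hx.1], hx.2.1⟩) fun x hx => ⟨by linarith [hx.1], hx.2⟩)
  have f2 : volume ((E ∩ Ioc α β) ∪ Ioc (β - m2) β) ≠ ⊤ := by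
    refine hfin (union_subset (fun x hx => ⟨by linarith [hx.2.1], hx.2.2⟩) fun x hx => ⟨by linarith [hx.1], hx.2⟩)
  have g1 : volume.real (E ∩ Ioc α β) ≤ volume.real T1 + m2 := by
    rw [← hvol]
    exact (measureReal_mono hsub1 f1).trans (measureReal_union_le _ _)
  have g2 : volume.real T2 ≤ volume.real (E ∩ Ioc α β) + m2 := by
    rw [← hvol]
    exact (measureReal_mono hsub2 f2).trans (measureReal_union_le _ _)
  have a1 := (abs_le.1 h1)
  have a2 := (abs_le.1 h2)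
  have b1 := abs_le.1 hP1
  have b2 := abs_le.1 hP2
  have c1 : ln a b * P1 ≤ ln a b * (P + η) := mul_le_mul_of_nonneg_left (by linarith [b1.2]) hln0.le
  have c2 : ln a b * (P - η) ≤ ln a b * P2 := mul_le_mul_of_nonneg_left (by linarith [b2.1]) hln0.le
  rw [abs_le]
  constructor
  · nlinarith [a2.1]
  · nlinarith [a1.2]

end Pool.Agent.H73.KP
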